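import Mathlib

/-!
# Continuous first-order logic for expansions of real Banach spaces

A real Banach space is viewed, as usual in continuous logic, through its closed balls
`B_n = {x : ‖x‖ ≤ n}`.  A signature adds function symbols and relation symbols; on each ball an
additional symbol is bounded and uniformly continuous, with a bound and a modulus prescribed by the
signature.  Quantifiers `sup` and `inf` range over closed balls, and connectives are arbitrary
continuous functions on `ℝ^m`.
-/

namespace Pool.Agent.Lib.MP_4e4c79_lc

/-- A signature expanding the signature of real Banach spaces.  Constant symbols are function symbols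
of arity `0`.  `fnBound f n` bounds the values of `f` on the ball of radius `n` and `fnMod f n` is its
modulus of uniform continuity there; similarly for relation symbols. -/
structure Signature where
  /-- additional function symbols -/
  Fn : Type
  /-- arity of a function symbol -/
  fnArity : Fn → ℕ
  /-- bound of a function symbol on the ball of radius `n` -/
  fnBound : Fn → ℕ → ℝ
  /-- modulus of uniform continuity of a function symbol on the ball of radius `n` -/
  fnMod : Fn → ℕ → ℝ → ℝ
  fnMod_pos : ∀ f n ε, 0 < ε → 0 < fnMod f n ε
  /-- additional relation (real-valued predicate) symbols -/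
  Rel : Type
  /-- arity of a relation symbol -/
  relArity : Rel → ℕ
  /-- bound of a relation symbol on the ball of radius `n` -/
  relBound : Rel → ℕ → ℝ
  /-- modulus of uniform continuity of a relation symbol on the ball of radius `n` -/
  relMod : Rel → ℕ → ℝ → ℝ
  relMod_pos : ∀ R n ε, 0 < ε → 0 < relMod R n ε

/-- A structure for the signature `L`: a real Banach space with interpretations of the additional
symbols which obey the prescribed bounds and moduli on every ball. -/
structure Struc (L : Signature) where
  /-- the underlying Banach space -/
  carrier : Type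
  [normed : NormedAddCommGroup carrier]
  [space : NormedSpace ℝ carrier]
  [complete : CompleteSpace carrier]
  /-- interpretation of the function symbols -/
  fn : (f : L.Fn) → (Fin (L.fnArity f) → carrier) → carrier
  /-- interpretation of the relation symbols -/
  rel : (R : L.Rel) → (Fin (L.relArity R) → carrier) → ℝ
  fn_bound : ∀ (f : L.Fn) (n : ℕ) (x : Fin (L.fnArity f) → carrier),
    (∀ i, ‖x i‖ ≤ n) → ‖fn f x‖ ≤ L.fnBound f n
  fn_uc : ∀ (f : L.Fn) (n : ℕ) (ε : ℝ), 0 < ε → ∀ (x y : Fin (L.fnArity f) → carrier),
    (∀ i, ‖x i‖ ≤ n) → (∀ i, ‖y i‖ ≤ n) → (∀ i, ‖x i - y i‖ < L.fnMod f n ε) →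
      ‖fn f x - fn f y‖ ≤ ε
  rel_bound : ∀ (R : L.Rel) (n : ℕ) (x : Fin (L.relArity R) → carrier),
    (∀ i, ‖x i‖ ≤ n) → |rel R x| ≤ L.relBound R n
  rel_uc : ∀ (R : L.Rel) (n : ℕ) (ε : ℝ), 0 < ε → ∀ (x y : Fin (L.relArity R) → carrier),
    (∀ i, ‖x i‖ ≤ n) → (∀ i, ‖y i‖ ≤ n) → (∀ i, ‖x i - y i‖ < L.relMod R n ε) →
      |rel R x - rel R y| ≤ ε

attribute [instance] Struc.normed Struc.space Struc.complete

/-- Terms with free variables indexed by `Fin k`. -/
inductive Term (L : Signature) (k : ℕ) : Type
  | var (i : Fin k) : Term L k
  | zero : Term L k
  | add (s t : Term L k) : Term L k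
  | smul (c : ℝ) (t : Term L k) : Term L k
  | fn (f : L.Fn) (ts : Fin (L.fnArity f) → Term L k) : Term L k

/-- Formulas of continuous logic with free variables indexed by `Fin k`: the norm of a term (so that
the distance of two terms is the norm of their difference), relation symbols applied to terms,
continuous connectives, and the quantifiers `sup` and `inf` over the closed ball of radius `r`
(the bound variable becomes variable `0`). -/
inductive Formula (L : Signature) : ℕ → Type
  | norm {k : ℕ} (t : Term L k) : Formula L k
  | rel {k : ℕ} (R : L.Rel) (ts : Fin (L.relArity R) → Term L k) : Formula L k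
  | conn {k : ℕ} (m : ℕ) (g : C(Fin m → ℝ, ℝ)) (φ : Fin m → Formula L k) : Formula L k
  | sup {k : ℕ} (r : ℕ) (φ : Formula L (k + 1)) : Formula L k
  | inf {k : ℕ} (r : ℕ) (φ : Formula L (k + 1)) : Formula L k

/-- Value of a term in a structure under an assignment of the variables. -/
def Term.eval {L : Signature} (M : Struc L) {k : ℕ} (v : Fin k → M.carrier) :
    Term L k → M.carrier
  | .var i => v i
  | .zero => 0
  | .add s t => s.eval M v + t.eval M v
  | .smul c t => c • t.eval M v
  | .fn f ts => M.fn f (fun i => (ts i).eval M v)

/-- Value of a formula in a structure under an assignment of the variables. -/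
noncomputable def Formula.eval {L : Signature} (M : Struc L) :
    {k : ℕ} → Formula L k → (Fin k → M.carrier) → ℝ
  | _, .norm t, v => ‖t.eval M v‖
  | _, .rel R ts, v => M.rel R (fun i => (ts i).eval M v)
  | _, .conn _ g φ, v => g (fun i => (φ i).eval M v)
  | _, .sup r φ, v => ⨆ x : Metric.closedBall (0 : M.carrier) r, φ.eval M (Fin.cons (x : M.carrier) v)
  | _, .inf r φ, v => ⨅ x : Metric.closedBall (0 : M.carrier) r, φ.eval M (Fin.cons (x : M.carrier) v)

/-- Value of a sentence. -/
noncomputable def value {L : Signature} (M : Struc L) (φ : Formula L 0) : ℝ :=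
  φ.eval M Fin.elim0

/-- A theory is a set of sentences `φ`, each understood as the closed condition `φ = 0`. -/
abbrev Theory (L : Signature) := Set (Formula L 0)

/-- `M` is a model of `T`. -/
def IsModel {L : Signature} (M : Struc L) (T : Theory L) : Prop :=
  ∀ φ ∈ T, value M φ = 0

/-- `M` is a separable model of `T`. -/
def IsSepModel {L : Signature} (M : Struc L) (T : Theory L) : Prop :=
  IsModel M T ∧ TopologicalSpace.SeparableSpace M.carrier

/-- The complete theory of a structure. -/
def theoryOf {L : Signature} (M : Struc L) : Theory L := {φ | value M φ = 0}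

/-- A theory is complete if it has a model and any two of its models give every sentence the same
value. -/
def IsComplete {L : Signature} (T : Theory L) : Prop :=
  (∃ M : Struc L, IsModel M T) ∧
    ∀ M N : Struc L, IsModel M T → IsModel N T → ∀ φ : Formula L 0, value M φ = value N φ

/-- `T` is separably categorical up to linear homeomorphism: the underlying Banach spaces of any two
separable models are linearly homeomorphic. -/
def SepCatUpToLinearHomeo {L : Signature} (T : Theory L) : Prop :=
  ∀ M N : Struc L, IsSepModel M T → IsSepModel N T → Nonempty (M.carrier ≃L[ℝ] N.carrier)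

/-- The distortion `‖S‖ ‖S⁻¹‖` of a linear homeomorphism. -/
noncomputable def distortion {E F : Type} [NormedAddCommGroup E] [NormedSpace ℝ E]
    [NormedAddCommGroup F] [NormedSpace ℝ F] (S : E ≃L[ℝ] F) : ℝ :=
  ‖(S : E →L[ℝ] F)‖ * ‖(S.symm : F →L[ℝ] E)‖

/-- There is a uniform bound on the distortions needed between separable models of `T`. -/
def UniformlySepCat {L : Signature} (T : Theory L) : Prop :=
  ∃ C : ℝ, ∀ M N : Struc L, IsSepModel M T → IsSepModel N T →
    ∃ S : M.carrier ≃L[ℝ] N.carrier, distortion S ≤ C

end Pool.Agent.Lib.MP_4e4c79_lc
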