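import Mathlib
import Pool.Agent.Lib.MP_4e4c79_lc.ContLogic

/-!
Basic facts on the semantics: every formula is bounded on bounded sets of assignments, so that the
suprema and infima used in `Formula.eval` are suprema and infima of bounded functions.
-/

namespace Pool.Agent.Lib.MP_4e4c79_lc

open Metric

variable {L : Signature} (M : Struc L)

lemma Term.eval_bound {k : ℕ} (t : Term L k) (R : ℝ) :
    ∃ n : ℕ, ∀ v : Fin k → M.carrier, (∀ i, ‖v i‖ ≤ R) → ‖t.eval M v‖ ≤ n := by
  induction t with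
  | var i =>
      obtain ⟨n, hn⟩ := exists_nat_ge R
      exact ⟨n, fun v hv => (hv i).trans hn⟩
  | zero => exact ⟨0, fun v hv => by simp [Term.eval]⟩
  | add s t hs ht =>
      obtain ⟨n, hn⟩ := hs
      obtain ⟨m, hm⟩ := ht
      refine ⟨n + m, fun v hv => ?_⟩
      push_cast
      exact (norm_add_le _ _).trans (add_le_add (hn v hv) (hm v hv))
  | smul c t ht =>
      obtain ⟨n, hn⟩ := ht
      obtain ⟨m, hm⟩ := exists_nat_ge (|c| * n)
      refine ⟨m, fun v hv => ?_⟩
      simp only [Term.eval, norm_smul, Real.norm_eq_abs]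
      exact (mul_le_mul_of_nonneg_left (hn v hv) (abs_nonneg c)).trans hm
  | fn f ts hts =>
      choose n hn using hts
      obtain ⟨N, hN⟩ : ∃ N : ℕ, ∀ i, n i ≤ N := ⟨∑ i, n i, fun i =>
        Finset.single_le_sum (fun _ _ => Nat.zero_le _) (Finset.mem_univ i)⟩
      obtain ⟨m, hm⟩ := exists_nat_ge (L.fnBound f N)
      refine ⟨m, fun v hv => (M.fn_bound f N _ fun i => ?_).trans hm⟩
      exact (hn i v hv).trans (by exact_mod_cast hN i)

lemma nonempty_ball (r : ℕ) : Nonempty (closedBall (0 : M.carrier) r) :=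
  ⟨⟨0, by simp⟩⟩

lemma Formula.eval_bound {k : ℕ} (φ : Formula L k) (R : ℝ) :
    ∃ B : ℝ, ∀ v : Fin k → M.carrier, (∀ i, ‖v i‖ ≤ R) → |φ.eval M v| ≤ B := by
  induction φ generalizing R with
  | norm t =>
      obtain ⟨n, hn⟩ := t.eval_bound M R
      exact ⟨n, fun v hv => by simpa [Formula.eval, abs_of_nonneg] using hn v hv⟩
  | rel S ts =>
      choose n hn using fun i => (ts i).eval_bound M R
      obtain ⟨N, hN⟩ : ∃ N : ℕ, ∀ i, n i ≤ N := ⟨∑ i, n i, fun i =>
        Finset.single_le_sum (fun _ _ => Nat.zero_le _) (Finset.mem_univ i)⟩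
      refine ⟨L.relBound S N, fun v hv => M.rel_bound S N _ fun i => ?_⟩
      exact (hn i v hv).trans (by exact_mod_cast hN i)
  | conn m g φ ih =>
      choose B hB using fun i => ih i R
      have hcpt : IsCompact (Set.univ.pi fun i : Fin m => Set.Icc (-(B i)) (B i)) :=
        isCompact_univ_pi fun i => isCompact_Icc
      obtain ⟨C, hC⟩ := hcpt.exists_bound_of_continuousOn (f := g) g.continuous.continuousOn
      refine ⟨C, fun v hv => ?_⟩
      have := hC (fun i => (φ i).eval M v) (fun i _ => abs_le.1 (hB i v hv))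
      simpa [Formula.eval] using this
  | sup r φ ih =>
      obtain ⟨B, hB⟩ := ih (max R r)
      refine ⟨B, fun v hv => ?_⟩
      have hne := nonempty_ball M r
      have h : ∀ x : closedBall (0 : M.carrier) r,
          |φ.eval M (Fin.cons (x : M.carrier) v)| ≤ B := fun x => hB _ fun i => by
        refine Fin.cases ?_ (fun i => ?_) i
        · simpa using (mem_closedBall_zero_iff.1 x.2).trans (le_max_right R r)
        · simpa using (hv i).trans (le_max_left _ _)
      rw [Formula.eval, abs_le]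
      refine ⟨?_, ciSup_le fun x => (abs_le.1 (h x)).2⟩
      obtain ⟨x⟩ := hne
      exact (abs_le.1 (h x)).1.trans (le_ciSup (f := fun x : closedBall (0 : M.carrier) r =>
        φ.eval M (Fin.cons (x : M.carrier) v))
        ⟨B, by rintro _ ⟨y, rfl⟩; exact (abs_le.1 (h y)).2⟩ x)
  | inf r φ ih =>
      obtain ⟨B, hB⟩ := ih (max R r)
      refine ⟨B, fun v hv => ?_⟩
      have hne := nonempty_ball M r
      have h : ∀ x : closedBall (0 : M.carrier) r,
          |φ.eval M (Fin.cons (x : M.carrier) v)| ≤ B := fun x => hB _ fun i => by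
        refine Fin.cases ?_ (fun i => ?_) i
        · simpa using (mem_closedBall_zero_iff.1 x.2).trans (le_max_right R r)
        · simpa using (hv i).trans (le_max_left _ _)
      rw [Formula.eval, abs_le]
      refine ⟨le_ciInf fun x => (abs_le.1 (h x)).1, ?_⟩
      obtain ⟨x⟩ := hne
      exact (ciInf_le (f := fun x : closedBall (0 : M.carrier) r =>
        φ.eval M (Fin.cons (x : M.carrier) v))
        ⟨-B, by rintro _ ⟨y, rfl⟩; exact (abs_le.1 (h y)).1⟩ x).trans (abs_le.1 (h x)).2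

/-- The functions whose supremum or infimum is taken in the semantics of a quantifier are bounded. -/
lemma Formula.exists_bound_ball {k : ℕ} (φ : Formula L (k + 1)) (v : Fin k → M.carrier) (r : ℕ) :
    ∃ B : ℝ, ∀ x : closedBall (0 : M.carrier) r,
      |φ.eval M (Fin.cons (x : M.carrier) v)| ≤ B := by
  obtain ⟨R, hR⟩ : ∃ R : ℝ, ∀ i, ‖v i‖ ≤ R := ⟨∑ i, ‖v i‖, fun i =>
    Finset.single_le_sum (f := fun i => ‖v i‖) (fun _ _ => norm_nonneg _) (Finset.mem_univ i)⟩
  obtain ⟨B, hB⟩ := φ.eval_bound M (max R r)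
  refine ⟨B, fun x => hB _ fun i => ?_⟩
  refine Fin.cases ?_ (fun i => ?_) i
  · simpa using (mem_closedBall_zero_iff.1 x.2).trans (le_max_right R r)
  · simpa using (hR i).trans (le_max_left _ _)

lemma Formula.bddAbove_ball {k : ℕ} (φ : Formula L (k + 1)) (v : Fin k → M.carrier) (r : ℕ) :
    BddAbove (Set.range fun x : closedBall (0 : M.carrier) r =>
      φ.eval M (Fin.cons (x : M.carrier) v)) := by
  obtain ⟨B, hB⟩ := φ.exists_bound_ball M v r
  exact ⟨B, by rintro _ ⟨y, rfl⟩; exact (abs_le.1 (hB y)).2⟩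

lemma Formula.bddBelow_ball {k : ℕ} (φ : Formula L (k + 1)) (v : Fin k → M.carrier) (r : ℕ) :
    BddBelow (Set.range fun x : closedBall (0 : M.carrier) r =>
      φ.eval M (Fin.cons (x : M.carrier) v)) := by
  obtain ⟨B, hB⟩ := φ.exists_bound_ball M v r
  exact ⟨-B, by rintro _ ⟨y, rfl⟩; exact (abs_le.1 (hB y)).1⟩

lemma Formula.le_eval_sup {k : ℕ} (φ : Formula L (k + 1)) (v : Fin k → M.carrier) (r : ℕ)
    (x : M.carrier) (hx : ‖x‖ ≤ r) : φ.eval M (Fin.cons x v) ≤ (Formula.sup r φ).eval M v := by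
  exact le_ciSup (φ.bddAbove_ball M v r) ⟨x, mem_closedBall_zero_iff.2 hx⟩

lemma Formula.eval_sup_le {k : ℕ} (φ : Formula L (k + 1)) (v : Fin k → M.carrier) (r : ℕ)
    (c : ℝ) (h : ∀ x : M.carrier, ‖x‖ ≤ r → φ.eval M (Fin.cons x v) ≤ c) :
    (Formula.sup r φ).eval M v ≤ c := by
  have := nonempty_ball M r
  exact ciSup_le fun x => h x (mem_closedBall_zero_iff.1 x.2)

lemma Formula.eval_inf_le {k : ℕ} (φ : Formula L (k + 1)) (v : Fin k → M.carrier) (r : ℕ)
    (x : M.carrier) (hx : ‖x‖ ≤ r) : (Formula.inf r φ).eval M v ≤ φ.eval M (Fin.cons x v) := by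
  exact ciInf_le (φ.bddBelow_ball M v r) ⟨x, mem_closedBall_zero_iff.2 hx⟩

lemma Formula.le_eval_inf {k : ℕ} (φ : Formula L (k + 1)) (v : Fin k → M.carrier) (r : ℕ)
    (c : ℝ) (h : ∀ x : M.carrier, ‖x‖ ≤ r → c ≤ φ.eval M (Fin.cons x v)) :
    c ≤ (Formula.inf r φ).eval M v := by
  have := nonempty_ball M r
  exact le_ciInf fun x => h x (mem_closedBall_zero_iff.1 x.2)

lemma Formula.exists_lt_of_eval_inf_lt {k : ℕ} (φ : Formula L (k + 1)) (v : Fin k → M.carrier)
    (r : ℕ) (c : ℝ) (h : (Formula.inf r φ).eval M v < c) :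
    ∃ x : M.carrier, ‖x‖ ≤ r ∧ φ.eval M (Fin.cons x v) < c := by
  by_contra hcon
  push Not at hcon
  exact absurd h (not_lt.2 (φ.le_eval_inf M v r c hcon))

/-- A universally quantified nonnegative formula vanishes iff it vanishes at all points. -/
lemma Formula.eval_sup_eq_zero {k : ℕ} (φ : Formula L (k + 1)) (v : Fin k → M.carrier) (r : ℕ)
    (h0 : ∀ x : M.carrier, ‖x‖ ≤ r → 0 ≤ φ.eval M (Fin.cons x v)) :
    (Formula.sup r φ).eval M v = 0 ↔ ∀ x : M.carrier, ‖x‖ ≤ r → φ.eval M (Fin.cons x v) = 0 := by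
  constructor
  · intro h x hx
    exact le_antisymm ((φ.le_eval_sup M v r x hx).trans h.le) (h0 x hx)
  · intro h
    refine le_antisymm (φ.eval_sup_le M v r 0 fun x hx => (h x hx).le) ?_
    have h1 := φ.le_eval_sup M v r 0 (by simp)
    exact (h0 0 (by simp)).trans h1

lemma Formula.eval_sup_nonneg {k : ℕ} (φ : Formula L (k + 1)) (v : Fin k → M.carrier) (r : ℕ)
    (h0 : ∀ x : M.carrier, ‖x‖ ≤ r → 0 ≤ φ.eval M (Fin.cons x v)) :
    0 ≤ (Formula.sup r φ).eval M v :=
  (h0 0 (by simp)).trans (φ.le_eval_sup M v r 0 (by simp))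

end Pool.Agent.Lib.MP_4e4c79_lc

namespace Pool.Agent.Lib.MP_4e4c79_lc

open Metric

variable {L : Signature} (M : Struc L)

/-- Universal closure of a formula over the ball of radius `r`. -/
def Formula.allBall : (k : ℕ) → ℕ → Formula L k → Formula L 0
  | 0, _, φ => φ
  | k + 1, r, φ => Formula.allBall k r (Formula.sup r φ)

lemma Formula.value_allBall_eq_zero {k : ℕ} (φ : Formula L k) (r : ℕ)
    (h0 : ∀ v : Fin k → M.carrier, (∀ i, ‖v i‖ ≤ r) → 0 ≤ φ.eval M v) :
    value M (Formula.allBall k r φ) = 0 ↔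
      ∀ v : Fin k → M.carrier, (∀ i, ‖v i‖ ≤ r) → φ.eval M v = 0 := by
  induction k with
  | zero =>
      constructor
      · intro h v _
        rw [Subsingleton.elim v Fin.elim0]
        exact h
      · intro h
        exact h Fin.elim0 (fun i => i.elim0)
  | succ k ih =>
      have hcons : ∀ (v : Fin k → M.carrier), (∀ i, ‖v i‖ ≤ r) → ∀ x : M.carrier, ‖x‖ ≤ r →
          ∀ i, ‖(Fin.cons x v : Fin (k + 1) → M.carrier) i‖ ≤ r := by
        intro v hv x hx i
        refine Fin.cases ?_ (fun i => ?_) i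
        · simpa using hx
        · simpa using hv i
      rw [Formula.allBall, ih (Formula.sup r φ)
        (fun v hv => φ.eval_sup_nonneg M v r fun x hx => h0 _ (hcons v hv x hx))]
      constructor
      · intro h v hv
        have h1 := h (Fin.tail v) (fun i => hv i.succ)
        rw [φ.eval_sup_eq_zero M (Fin.tail v) r
          (fun x hx => h0 _ (hcons (Fin.tail v) (fun i => hv i.succ) x hx))] at h1
        have h2 := h1 (v 0) (hv 0)
        rwa [Fin.cons_self_tail] at h2
      · intro h v hv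
        rw [φ.eval_sup_eq_zero M _ r (fun x hx => h0 _ (hcons _ hv x hx))]
        intro x hx
        exact h _ (hcons v hv x hx)

lemma Formula.value_allBall_nonneg {k : ℕ} (φ : Formula L k) (r : ℕ)
    (h0 : ∀ v : Fin k → M.carrier, (∀ i, ‖v i‖ ≤ r) → 0 ≤ φ.eval M v) :
    0 ≤ value M (Formula.allBall k r φ) := by
  induction k with
  | zero => exact h0 _ (fun i => i.elim0)
  | succ k ih =>
      refine ih (Formula.sup r φ) fun v hv => φ.eval_sup_nonneg M v r fun x hx => h0 _ fun i => ?_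
      refine Fin.cases ?_ (fun i => ?_) i
      · simpa using hx
      · simpa using hv i

/-- If the universal closures over all balls hold then the formula vanishes everywhere. -/
lemma Formula.eval_eq_zero_of_allBall {k : ℕ} (φ : Formula L k)
    (h0 : ∀ v : Fin k → M.carrier, 0 ≤ φ.eval M v)
    (h : ∀ r : ℕ, value M (Formula.allBall k r φ) = 0) (v : Fin k → M.carrier) :
    φ.eval M v = 0 := by
  obtain ⟨r, hr⟩ : ∃ r : ℕ, ∀ i, ‖v i‖ ≤ r := by
    obtain ⟨r, hr⟩ := exists_nat_ge (∑ i, ‖v i‖)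
    exact ⟨r, fun i => (Finset.single_le_sum (f := fun i => ‖v i‖)
      (fun _ _ => norm_nonneg _) (Finset.mem_univ i)).trans hr⟩
  exact (φ.value_allBall_eq_zero M r fun v _ => h0 v).1 (h r) v hr

end Pool.Agent.Lib.MP_4e4c79_lc
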