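import Mathlib

/-!
Auxiliary facts on `ℓ²`-sums: square sums of norms, restriction to a set of indices, diagonal
bilinear forms, the tensor of two norm sequences.
-/

namespace Pool.Agent.Lib.MP_4e4c79_lc.Complete

open scoped ENNReal
attribute [local instance] Classical.propDecidable
set_option linter.unusedSectionVars false

noncomputable section

variable {ι : Type} {G : ι → Type} [∀ i, NormedAddCommGroup (G i)]

lemma hasSum_sq (x : lp G 2) : HasSum (fun i => ‖x i‖ ^ 2) (‖x‖ ^ 2) := by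
  have h := lp.hasSum_norm (p := 2) (by norm_num) x
  simpa [Real.rpow_two] using h

lemma summable_sq (x : lp G 2) : Summable fun i => ‖x i‖ ^ 2 := (hasSum_sq x).summable

lemma tsum_sq (x : lp G 2) : ∑' i, ‖x i‖ ^ 2 = ‖x‖ ^ 2 := (hasSum_sq x).tsum_eq

/-- Elements of an `ℓ²`-sum from square summable families. -/
def mk2 (f : ∀ i, G i) (hf : Summable fun i => ‖f i‖ ^ 2) : lp G 2 :=
  ⟨f, memℓp_gen (by simpa [Real.rpow_two] using hf)⟩

@[simp] lemma mk2_apply (f : ∀ i, G i) (hf : Summable fun i => ‖f i‖ ^ 2) (i : ι) :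
    mk2 f hf i = f i := rfl

lemma norm_le_of_sq (x : lp G 2) (c : ℝ) (hc : 0 ≤ c) (h : ∑' i, ‖x i‖ ^ 2 ≤ c ^ 2) : ‖x‖ ≤ c := by
  rw [tsum_sq] at h
  exact le_of_sq_le_sq h hc

/-- The restriction of an element to a set of indices. -/
def maskFun (S : Set ι) (x : lp G 2) : lp G 2 :=
  mk2 (fun i => if i ∈ S then x i else 0) (by
    refine Summable.of_nonneg_of_le (fun i => by positivity) (fun i => ?_) (summable_sq x)
    by_cases h : i ∈ S
    · simp [h]
    · simp [h])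

@[simp] lemma maskFun_apply (S : Set ι) (x : lp G 2) (i : ι) :
    maskFun S x i = if i ∈ S then x i else 0 := rfl

variable [∀ i, NormedSpace ℝ (G i)]

/-- The restriction to a set of indices as a linear map. -/
def mask (S : Set ι) : lp G 2 →ₗ[ℝ] lp G 2 where
  toFun := maskFun S
  map_add' x y := by
    ext i
    by_cases h : i ∈ S <;> simp [h]
  map_smul' c x := by
    ext i
    by_cases h : i ∈ S <;> simp [h]

@[simp] lemma mask_apply (S : Set ι) (x : lp G 2) (i : ι) :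
    mask S x i = if i ∈ S then x i else 0 := rfl

lemma mask_pyth (S : Set ι) (x : lp G 2) : ‖x‖ ^ 2 = ‖x - mask S x‖ ^ 2 + ‖mask S x‖ ^ 2 := by
  refine (hasSum_sq x).unique ?_
  convert (hasSum_sq (x - mask S x)).add (hasSum_sq (mask S x)) using 2 with i
  by_cases h : i ∈ S <;> simp [h]

lemma mask_norm_le (S : Set ι) (x : lp G 2) : ‖mask S x‖ ≤ ‖x‖ := by
  have h := mask_pyth S x
  exact le_of_sq_le_sq (by linarith [sq_nonneg ‖x - mask S x‖]) (norm_nonneg x)

lemma mask_mask (S S' : Set ι) (x : lp G 2) : mask S (mask S' x) = mask (S ∩ S') x := by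
  ext i
  by_cases h : i ∈ S <;> by_cases h' : i ∈ S' <;> simp [h, h']

lemma mask_univ (x : lp G 2) : mask Set.univ x = x := by
  ext i
  simp

/-- Summability of a diagonal bilinear form. -/
lemma summable_diag (β : ∀ i, G i → G i → ℝ) (hβ : ∀ i x y, |β i x y| ≤ ‖x‖ * ‖y‖)
    (x y : lp G 2) : Summable fun i => β i (x i) (y i) := by
  refine Summable.of_norm_bounded (g := fun i => ‖x i‖ ^ 2 + ‖y i‖ ^ 2)
    ((summable_sq x).add (summable_sq y)) fun i => ?_
  rw [Real.norm_eq_abs]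
  refine (hβ i _ _).trans ?_
  nlinarith [sq_nonneg (‖x i‖ - ‖y i‖), sq_nonneg ‖x i‖, sq_nonneg ‖y i‖]

/-- A diagonal bilinear form on an `ℓ²`-sum. -/
def diagForm (β : ∀ i, G i → G i → ℝ) (x y : lp G 2) : ℝ := ∑' i, β i (x i) (y i)

lemma hasSum_diag (β : ∀ i, G i → G i → ℝ) (hβ : ∀ i x y, |β i x y| ≤ ‖x‖ * ‖y‖)
    (x y : lp G 2) : HasSum (fun i => β i (x i) (y i)) (diagForm β x y) :=
  (summable_diag β hβ x y).hasSum

lemma diagForm_add (β : ∀ i, G i → G i → ℝ) (hβ : ∀ i x y, |β i x y| ≤ ‖x‖ * ‖y‖)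
    (hadd : ∀ i x y z, β i (x + y) z = β i x z + β i y z) (x y z : lp G 2) :
    diagForm β (x + y) z = diagForm β x z + diagForm β y z := by
  refine (hasSum_diag β hβ (x + y) z).unique ?_
  have h : (fun i => β i ((x + y) i) (z i)) = fun i => β i (x i) (z i) + β i (y i) (z i) :=
    funext fun i => hadd i _ _ _
  rw [h]
  exact (hasSum_diag β hβ x z).add (hasSum_diag β hβ y z)

lemma diagForm_smul (β : ∀ i, G i → G i → ℝ) (hβ : ∀ i x y, |β i x y| ≤ ‖x‖ * ‖y‖)
    (hsmul : ∀ i (c : ℝ) x y, β i (c • x) y = c * β i x y) (c : ℝ) (x y : lp G 2) :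
    diagForm β (c • x) y = c * diagForm β x y := by
  refine (hasSum_diag β hβ (c • x) y).unique ?_
  have h : (fun i => β i ((c • x) i) (y i)) = fun i => c * β i (x i) (y i) :=
    funext fun i => hsmul i c _ _
  rw [h]
  exact (hasSum_diag β hβ x y).mul_left c

lemma diagForm_symm (β : ∀ i, G i → G i → ℝ) (hsymm : ∀ i x y, β i x y = β i y x)
    (x y : lp G 2) : diagForm β x y = diagForm β y x := by
  unfold diagForm
  congr 1
  funext i
  exact hsymm i _ _

lemma diagForm_self_le (β : ∀ i, G i → G i → ℝ) (hβ : ∀ i x y, |β i x y| ≤ ‖x‖ * ‖y‖)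
    (x : lp G 2) : diagForm β x x ≤ ‖x‖ ^ 2 := by
  refine hasSum_le (fun i => ?_) (hasSum_diag β hβ x x) (hasSum_sq x)
  refine (le_abs_self _).trans ((hβ i _ _).trans_eq ?_)
  ring

lemma diagForm_abs_le (β : ∀ i, G i → G i → ℝ) (hβ : ∀ i x y, |β i x y| ≤ ‖x‖ * ‖y‖)
    (hadd : ∀ i x y z, β i (x + y) z = β i x z + β i y z)
    (hsmul : ∀ i (c : ℝ) x y, β i (c • x) y = c * β i x y)
    (hsymm : ∀ i x y, β i x y = β i y x) (hpos : ∀ i x, 0 ≤ β i x x)
    (x y : lp G 2) : |diagForm β x y| ≤ ‖x‖ * ‖y‖ := by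
  -- Cauchy-Schwarz
  obtain ⟨B, hB⟩ : ∃ B, B = diagForm β := ⟨_, rfl⟩
  have hpos' : ∀ z, 0 ≤ B z z := fun z => by
    rw [hB]
    exact (hasSum_diag β hβ z z).nonneg fun i => hpos i _
  have hadd' := diagForm_add β hβ hadd
  have hsmul' := diagForm_smul β hβ hsmul
  have hsymm' := diagForm_symm β hsymm
  rw [← hB] at hadd' hsmul' hsymm'
  have key : ∀ t : ℝ, 0 ≤ B y y * (t * t) + (2 * B x y) * t + B x x := by
    intro t
    have h1 := hpos' (x + t • y)
    have h2 : B (x + t • y) (x + t • y) = B y y * (t * t) + (2 * B x y) * t + B x x := by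
      rw [hadd', hsmul', hsymm' x (x + t • y), hsymm' y (x + t • y), hadd', hadd', hsmul',
        hsmul', hsymm' y x]
      ring
    linarith
  have h3 := discrim_le_zero key
  have h4 : (B x y) ^ 2 ≤ B x x * B y y := by
    unfold discrim at h3
    nlinarith
  have h5 : B x x ≤ ‖x‖ ^ 2 := hB ▸ diagForm_self_le β hβ x
  have h6 : B y y ≤ ‖y‖ ^ 2 := hB ▸ diagForm_self_le β hβ y
  have h7 : (B x y) ^ 2 ≤ (‖x‖ * ‖y‖) ^ 2 := by
    calc (B x y) ^ 2 ≤ B x x * B y y := h4
      _ ≤ ‖x‖ ^ 2 * ‖y‖ ^ 2 := mul_le_mul h5 h6 (hpos' y) (by positivity)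
      _ = _ := by ring
  rw [← hB]
  exact abs_le_of_sq_le_sq h7 (by positivity)

end

end Pool.Agent.Lib.MP_4e4c79_lc.Complete
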