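import Mathlib
import Pool.Agent.Lib.MP_4e4c79_lc.LpTwo

/-!
The maps `(x, y) ↦ ∑_{(a,b) ∈ P} ‖x_a‖ ‖y_b‖ e_{(a,b),g(a,b)}` from an `ℓ²`-sum to a Hilbert space.
-/

namespace Pool.Agent.Lib.MP_4e4c79_lc.Complete

open scoped ENNReal
attribute [local instance] Classical.propDecidable
set_option linter.unusedSectionVars false

noncomputable section

section Push

variable {κ Λ : Type}

/-- Real `ℓ²`. -/
abbrev L2 (κ : Type) : Type := lp (fun _ : κ => ℝ) 2

lemma inj_graph (g : κ → Λ) : Function.Injective fun p => (p, g p) :=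
  fun _ _ h => congrArg Prod.fst h

lemma hasSum_graph (g : κ → Λ) (t : κ → ℝ) (s : ℝ) :
    HasSum (fun z : κ × Λ => if z.2 = g z.1 then t z.1 else 0) s ↔ HasSum t s := by
  rw [← (inj_graph g).hasSum_iff]
  · simp [Function.comp_def]
  · intro z hz
    rw [if_neg]
    rintro h
    exact hz ⟨z.1, by simp [← h]⟩

/-- Move coordinates to the graph of a function. -/
def push (g : κ → Λ) (t : L2 κ) : L2 (κ × Λ) :=
  mk2 (fun z => if z.2 = g z.1 then t z.1 else 0) (by
    have h := ((hasSum_graph g (fun p => ‖t p‖ ^ 2) _).2 (hasSum_sq t)).summable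
    refine h.congr fun z => ?_
    by_cases hz : z.2 = g z.1 <;> simp [hz])

@[simp] lemma push_apply (g : κ → Λ) (t : L2 κ) (z : κ × Λ) :
    push g t z = if z.2 = g z.1 then t z.1 else 0 := rfl

lemma push_sub (g : κ → Λ) (t t' : L2 κ) : push g (t - t') = push g t - push g t' := by
  ext z
  by_cases hz : z.2 = g z.1 <;> simp [hz]

lemma push_norm (g : κ → Λ) (t : L2 κ) : ‖push g t‖ = ‖t‖ := by
  have h : ‖push g t‖ ^ 2 = ‖t‖ ^ 2 := by
    refine (hasSum_sq (push g t)).unique ?_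
    have h := (hasSum_graph g (fun p => ‖t p‖ ^ 2) _).2 (hasSum_sq t)
    convert h using 2 with z
    by_cases hz : z.2 = g z.1 <;> simp [hz]
  exact (pow_left_inj₀ (norm_nonneg _) (norm_nonneg _) two_ne_zero).1 h

lemma push_inner (g g' : κ → Λ) (t t' : L2 κ) :
    HasSum (fun p => if g p = g' p then t p * t' p else 0) (inner ℝ (push g t) (push g' t')) := by
  have h := lp.hasSum_inner (𝕜 := ℝ) (push g t) (push g' t')
  rw [← hasSum_graph g]
  have h1 : (fun z : κ × Λ => inner ℝ (push g t z) (push g' t' z)) =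
      fun z => if z.2 = g z.1 then (if g z.1 = g' z.1 then t z.1 * t' z.1 else 0) else 0 := by
    funext z
    rw [push_apply, push_apply]
    by_cases hz : z.2 = g z.1
    · by_cases hz' : z.2 = g' z.1
      · rw [if_pos hz, if_pos hz', if_pos hz, if_pos (hz.symm.trans hz')]
        simp [mul_comm]
      · rw [if_pos hz, if_neg hz', if_pos hz, if_neg (fun h => hz' (hz.trans h))]
        simp
    · rw [if_neg hz, if_neg hz]
      simp
  rwa [h1] at h

lemma push_sub_sq (g g' : κ → Λ) (t : L2 κ) :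
    HasSum (fun p => if g p = g' p then 0 else 2 * t p ^ 2) (‖push g t - push g' t‖ ^ 2) := by
  have h1 := push_inner g g' t t
  have h2 := (hasSum_sq t)
  have h3 := (h2.mul_left 2).sub (h1.mul_left 2)
  have h4 : ‖push g t - push g' t‖ ^ 2 = 2 * ‖t‖ ^ 2 - 2 * inner ℝ (push g t) (push g' t) := by
    rw [@norm_sub_sq_real, push_norm, push_norm]
    ring
  rw [h4]
  have h5 : (fun p => if g p = g' p then 0 else 2 * t p ^ 2) =
      fun p => 2 * ‖t p‖ ^ 2 - 2 * (if g p = g' p then t p * t p else 0) := by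
    funext p
    rw [Real.norm_eq_abs, sq_abs]
    by_cases hp : g p = g' p
    · rw [if_pos hp, if_pos hp]; ring
    · rw [if_neg hp, if_neg hp]; ring
  rw [h5]
  exact h3

end Push

section Tens

variable {ι : Type} {G : ι → Type} [∀ i, NormedAddCommGroup (G i)]

/-- The sequence of norms. -/
def normSeq (x : lp G 2) : L2 ι := mk2 (fun i => ‖x i‖) (by simpa using summable_sq x)

@[simp] lemma normSeq_apply (x : lp G 2) (i : ι) : normSeq x i = ‖x i‖ := rfl

lemma normSeq_norm (x : lp G 2) : ‖normSeq x‖ = ‖x‖ := by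
  have h : ‖normSeq x‖ ^ 2 = ‖x‖ ^ 2 := by
    refine (hasSum_sq (normSeq x)).unique ?_
    simpa using hasSum_sq x
  exact (pow_left_inj₀ (norm_nonneg _) (norm_nonneg _) two_ne_zero).1 h

lemma normSeq_sub (x y : lp G 2) : ‖normSeq x - normSeq y‖ ≤ ‖x - y‖ := by
  refine norm_le_of_sq _ _ (norm_nonneg _) ?_
  refine hasSum_le (fun i => ?_) (summable_sq _).hasSum (hasSum_sq (x - y))
  have h := abs_norm_sub_norm_le (x i) (y i)
  have : ‖(normSeq x - normSeq y) i‖ = |‖x i‖ - ‖y i‖| := rfl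
  rw [this]
  exact pow_le_pow_left₀ (abs_nonneg _) h 2

lemma hasSum_mul_sq {ι' : Type} {G' : ι' → Type} [∀ i, NormedAddCommGroup (G' i)]
    (x : lp G 2) (y : lp G' 2) :
    HasSum (fun p : ι × ι' => ‖x p.1‖ ^ 2 * ‖y p.2‖ ^ 2) (‖x‖ ^ 2 * ‖y‖ ^ 2) := by
  have h : Summable fun p : ι × ι' => ‖x p.1‖ ^ 2 * ‖y p.2‖ ^ 2 :=
    (summable_sq x).mul_of_nonneg (summable_sq y) (fun i => sq_nonneg ‖x i‖)
      (fun i => sq_nonneg ‖y i‖)
  exact (hasSum_sq x).mul (hasSum_sq y) h

lemma summable_tens (P : Set (ι × ι)) (x y : L2 ι) :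
    Summable fun p : ι × ι => ‖if p ∈ P then x p.1 * y p.2 else 0‖ ^ 2 := by
  refine Summable.of_nonneg_of_le (fun i => sq_nonneg _) (fun p => ?_) (hasSum_mul_sq x y).summable
  by_cases hp : p ∈ P
  · rw [if_pos hp, norm_mul, mul_pow]
  · rw [if_neg hp, norm_zero, zero_pow two_ne_zero]; positivity

/-- The restricted tensor of two square summable sequences. -/
def tens (P : Set (ι × ι)) (x y : L2 ι) : L2 (ι × ι) :=
  mk2 (fun p => if p ∈ P then x p.1 * y p.2 else 0) (summable_tens P x y)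

@[simp] lemma tens_apply (P : Set (ι × ι)) (x y : L2 ι) (p : ι × ι) :
    tens P x y p = if p ∈ P then x p.1 * y p.2 else 0 := rfl

lemma tens_norm_le (P : Set (ι × ι)) (x y : L2 ι) : ‖tens P x y‖ ≤ ‖x‖ * ‖y‖ := by
  refine norm_le_of_sq _ _ (by positivity) ?_
  rw [mul_pow]
  refine hasSum_le (fun p => ?_) (summable_sq _).hasSum (hasSum_mul_sq x y)
  rw [tens_apply]
  by_cases hp : p ∈ P
  · rw [if_pos hp, norm_mul, mul_pow]
  · rw [if_neg hp, norm_zero, zero_pow two_ne_zero]; positivity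

lemma tens_sub_left (P : Set (ι × ι)) (x x' y : L2 ι) :
    tens P x y - tens P x' y = tens P (x - x') y := by
  ext p
  by_cases hp : p ∈ P <;> simp [hp]
  ring

lemma tens_sub_right (P : Set (ι × ι)) (x y y' : L2 ι) :
    tens P x y - tens P x y' = tens P x (y - y') := by
  ext p
  by_cases hp : p ∈ P <;> simp [hp]
  ring

variable {Λ : Type}

/-- The map `(x, y) ↦ ∑_{(a,b) ∈ P} ‖x_a‖ ‖y_b‖ e_{(a,b),g(a,b)}`. -/
def ff (P : Set (ι × ι)) (g : ι × ι → Λ) (x y : lp G 2) : L2 ((ι × ι) × Λ) :=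
  push g (tens P (normSeq x) (normSeq y))

lemma ff_apply (P : Set (ι × ι)) (g : ι × ι → Λ) (x y : lp G 2) (z : (ι × ι) × Λ) :
    ff P g x y z = if z.2 = g z.1 then (if z.1 ∈ P then ‖x z.1.1‖ * ‖y z.1.2‖ else 0) else 0 := rfl

lemma ff_norm_le (P : Set (ι × ι)) (g : ι × ι → Λ) (x y : lp G 2) :
    ‖ff P g x y‖ ≤ ‖x‖ * ‖y‖ := by
  rw [ff, push_norm]
  refine (tens_norm_le P _ _).trans_eq ?_
  rw [normSeq_norm, normSeq_norm]

lemma ff_lip (P : Set (ι × ι)) (g : ι × ι → Λ) (x y x' y' : lp G 2) :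
    ‖ff P g x y - ff P g x' y'‖ ≤ ‖x - x'‖ * ‖y‖ + ‖x'‖ * ‖y - y'‖ := by
  unfold ff
  rw [← push_sub, push_norm]
  have h : tens P (normSeq x) (normSeq y) - tens P (normSeq x') (normSeq y') =
      tens P (normSeq x - normSeq x') (normSeq y) +
        tens P (normSeq x') (normSeq y - normSeq y') := by
    rw [← tens_sub_left, ← tens_sub_right]
    abel
  rw [h]
  refine (norm_add_le _ _).trans (add_le_add ?_ ?_)
  · refine (tens_norm_le P _ _).trans ?_
    rw [normSeq_norm]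
    exact mul_le_mul_of_nonneg_right (normSeq_sub _ _) (norm_nonneg _)
  · refine (tens_norm_le P _ _).trans ?_
    rw [normSeq_norm]
    exact mul_le_mul_of_nonneg_left (normSeq_sub _ _) (norm_nonneg _)

variable [∀ i, NormedSpace ℝ (G i)]

/-- The maps for different `g` are far from each other. -/
lemma ff_sub_ge (P : Set (ι × ι)) (g g' : ι × ι → Λ) (S S' : Set ι)
    (hS : ∀ a ∈ S, ∀ b ∈ S', (a, b) ∈ P ∧ g (a, b) ≠ g' (a, b)) (x y : lp G 2) :
    2 * (‖mask S x‖ ^ 2 * ‖mask S' y‖ ^ 2) ≤ ‖ff P g x y - ff P g' x y‖ ^ 2 := by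
  have h1 := push_sub_sq g g' (tens P (normSeq x) (normSeq y))
  have h2 := hasSum_mul_sq (mask S x) (mask S' y)
  refine hasSum_le (fun p => ?_) (h2.mul_left 2) h1
  obtain ⟨a, b⟩ := p
  rw [mask_apply, mask_apply, tens_apply, normSeq_apply, normSeq_apply]
  have h0 : (0 : ℝ) ≤ (if g (a, b) = g' (a, b) then (0 : ℝ) else
      2 * (if (a, b) ∈ P then ‖x a‖ * ‖y b‖ else 0) ^ 2) := by
    split_ifs <;> positivity
  by_cases ha : a ∈ S
  · by_cases hb : b ∈ S'
    · obtain ⟨h3, h4⟩ := hS a ha b hb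
      rw [if_pos ha, if_pos hb, if_neg h4, if_pos h3, mul_pow]
    · rw [if_neg hb, norm_zero, zero_pow two_ne_zero, mul_zero, mul_zero]
      exact h0
  · rw [if_neg ha, norm_zero, zero_pow two_ne_zero, zero_mul, mul_zero]
    exact h0

end Tens

end

end Pool.Agent.Lib.MP_4e4c79_lc.Complete
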