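import Mathlib
import Pool.Agent.Lib.MP_4e4c79_lc.Basic
import Pool.Agent.Lib.MP_4e4c79_lc.Tens

/-!
The structures built from countable families of blocks `ℓ_∞^{m+2}(H)`, `H` a Hilbert space.
-/

namespace Pool.Agent.Lib.MP_4e4c79_lc.Complete

open Pool.Agent.Lib.MP_4e4c79_lc Finset
open scoped ENNReal
attribute [local instance] Classical.propDecidable
set_option linter.unusedSectionVars false

noncomputable section

/-- The Hilbert space of dimension `s ≤ ∞`. -/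
abbrev Hs (s : ℕ∞) : Type := lp (fun _ : {j : ℕ // (j : ℕ∞) < s} => ℝ) 2

/-- The unit vector number `l` of `Hs s`, if `l < s`, and `0` otherwise. -/
def hb (s : ℕ∞) (l : ℕ) : Hs s :=
  if h : (l : ℕ∞) < s then lp.single 2 (⟨l, h⟩ : {j : ℕ // (j : ℕ∞) < s}) (1 : ℝ) else 0

/-- The block with `m + 2` components in the Hilbert space of dimension `s`, with the sup norm. -/
abbrev BT (m : ℕ) (s : ℕ∞) : Type := Fin (m + 2) → Hs s

/-- A countable family of blocks, containing exactly one block with `n + 2` components of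
dimension `i`, for all `n`, `i`. -/
structure Dat where
  /-- indices of the blocks -/
  A : Type
  cnt : Countable A
  /-- a block has `kd a + 2` components -/
  kd : A → ℕ
  /-- dimension of the components -/
  sz : A → ℕ∞
  /-- the block with `n + 2` components of dimension `i` -/
  st : ℕ → ℕ → A
  kd_st : ∀ n i, kd (st n i) = n
  sz_st : ∀ n i, sz (st n i) = i
  uniq : ∀ a (i : ℕ), sz a = i → a = st (kd a) i
  fin : ∀ a b, kd a ≠ kd b → min (sz a) (sz b) < ⊤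

/-- Initial segment of a binary sequence. -/
def str (r : ℕ → Bool) (m : ℕ) : List Bool := (List.range m).map r

lemma str_eq_iff (r s : ℕ → Bool) (m : ℕ) : str r m = str s m ↔ ∀ i < m, r i = s i := by
  unfold str
  rw [List.map_inj_left]
  simp

/-- The symbols: constants, projections, maps. -/
inductive Sym : Type
  | e (n i s l : ℕ) : Sym
  | T (n k : ℕ) : Sym
  | f (r : ℕ → Bool) : Sym

/-- The signature. -/
def sig : Signature where
  Fn := Sym
  fnArity := fun g => match g with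
    | .e _ _ _ _ => 0
    | .T _ _ => 1
    | .f _ => 2
  fnBound := fun g R => match g with
    | .e _ _ _ _ => 1
    | .T _ _ => R
    | .f _ => (R : ℝ) * R
  fnMod := fun g R ε => match g with
    | .e _ _ _ _ => 1
    | .T _ _ => ε
    | .f _ => ε / (2 * R + 1)
  fnMod_pos := fun g R ε hε => by
    cases g with
    | e => exact one_pos
    | T => exact hε
    | f => change 0 < ε / (2 * (R : ℝ) + 1); positivity
  Rel := Unit
  relArity := fun _ => 2
  relBound := fun _ R => (R : ℝ) * R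
  relMod := fun _ R ε => ε / (2 * R + 1)
  relMod_pos := fun _ R ε hε => by positivity

namespace Dat

variable (D : Dat)

/-- The sum of the blocks. -/
abbrev W : Type := lp (fun a : D.A => BT (D.kd a) (D.sz a)) 2

/-- The Hilbert space part. -/
abbrev Y : Type := L2 ((D.A × D.A) × List Bool)

/-- The underlying space. -/
abbrev X : Type := WithLp 2 (D.W × D.Y)

/-- The form on a block. -/
def bf (a : D.A) (x y : BT (D.kd a) (D.sz a)) : ℝ :=
  ((D.kd a : ℝ) + 2)⁻¹ * ∑ s, inner ℝ (x s) (y s)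

lemma bf_abs_le (a : D.A) (x y : BT (D.kd a) (D.sz a)) : |D.bf a x y| ≤ ‖x‖ * ‖y‖ := by
  unfold bf
  have hpos : (0 : ℝ) < (D.kd a : ℝ) + 2 := by positivity
  rw [abs_mul, abs_of_pos (inv_pos.2 hpos), inv_mul_le_iff₀ hpos]
  refine (abs_sum_le_sum_abs _ _).trans ?_
  have h : ∀ s ∈ (univ : Finset (Fin (D.kd a + 2))), |inner ℝ (x s) (y s)| ≤ ‖x‖ * ‖y‖ := fun s _ =>
    (abs_real_inner_le_norm _ _).trans (mul_le_mul (norm_le_pi_norm x s) (norm_le_pi_norm y s)
      (norm_nonneg _) (norm_nonneg _))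
  refine (sum_le_sum h).trans_eq ?_
  simp

lemma bf_add (a : D.A) (x y z : BT (D.kd a) (D.sz a)) :
    D.bf a (x + y) z = D.bf a x z + D.bf a y z := by
  unfold bf
  rw [← mul_add, ← sum_add_distrib]
  congr 1
  exact sum_congr rfl fun s _ => by rw [Pi.add_apply, inner_add_left]

lemma bf_smul (a : D.A) (c : ℝ) (x y : BT (D.kd a) (D.sz a)) :
    D.bf a (c • x) y = c * D.bf a x y := by
  unfold bf
  have h : ∑ s, inner ℝ ((c • x) s) (y s) = c * ∑ s, inner ℝ (x s) (y s) := by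
    rw [mul_sum]
    exact sum_congr rfl fun s _ => by rw [Pi.smul_apply, real_inner_smul_left]
  rw [h]
  ring

lemma bf_symm (a : D.A) (x y : BT (D.kd a) (D.sz a)) : D.bf a x y = D.bf a y x := by
  unfold bf
  congr 1
  exact sum_congr rfl fun s _ => real_inner_comm _ _

lemma bf_self (a : D.A) (x : BT (D.kd a) (D.sz a)) :
    ((D.kd a : ℝ) + 2)⁻¹ * ‖x‖ ^ 2 ≤ D.bf a x x := by
  unfold bf
  have hpos : (0 : ℝ) < (D.kd a : ℝ) + 2 := by positivity
  refine mul_le_mul_of_nonneg_left ?_ (inv_pos.2 hpos).le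
  have h : ∀ s, ‖x s‖ ^ 2 ≤ ∑ s, inner ℝ (x s) (x s) := fun s => by
    rw [← real_inner_self_eq_norm_sq]
    exact single_le_sum (f := fun s => inner ℝ (x s) (x s)) (fun s _ => real_inner_self_nonneg)
      (mem_univ s)
  have h0 : 0 ≤ ∑ s, inner ℝ (x s) (x s) := sum_nonneg fun s _ => real_inner_self_nonneg
  have h1 : ‖x‖ ≤ √(∑ s, inner ℝ (x s) (x s)) := by
    rw [pi_norm_le_iff_of_nonneg (Real.sqrt_nonneg _)]
    intro s
    exact Real.le_sqrt_of_sq_le (h s)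
  calc ‖x‖ ^ 2 ≤ (√(∑ s, inner ℝ (x s) (x s))) ^ 2 := pow_le_pow_left₀ (norm_nonneg _) h1 2
    _ = _ := Real.sq_sqrt h0

lemma bf_nonneg (a : D.A) (x : BT (D.kd a) (D.sz a)) : 0 ≤ D.bf a x x :=
  le_trans (by positivity) (D.bf_self a x)

/-- The form. -/
def B (x y : D.X) : ℝ := diagForm D.bf x.fst y.fst + inner ℝ x.snd y.snd

lemma B_add (x y z : D.X) : D.B (x + y) z = D.B x z + D.B y z := by
  unfold B
  rw [WithLp.add_fst, WithLp.add_snd, diagForm_add D.bf D.bf_abs_le D.bf_add, inner_add_left]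
  ring

lemma B_smul (c : ℝ) (x y : D.X) : D.B (c • x) y = c * D.B x y := by
  unfold B
  rw [WithLp.smul_fst, WithLp.smul_snd, diagForm_smul D.bf D.bf_abs_le D.bf_smul,
    real_inner_smul_left]
  ring

lemma B_symm (x y : D.X) : D.B x y = D.B y x := by
  unfold B
  rw [diagForm_symm D.bf D.bf_symm, real_inner_comm]

lemma X_norm_sq (x : D.X) : ‖x‖ ^ 2 = ‖x.fst‖ ^ 2 + ‖x.snd‖ ^ 2 :=
  WithLp.prod_norm_sq_eq_of_L2 x

lemma fst_le (x : D.X) : ‖x.fst‖ ≤ ‖x‖ :=
  le_of_sq_le_sq (by rw [D.X_norm_sq]; nlinarith [sq_nonneg ‖x.snd‖]) (norm_nonneg _)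

lemma snd_le (x : D.X) : ‖x.snd‖ ≤ ‖x‖ :=
  le_of_sq_le_sq (by rw [D.X_norm_sq]; nlinarith [sq_nonneg ‖x.fst‖]) (norm_nonneg _)

lemma B_abs_le (x y : D.X) : |D.B x y| ≤ ‖x‖ * ‖y‖ := by
  unfold B
  have h1 := diagForm_abs_le D.bf D.bf_abs_le D.bf_add D.bf_smul D.bf_symm D.bf_nonneg
    x.fst y.fst
  have h2 := abs_real_inner_le_norm x.snd y.snd
  refine (abs_add_le _ _).trans ((add_le_add h1 h2).trans ?_)
  have h3 := D.X_norm_sq x
  have h4 := D.X_norm_sq y
  refine le_of_sq_le_sq ?_ (by positivity)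
  rw [mul_pow, h3, h4]
  nlinarith [sq_nonneg (‖x.fst‖ * ‖y.snd‖ - ‖x.snd‖ * ‖y.fst‖)]

lemma B_self_le (x : D.X) : D.B x x ≤ ‖x‖ ^ 2 := by
  have := (le_abs_self _).trans (D.B_abs_le x x)
  nlinarith

/-- The constants. -/
def ec (n i s l : ℕ) : D.X :=
  WithLp.toLp 2 (lp.single 2 (D.st n i) (fun c => if (c : ℕ) = s then hb _ l else 0), 0)

lemma hb_norm_le (s : ℕ∞) (l : ℕ) : ‖hb s l‖ ≤ 1 := by
  unfold hb
  split_ifs with h
  · rw [lp.norm_single (by norm_num)]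
    simp
  · simp

lemma toLp_zero_right_norm (w : D.W) : ‖(WithLp.toLp 2 (w, 0) : D.X)‖ = ‖w‖ := by
  have h : ‖(WithLp.toLp 2 (w, 0) : D.X)‖ ^ 2 = ‖w‖ ^ 2 + ‖(0 : D.Y)‖ ^ 2 :=
    D.X_norm_sq (WithLp.toLp 2 (w, 0))
  rw [norm_zero, zero_pow two_ne_zero, add_zero] at h
  exact (pow_left_inj₀ (norm_nonneg _) (norm_nonneg _) two_ne_zero).1 h

lemma toLp_zero_left_norm (y : D.Y) : ‖(WithLp.toLp 2 (0, y) : D.X)‖ = ‖y‖ := by
  have h : ‖(WithLp.toLp 2 (0, y) : D.X)‖ ^ 2 = ‖(0 : D.W)‖ ^ 2 + ‖y‖ ^ 2 :=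
    D.X_norm_sq (WithLp.toLp 2 (0, y))
  rw [norm_zero, zero_pow two_ne_zero, zero_add] at h
  exact (pow_left_inj₀ (norm_nonneg _) (norm_nonneg _) two_ne_zero).1 h

lemma ec_norm_le (n i s l : ℕ) : ‖D.ec n i s l‖ ≤ 1 := by
  unfold ec
  rw [toLp_zero_right_norm, lp.norm_single (by norm_num), pi_norm_le_iff_of_nonneg zero_le_one]
  intro c
  split_ifs
  · exact hb_norm_le _ _
  · simp

/-- The blocks with more than `n + 2` components, or with `n + 2` components of dimension at least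
`k`. -/
def TS (n k : ℕ) : Set D.A := {a | n < D.kd a ∨ (D.kd a = n ∧ (k : ℕ∞) ≤ D.sz a)}

/-- The projections. -/
def TT (n k : ℕ) (x : D.X) : D.X := WithLp.toLp 2 (mask (D.TS n k) x.fst, 0)

lemma TT_add (n k : ℕ) (x y : D.X) : D.TT n k (x + y) = D.TT n k x + D.TT n k y := by
  unfold TT
  rw [WithLp.add_fst, map_add, ← WithLp.toLp_add, Prod.mk_add_mk, add_zero]

lemma TT_smul (n k : ℕ) (c : ℝ) (x : D.X) : D.TT n k (c • x) = c • D.TT n k x := by
  unfold TT
  rw [WithLp.smul_fst, map_smul, ← WithLp.toLp_smul, Prod.smul_mk, smul_zero]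

lemma TT_norm_le (n k : ℕ) (x : D.X) : ‖D.TT n k x‖ ≤ ‖x‖ := by
  unfold TT
  rw [toLp_zero_right_norm]
  exact (mask_norm_le _ _).trans (D.fst_le x)

/-- The pairs of blocks with different numbers of components. -/
def PP : Set (D.A × D.A) := {p | D.kd p.1 ≠ D.kd p.2}

/-- The length of the label attached to a pair of blocks. -/
def uu (p : D.A × D.A) : ℕ := (min (D.sz p.1) (D.sz p.2)).toNat + D.kd p.1 + D.kd p.2

/-- The maps. -/
def FF (r : ℕ → Bool) (x y : D.X) : D.X :=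
  WithLp.toLp 2 (0, ff D.PP (fun p => str r (D.uu p)) x.fst y.fst)

lemma FF_norm_le (r : ℕ → Bool) (x y : D.X) : ‖D.FF r x y‖ ≤ ‖x‖ * ‖y‖ := by
  unfold FF
  rw [toLp_zero_left_norm]
  exact (ff_norm_le _ _ _ _).trans (mul_le_mul (D.fst_le x) (D.fst_le y) (norm_nonneg _)
    (norm_nonneg _))

lemma FF_lip (r : ℕ → Bool) (x y x' y' : D.X) :
    ‖D.FF r x y - D.FF r x' y'‖ ≤ ‖x - x'‖ * ‖y‖ + ‖x'‖ * ‖y - y'‖ := by
  unfold FF
  rw [← WithLp.toLp_sub, Prod.mk_sub_mk, sub_zero, toLp_zero_left_norm]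
  refine (ff_lip _ _ _ _ _ _).trans ?_
  have h1 : ‖x.fst - x'.fst‖ ≤ ‖x - x'‖ := D.fst_le (x - x')
  have h2 : ‖y.fst - y'.fst‖ ≤ ‖y - y'‖ := D.fst_le (y - y')
  exact add_le_add (mul_le_mul h1 (D.fst_le y) (norm_nonneg _) (norm_nonneg _))
    (mul_le_mul (D.fst_le x') h2 (norm_nonneg _) (norm_nonneg _))

lemma two_mul_bound {R ε a b : ℝ} (hR : 0 ≤ R) (hε : 0 < ε) (_ha : 0 ≤ a) (_hb : 0 ≤ b)
    (ha' : a < ε / (2 * R + 1)) (hb' : b < ε / (2 * R + 1)) : a * R + R * b ≤ ε := by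
  have h1 : a * R + R * b ≤ (ε / (2 * R + 1)) * R + R * (ε / (2 * R + 1)) := by gcongr
  have h2 : (ε / (2 * R + 1)) * R + R * (ε / (2 * R + 1)) = ε * (2 * R / (2 * R + 1)) := by
    field_simp; ring
  have h3 : 2 * R / (2 * R + 1) ≤ 1 := by
    rw [div_le_one (by positivity)]; linarith
  nlinarith

/-- The structure. -/
def str (D : Dat) : Struc sig where
  carrier := D.X
  fn := fun g => match g with
    | .e n i s l => fun _ => D.ec n i s l
    | .T n k => fun x => D.TT n k (x (0 : Fin 1))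
    | .f r => fun x => D.FF r (x (0 : Fin 2)) (x (1 : Fin 2))
  rel := fun _ x => D.B (x (0 : Fin 2)) (x (1 : Fin 2))
  fn_bound := fun g R x hx => by
    cases g with
    | e n i s l => exact D.ec_norm_le n i s l
    | T n k => exact (D.TT_norm_le n k _).trans (hx (0 : Fin 1))
    | f r =>
      exact (D.FF_norm_le r _ _).trans (mul_le_mul (hx (0 : Fin 2)) (hx (1 : Fin 2))
        (norm_nonneg _) (Nat.cast_nonneg _))
  fn_uc := fun g R ε hε x y hx hy hxy => by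
    cases g with
    | e n i s l =>
      change ‖D.ec n i s l - D.ec n i s l‖ ≤ ε
      rw [sub_self, norm_zero]
      exact hε.le
    | T n k =>
      change ‖D.TT n k (x (0 : Fin 1)) - D.TT n k (y (0 : Fin 1))‖ ≤ ε
      have h : D.TT n k (x (0 : Fin 1)) - D.TT n k (y (0 : Fin 1)) =
          D.TT n k (x (0 : Fin 1) - y (0 : Fin 1)) := by
        have h1 := D.TT_add n k (x (0 : Fin 1) - y (0 : Fin 1)) (y (0 : Fin 1))
        rw [sub_add_cancel] at h1
        rw [h1]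
        abel
      rw [h]
      exact (D.TT_norm_le n k _).trans (hxy (0 : Fin 1)).le
    | f r =>
      change ‖D.FF r (x (0 : Fin 2)) (x (1 : Fin 2)) - D.FF r (y (0 : Fin 2)) (y (1 : Fin 2))‖ ≤ ε
      refine (D.FF_lip r _ _ _ _).trans ?_
      have h0 : ‖x (0 : Fin 2) - y (0 : Fin 2)‖ < ε / (2 * R + 1) := hxy (0 : Fin 2)
      have h1 : ‖x (1 : Fin 2) - y (1 : Fin 2)‖ < ε / (2 * R + 1) := hxy (1 : Fin 2)
      have h2 : ‖x (1 : Fin 2)‖ ≤ R := hx (1 : Fin 2)
      have h3 : ‖y (0 : Fin 2)‖ ≤ R := hy (0 : Fin 2)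
      refine le_trans ?_ (two_mul_bound (Nat.cast_nonneg R) hε (norm_nonneg _) (norm_nonneg _)
        h0 h1)
      exact add_le_add (mul_le_mul_of_nonneg_left h2 (norm_nonneg _))
        (mul_le_mul_of_nonneg_right h3 (norm_nonneg _))
  rel_bound := fun _ R x hx =>
    (D.B_abs_le _ _).trans (mul_le_mul (hx (0 : Fin 2)) (hx (1 : Fin 2))
        (norm_nonneg _) (Nat.cast_nonneg _))
  rel_uc := fun _ R ε hε x y hx hy hxy => by
    have h0 : ‖x (0 : Fin 2) - y (0 : Fin 2)‖ < ε / (2 * R + 1) := hxy (0 : Fin 2)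
    have h1 : ‖x (1 : Fin 2) - y (1 : Fin 2)‖ < ε / (2 * R + 1) := hxy (1 : Fin 2)
    have h2 : ‖x (1 : Fin 2)‖ ≤ R := hx (1 : Fin 2)
    have h3 : ‖y (0 : Fin 2)‖ ≤ R := hy (0 : Fin 2)
    have h4 : D.B (x (0 : Fin 2)) (x (1 : Fin 2)) - D.B (y (0 : Fin 2)) (y (1 : Fin 2)) =
        D.B (x (0 : Fin 2) - y (0 : Fin 2)) (x (1 : Fin 2)) +
          D.B (y (0 : Fin 2)) (x (1 : Fin 2) - y (1 : Fin 2)) := by
      have h5 := D.B_add (x (0 : Fin 2) - y (0 : Fin 2)) (y (0 : Fin 2)) (x (1 : Fin 2))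
      rw [sub_add_cancel] at h5
      have h6 := D.B_add (x (1 : Fin 2) - y (1 : Fin 2)) (y (1 : Fin 2)) (y (0 : Fin 2))
      rw [sub_add_cancel] at h6
      rw [h5, D.B_symm (y (0 : Fin 2)) (x (1 : Fin 2)), h6, D.B_symm (y (0 : Fin 2)) (y (1 : Fin 2)),
        D.B_symm (y (0 : Fin 2)) (x (1 : Fin 2) - y (1 : Fin 2))]
      ring
    rw [h4]
    refine (abs_add_le _ _).trans ?_
    refine le_trans ?_ (two_mul_bound (Nat.cast_nonneg R) hε (norm_nonneg _) (norm_nonneg _)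
      h0 h1)
    exact add_le_add ((D.B_abs_le _ _).trans (mul_le_mul_of_nonneg_left h2 (norm_nonneg _)))
      ((D.B_abs_le _ _).trans (mul_le_mul_of_nonneg_right h3 (norm_nonneg _)))

end Dat

end

end Pool.Agent.Lib.MP_4e4c79_lc.Complete
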