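import Mathlib
import Pool.Agent.Lib.MP_4e4c79_lc.Build

/-!
Identities and inequalities which hold in the structures `D.str`.
-/

namespace Pool.Agent.Lib.MP_4e4c79_lc.Complete

open Pool.Agent.Lib.MP_4e4c79_lc Finset
open scoped ENNReal
attribute [local instance] Classical.propDecidable
set_option linter.unusedSectionVars false

noncomputable section

lemma inner_hb (s : ℕ∞) (x : Hs s) (l : ℕ) :
    inner ℝ x (hb s l) = if h : (l : ℕ∞) < s then x ⟨l, h⟩ else 0 := by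
  unfold hb
  split_ifs with h
  · rw [real_inner_comm, lp.inner_single_left]
    simp
  · simp

lemma hb_inner (s : ℕ∞) (k l : ℕ) (hk : (k : ℕ∞) < s) :
    inner ℝ (hb s k) (hb s l) = if k = l then (1 : ℝ) else 0 := by
  rw [inner_hb]
  split_ifs with h h' h'
  · subst h'
    simp [hb, h]
  · rw [hb, dif_pos hk, lp.single_apply_ne]
    intro hc
    exact h' (congrArg Subtype.val hc).symm
  · subst h'
    exact absurd hk h
  · rfl

lemma hb_norm (s : ℕ∞) (l : ℕ) (h : (l : ℕ∞) < s) : ‖hb s l‖ = 1 := by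
  have h1 := hb_inner s l l h
  rw [if_pos rfl, real_inner_self_eq_norm_sq] at h1
  nlinarith [norm_nonneg (hb s l)]

lemma Hs_ext {s : ℕ∞} {x y : Hs s} (h : ∀ l : ℕ, inner ℝ x (hb s l) = inner ℝ y (hb s l)) :
    x = y := by
  ext ⟨j, hj⟩
  have := h j
  rwa [inner_hb, inner_hb, dif_pos hj, dif_pos hj] at this

lemma Hs_expand (i : ℕ) (x : Hs i) : x = ∑ l ∈ range i, (inner ℝ x (hb i l) : ℝ) • hb i l := by
  apply Hs_ext
  intro l
  rw [sum_inner]
  by_cases hl : l < i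
  · rw [sum_eq_single_of_mem l (mem_range.2 hl)]
    · rw [real_inner_smul_left, hb_inner _ _ _ (by exact_mod_cast hl), if_pos rfl, mul_one]
    · intro k hk hkl
      rw [real_inner_smul_left, hb_inner _ _ _ (by exact_mod_cast mem_range.1 hk), if_neg hkl,
        mul_zero]
  · have h0 : hb i l = 0 := by
      unfold hb
      rw [dif_neg (by exact_mod_cast hl)]
    rw [h0]
    simp

namespace Dat

variable (D : Dat)

lemma X_ext {x y : D.X} (h1 : x.fst = y.fst) (h2 : x.snd = y.snd) : x = y :=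
  (WithLp.equiv 2 _).injective (Prod.ext h1 h2)

lemma fst_mk (w : D.W) (y : D.Y) : (WithLp.toLp 2 (w, y) : D.X).fst = w := rfl

lemma snd_mk (w : D.W) (y : D.Y) : (WithLp.toLp 2 (w, y) : D.X).snd = y := rfl

/-- The restriction to a set of blocks. -/
def M (S : Set D.A) (x : D.X) : D.X := WithLp.toLp 2 (mask S x.fst, 0)

lemma M_fst (S : Set D.A) (x : D.X) : (D.M S x).fst = mask S x.fst := rfl

lemma M_snd (S : Set D.A) (x : D.X) : (D.M S x).snd = 0 := rfl

lemma M_norm (S : Set D.A) (x : D.X) : ‖D.M S x‖ = ‖mask S x.fst‖ := D.toLp_zero_right_norm _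

lemma TT_eq (n k : ℕ) (x : D.X) : D.TT n k x = D.M (D.TS n k) x := rfl

lemma M_M (S S' : Set D.A) (x : D.X) : D.M S (D.M S' x) = D.M (S ∩ S') x := by
  apply D.X_ext
  · rw [M_fst, M_fst, M_fst, mask_mask]
  · rw [M_snd, M_snd]

lemma M_sub {S S' : Set D.A} (h : S' ⊆ S) (x : D.X) : D.M S x - D.M S' x = D.M (S \ S') x := by
  apply D.X_ext
  · rw [WithLp.sub_fst, M_fst, M_fst, M_fst]
    ext a
    rw [lp.coeFn_sub, Pi.sub_apply, mask_apply, mask_apply, mask_apply]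
    by_cases h1 : a ∈ S'
    · have h2 : a ∈ S := h h1
      have h3 : a ∉ S \ S' := fun h => h.2 h1
      rw [if_pos h2, if_pos h1, if_neg h3, sub_self]
    · by_cases h2 : a ∈ S
      · have h3 : a ∈ S \ S' := ⟨h2, h1⟩
        rw [if_pos h2, if_neg h1, if_pos h3, sub_zero]
      · have h3 : a ∉ S \ S' := fun h => h2 h.1
        rw [if_neg h2, if_neg h1, if_neg h3, sub_zero]
  · rw [WithLp.sub_snd, M_snd, M_snd, M_snd, sub_zero]

lemma M_pyth (S : Set D.A) (x : D.X) : ‖x‖ ^ 2 = ‖x - D.M S x‖ ^ 2 + ‖D.M S x‖ ^ 2 := by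
  rw [M_norm, X_norm_sq, X_norm_sq, mask_pyth S x.fst, WithLp.sub_fst, WithLp.sub_snd, M_fst,
    M_snd, sub_zero]
  ring

lemma TS_subset {n k n' k' : ℕ} (h : n < n' ∨ (n = n' ∧ k ≤ k')) : D.TS n' k' ⊆ D.TS n k := by
  rintro a (ha | ⟨ha, hk⟩)
  · rcases h with h | ⟨h, _⟩
    · exact Or.inl (h.trans ha)
    · exact Or.inl (h ▸ ha)
  · rcases h with h | ⟨h, h'⟩
    · exact Or.inl (ha ▸ h)
    · exact Or.inr ⟨ha.trans h.symm, le_trans (by exact_mod_cast h') hk⟩

lemma TT_TT {n k n' k' : ℕ} (h : n < n' ∨ (n = n' ∧ k ≤ k')) (x : D.X) :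
    D.TT n k (D.TT n' k' x) = D.TT n' k' x := by
  rw [TT_eq, TT_eq, M_M, Set.inter_eq_self_of_subset_right (D.TS_subset h)]

lemma TT_TT' {n k n' k' : ℕ} (h : n < n' ∨ (n = n' ∧ k ≤ k')) (x : D.X) :
    D.TT n' k' (D.TT n k x) = D.TT n' k' x := by
  rw [TT_eq, TT_eq, M_M, Set.inter_eq_self_of_subset_left (D.TS_subset h), TT_eq]

lemma TT_pyth (n k : ℕ) (x : D.X) : ‖x‖ ^ 2 = ‖x - D.TT n k x‖ ^ 2 + ‖D.TT n k x‖ ^ 2 :=
  D.M_pyth _ x

/-- The projection to the block with `n + 2` components of dimension `i`. -/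
def pp (n i : ℕ) (x : D.X) : D.X := D.TT n i x - D.TT n (i + 1) x

lemma pp_eq (n i : ℕ) (x : D.X) : D.pp n i x = D.M {D.st n i} x := by
  unfold pp
  rw [TT_eq, TT_eq, M_sub D (D.TS_subset (Or.inr ⟨rfl, Nat.le_succ i⟩))]
  congr 1
  ext a
  simp only [TS, Set.mem_sdiff, Set.mem_ofPred_eq, Set.mem_singleton_iff, not_or, not_lt, not_and,
    not_le]
  constructor
  · rintro ⟨h1 | ⟨h1, h2⟩, h3, h4⟩
    · exact absurd h1 (not_lt.2 h3)
    · have h5 := h4 h1
      have h6 : D.sz a = i := by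
        refine le_antisymm ?_ h2
        have : D.sz a < (i : ℕ∞) + 1 := by exact_mod_cast h5
        exact Order.le_of_lt_add_one this
      rw [← h1]
      exact D.uniq a i h6
  · rintro rfl
    refine ⟨Or.inr ⟨D.kd_st n i, (D.sz_st n i).symm.le⟩, (D.kd_st n i).le, fun _ => ?_⟩
    rw [D.sz_st]
    exact_mod_cast Nat.lt_succ_self i

lemma ec_fst_self (n i s l : ℕ) (c : Fin (D.kd (D.st n i) + 2)) :
    (D.ec n i s l).fst (D.st n i) c = if (c : ℕ) = s then hb (D.sz (D.st n i)) l else 0 := by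
  unfold ec
  rw [fst_mk, lp.single_apply_self]

lemma ec_fst_ne (n i s l : ℕ) {a : D.A} (ha : a ≠ D.st n i) : (D.ec n i s l).fst a = 0 := by
  unfold ec
  rw [fst_mk, lp.single_apply_ne _ _ _ ha]

lemma ec_snd (n i s l : ℕ) : (D.ec n i s l).snd = 0 := rfl

lemma bf_zero (a : D.A) (x : BT (D.kd a) (D.sz a)) : D.bf a x 0 = 0 := by
  rw [bf_symm]
  have h := D.bf_smul a 0 0 x
  rwa [zero_smul, zero_mul] at h

lemma B_ec (n i s l : ℕ) (x : D.X) (hs : s < n + 2) :
    ((n : ℝ) + 2) * D.B x (D.ec n i s l) =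
      inner ℝ (x.fst (D.st n i) ⟨s, by rw [D.kd_st]; exact hs⟩) (hb (D.sz (D.st n i)) l) := by
  unfold B
  rw [ec_snd, inner_zero_right, add_zero]
  unfold diagForm
  rw [tsum_eq_single (D.st n i)]
  · unfold bf
    rw [sum_eq_single_of_mem (⟨s, by rw [D.kd_st]; exact hs⟩ : Fin (D.kd (D.st n i) + 2))
      (mem_univ _)]
    · have hk : ((D.kd (D.st n i) : ℝ) + 2)⁻¹ = ((n : ℝ) + 2)⁻¹ := by rw [D.kd_st]
      rw [ec_fst_self, if_pos rfl, hk, ← mul_assoc, mul_inv_cancel₀ (by positivity), one_mul]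
    · intro c _ hc
      rw [ec_fst_self, if_neg, inner_zero_right]
      intro h
      exact hc (Fin.ext h)
  · intro a ha
    rw [ec_fst_ne _ _ _ _ _ ha, bf_zero]

/-- Evaluation of a component. -/
def ev (a : D.A) (c : Fin (D.kd a + 2)) : D.X →ₗ[ℝ] Hs (D.sz a) where
  toFun x := x.fst a c
  map_add' _ _ := rfl
  map_smul' _ _ := rfl

lemma ev_apply (a : D.A) (c : Fin (D.kd a + 2)) (x : D.X) : D.ev a c x = x.fst a c := rfl

/-- The second projection as a linear map. -/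
def sndL : D.X →ₗ[ℝ] D.Y where
  toFun x := x.snd
  map_add' _ _ := rfl
  map_smul' _ _ := rfl

lemma sndL_apply (x : D.X) : D.sndL x = x.snd := rfl

lemma ev_ext {x y : D.X} (h1 : ∀ a c, D.ev a c x = D.ev a c y) (h2 : D.sndL x = D.sndL y) :
    x = y := by
  apply D.X_ext
  · apply lp.ext
    funext a
    funext c
    exact h1 a c
  · exact h2

lemma ev_M (S : Set D.A) (a : D.A) (c : Fin (D.kd a + 2)) (x : D.X) :
    D.ev a c (D.M S x) = if a ∈ S then D.ev a c x else 0 := by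
  rw [ev_apply, M_fst, mask_apply]
  by_cases h : a ∈ S
  · rw [if_pos h, if_pos h, ev_apply]
  · rw [if_neg h, if_neg h]
    rfl

lemma ev_ec_self (n i s l : ℕ) (c : Fin (D.kd (D.st n i) + 2)) :
    D.ev (D.st n i) c (D.ec n i s l) = if (c : ℕ) = s then hb (D.sz (D.st n i)) l else 0 :=
  D.ec_fst_self n i s l c

lemma ev_ec_ne (n i s l : ℕ) {a : D.A} (ha : a ≠ D.st n i) (c : Fin (D.kd a + 2)) :
    D.ev a c (D.ec n i s l) = 0 := by
  rw [ev_apply, ec_fst_ne _ _ _ _ _ ha]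
  rfl

lemma Hs_expand' (t : ℕ∞) (i : ℕ) (ht : t = i) (y : Hs t) :
    ∑ l ∈ range i, (inner ℝ y (hb t l) : ℝ) • hb t l = y := by
  subst ht
  exact (Hs_expand i y).symm

/-- The projection to a block with finitely many coordinates in terms of the form. -/
lemma pp_expand (n i : ℕ) (x : D.X) :
    D.pp n i x = ∑ s ∈ range (n + 2), ∑ l ∈ range i,
      (((n : ℝ) + 2) * D.B x (D.ec n i s l)) • D.ec n i s l := by
  rw [pp_eq]
  apply D.ev_ext
  · intro a c
    rw [ev_M, map_sum]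
    by_cases ha : a = D.st n i
    · subst ha
      rw [if_pos (Set.mem_singleton _)]
      have hc : (c : ℕ) ∈ range (n + 2) := by
        rw [mem_range]
        exact lt_of_lt_of_eq c.2 (by rw [D.kd_st])
      rw [sum_eq_single_of_mem (c : ℕ) hc]
      · rw [map_sum, ← Hs_expand' _ i (D.sz_st n i) (D.ev (D.st n i) c x)]
        refine sum_congr rfl fun l _ => ?_
        rw [map_smul, ev_ec_self, if_pos rfl, B_ec _ _ _ _ _ _ (mem_range.1 hc), ev_apply]
      · intro s _ hs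
        rw [map_sum]
        refine sum_eq_zero fun l _ => ?_
        rw [map_smul, ev_ec_self, if_neg (fun h => hs h.symm), smul_zero]
    · rw [if_neg (fun h => ha (Set.mem_singleton_iff.1 h))]
      symm
      refine sum_eq_zero fun s _ => ?_
      rw [map_sum]
      refine sum_eq_zero fun l _ => ?_
      rw [map_smul, ev_ec_ne _ _ _ _ _ ha, smul_zero]
  · rw [sndL_apply, M_snd, map_sum]
    symm
    refine sum_eq_zero fun s _ => ?_
    rw [map_sum]
    refine sum_eq_zero fun l _ => ?_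
    rw [map_smul, sndL_apply, ec_snd, smul_zero]

lemma TT_ec (n' k' n i s l : ℕ) :
    D.TT n' k' (D.ec n i s l) = if n' < n ∨ (n = n' ∧ k' ≤ i) then D.ec n i s l else 0 := by
  have h : D.st n i ∈ D.TS n' k' ↔ n' < n ∨ (n = n' ∧ k' ≤ i) := by
    simp only [TS, Set.mem_ofPred_eq, D.kd_st, D.sz_st, Nat.cast_le]
  rw [TT_eq]
  apply D.ev_ext
  · intro a c
    rw [ev_M]
    by_cases ha : a = D.st n i
    · subst ha
      by_cases h1 : n' < n ∨ (n = n' ∧ k' ≤ i)
      · rw [if_pos h1, if_pos (h.2 h1)]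
      · rw [if_neg h1, if_neg (fun hh => h1 (h.1 hh)), map_zero]
    · have h3 : D.ev a c (D.ec n i s l) = 0 := D.ev_ec_ne _ _ _ _ ha c
      by_cases h1 : n' < n ∨ (n = n' ∧ k' ≤ i)
      · rw [if_pos h1, h3]
        split_ifs <;> rfl
      · rw [if_neg h1, h3, map_zero]
        split_ifs <;> rfl
  · rw [sndL_apply, M_snd]
    by_cases h1 : n' < n ∨ (n = n' ∧ k' ≤ i)
    · rw [if_pos h1, sndL_apply, ec_snd]
    · rw [if_neg h1, map_zero]

lemma pp_ec (n' i' n i s l : ℕ) :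
    D.pp n' i' (D.ec n i s l) = if n = n' ∧ i = i' then D.ec n i s l else 0 := by
  unfold pp
  rw [TT_ec, TT_ec]
  by_cases h1 : n = n'
  · subst h1
    by_cases h2 : i = i'
    · subst h2
      simp
    · by_cases h3 : i' ≤ i
      · have h4 : i' + 1 ≤ i := by omega
        simp [h2, h3, h4]
      · have h4 : ¬ i' + 1 ≤ i := by omega
        simp [h2, h3, h4]
  · by_cases h2 : n' < n
    · simp [h1, h2]
    · simp [h1, h2]

lemma TS_zero : D.TS 0 0 = Set.univ := by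
  ext a
  simp only [TS, Set.mem_ofPred_eq, Set.mem_univ, iff_true]
  rcases Nat.eq_zero_or_pos (D.kd a) with h | h
  · exact Or.inr ⟨h, by simp⟩
  · exact Or.inl h

lemma sub_TT00_norm (x : D.X) : ‖x - D.TT 0 0 x‖ = ‖x.snd‖ := by
  have h2 : x - D.TT 0 0 x = WithLp.toLp 2 (0, x.snd) := by
    rw [TT_eq, TS_zero]
    apply D.X_ext
    · rw [WithLp.sub_fst, M_fst, mask_univ, sub_self, fst_mk]
    · rw [WithLp.sub_snd, M_snd, sub_zero]
      rfl
  rw [h2, toLp_zero_left_norm]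

/-- The blocks with `n + 2` components of dimension at least `k`. -/
def QS (n k : ℕ) : Set D.A := {a | D.kd a = n ∧ (k : ℕ∞) ≤ D.sz a}

/-- The projection to these blocks. -/
def QQ (n k : ℕ) (x : D.X) : D.X := D.TT n k x - D.TT (n + 1) 0 x

lemma QQ_eq (n k : ℕ) (x : D.X) : D.QQ n k x = D.M (D.QS n k) x := by
  unfold QQ
  rw [TT_eq, TT_eq, M_sub D (D.TS_subset (Or.inl (Nat.lt_succ_self n)))]
  congr 1
  ext a
  simp only [TS, QS, Set.mem_sdiff, Set.mem_ofPred_eq, not_or, not_lt, not_and, not_le]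
  constructor
  · rintro ⟨h1 | h1, h3, h4⟩
    · have h5 : D.kd a = n + 1 := by omega
      exact absurd (h4 h5) (by simp)
    · exact h1
  · rintro ⟨h1, h2⟩
    refine ⟨Or.inr ⟨h1, h2⟩, by omega, fun h => by omega⟩

lemma B_self_ge (n : ℕ) (x : D.X) :
    ‖x - D.TT 0 0 x‖ ^ 2 + ((n : ℝ) + 2)⁻¹ * ‖D.QQ n 0 x‖ ^ 2 ≤ D.B x x := by
  rw [sub_TT00_norm, QQ_eq, M_norm]
  unfold B
  rw [real_inner_self_eq_norm_sq, add_comm]
  refine add_le_add ?_ le_rfl
  refine hasSum_le (fun a => ?_) ((hasSum_sq (mask (D.QS n 0) x.fst)).mul_left _)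
    (hasSum_diag D.bf D.bf_abs_le x.fst x.fst)
  rw [mask_apply]
  by_cases ha : a ∈ D.QS n 0
  · rw [if_pos ha, ← ha.1]
    exact D.bf_self a _
  · rw [if_neg ha, norm_zero, zero_pow two_ne_zero, mul_zero]
    exact D.bf_nonneg a _

lemma FF_snd (r : ℕ → Bool) (x y : D.X) :
    (D.FF r x y).snd = ff D.PP (fun p => Complete.str r (D.uu p)) x.fst y.fst := rfl

lemma FF_sub_ge (S S' : Set D.A) (k : ℕ) (hS : ∀ a ∈ S, ∀ b ∈ S', D.kd a ≠ D.kd b ∧ k ≤ D.uu (a, b))
    (r s : ℕ → Bool) (hrs : ∃ i < k, r i ≠ s i) (x y : D.X) :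
    2 * (‖D.M S x‖ ^ 2 * ‖D.M S' y‖ ^ 2) ≤ ‖D.FF r x y - D.FF s x y‖ ^ 2 := by
  have h0 : ‖D.FF r x y - D.FF s x y‖ = ‖ff D.PP (fun p => Complete.str r (D.uu p)) x.fst y.fst -
      ff D.PP (fun p => Complete.str s (D.uu p)) x.fst y.fst‖ := by
    unfold FF
    rw [← WithLp.toLp_sub, Prod.mk_sub_mk, sub_zero, toLp_zero_left_norm]
  rw [h0, M_norm, M_norm]
  refine ff_sub_ge D.PP _ _ S S' (fun a ha b hb => ?_) x.fst y.fst
  obtain ⟨h1, h2⟩ := hS a ha b hb
  refine ⟨h1, fun h => ?_⟩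
  obtain ⟨i, hi, hne⟩ := hrs
  exact hne ((str_eq_iff r s _).1 h i (hi.trans_le h2))

/-- Separation by blocks with many components. -/
lemma FF_sep_T (k : ℕ) (hk : 0 < k) (r s : ℕ → Bool) (hrs : ∃ i < k, r i ≠ s i) (x y : D.X) :
    2 * (‖D.TT k 0 x‖ ^ 2 * ‖D.QQ 0 0 y‖ ^ 2) ≤ ‖D.FF r x y - D.FF s x y‖ ^ 2 := by
  rw [QQ_eq, TT_eq]
  refine D.FF_sub_ge _ _ k (fun a ha b hb => ?_) r s hrs x y
  have h1 : k ≤ D.kd a := by
    rcases ha with h | ⟨h, _⟩
    · exact h.le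
    · exact h.symm.le
  have h2 : D.kd b = 0 := hb.1
  have _ := hk
  refine ⟨by omega, ?_⟩
  unfold uu
  change k ≤ _ + D.kd a + D.kd b
  omega

/-- Separation by blocks with different numbers of components. -/
lemma FF_sep_Q (n m k : ℕ) (hnm : n ≠ m) (r s : ℕ → Bool) (hrs : ∃ i < k, r i ≠ s i) (x y : D.X) :
    2 * (‖D.QQ n k x‖ ^ 2 * ‖D.QQ m k y‖ ^ 2) ≤ ‖D.FF r x y - D.FF s x y‖ ^ 2 := by
  rw [QQ_eq, QQ_eq]
  refine D.FF_sub_ge _ _ k (fun a ha b hb => ?_) r s hrs x y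
  have h1 : D.kd a ≠ D.kd b := by rw [ha.1, hb.1]; exact hnm
  refine ⟨h1, ?_⟩
  have h2 : (k : ℕ∞) ≤ min (D.sz a) (D.sz b) := le_min ha.2 hb.2
  have h3 : k ≤ (min (D.sz a) (D.sz b)).toNat := by
    have := ENat.toNat_le_toNat h2 (D.fin a b h1).ne
    simpa using this
  unfold uu
  change k ≤ (min (D.sz a) (D.sz b)).toNat + D.kd a + D.kd b
  omega

lemma TT_FF (r : ℕ → Bool) (x y : D.X) : D.TT 0 0 (D.FF r x y) = 0 := by
  apply D.X_ext
  · rw [TT_eq, M_fst]
    exact map_zero _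
  · rw [TT_eq, M_snd]
    rfl

/-- The norms of the components of a constant. -/
lemma ec_norm_apply (n i s l : ℕ) (hs : s < n + 2) (hl : l < i) (a : D.A) :
    ‖(D.ec n i s l).fst a‖ = if a = D.st n i then 1 else 0 := by
  by_cases ha : a = D.st n i
  · subst ha
    rw [if_pos rfl]
    have hl' : (l : ℕ∞) < D.sz (D.st n i) := by rw [D.sz_st]; exact_mod_cast hl
    refine le_antisymm ?_ ?_
    · rw [pi_norm_le_iff_of_nonneg zero_le_one]
      intro c
      rw [ec_fst_self]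
      split_ifs
      · exact hb_norm_le _ _
      · simp
    · have h4 := norm_le_pi_norm ((D.ec n i s l).fst (D.st n i)) ⟨s, by rw [D.kd_st]; exact hs⟩
      rw [ec_fst_self, if_pos rfl, hb_norm _ _ hl'] at h4
      exact h4
  · rw [if_neg ha, ec_fst_ne _ _ _ _ _ ha, norm_zero]

lemma FF_ec (r : ℕ → Bool) (j : ℕ) :
    D.FF r (D.ec 1 (j + 1) 0 0) (D.ec 0 1 0 0) = WithLp.toLp 2 (0, lp.single 2
      ((D.st 1 (j + 1), D.st 0 1), Complete.str r (D.uu (D.st 1 (j + 1), D.st 0 1))) (1 : ℝ)) := by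
  unfold FF
  congr 2
  apply lp.ext
  funext z
  rw [ff_apply, lp.single_apply]
  obtain ⟨⟨a, b⟩, w⟩ := z
  rw [ec_norm_apply _ _ _ _ _ (by norm_num) (by omega),
    ec_norm_apply _ _ _ _ _ (by norm_num) (by omega)]
  by_cases ha : a = D.st 1 (j + 1)
  · by_cases hb' : b = D.st 0 1
    · subst ha hb'
      by_cases hw : w = Complete.str r (D.uu (D.st 1 (j + 1), D.st 0 1))
      · subst hw
        have hP : (D.st 1 (j + 1), D.st 0 1) ∈ D.PP := by
          change D.kd _ ≠ D.kd _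
          rw [D.kd_st, D.kd_st]
          norm_num
        simp [hP]
      · rw [if_neg hw, Pi.single_eq_of_ne]
        intro h
        exact hw (congrArg Prod.snd h)
    · rw [Pi.single_eq_of_ne]
      · simp [hb']
      · intro h
        exact hb' (congrArg (fun z => z.1.2) h)
  · rw [Pi.single_eq_of_ne]
    · simp [ha]
    · intro h
      exact ha (congrArg (fun z => z.1.1) h)

lemma diagForm_bf_zero (w : D.W) : diagForm D.bf 0 w = 0 := by
  unfold diagForm
  have : (fun a => D.bf a ((0 : D.W) a) (w a)) = fun _ => 0 := by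
    funext a
    rw [bf_symm]
    exact D.bf_zero a _
  rw [this, tsum_zero]

lemma B_FF_ec (r : ℕ → Bool) (j k : ℕ) :
    D.B (D.FF r (D.ec 1 (j + 1) 0 0) (D.ec 0 1 0 0)) (D.FF r (D.ec 1 (k + 1) 0 0) (D.ec 0 1 0 0)) =
      if j = k then 1 else 0 := by
  rw [FF_ec, FF_ec]
  unfold B
  rw [fst_mk, fst_mk, snd_mk, snd_mk, diagForm_bf_zero, zero_add, lp.inner_single_left,
    lp.single_apply]
  by_cases h : j = k
  · subst h
    simp
  · rw [if_neg h, Pi.single_eq_of_ne]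
    · simp
    · intro hc
      have h1 := congrArg (fun z => D.sz z.1.1) hc
      simp only [D.sz_st] at h1
      have h2 : j + 1 = k + 1 := by exact_mod_cast h1
      omega

end Dat

end

end Pool.Agent.Lib.MP_4e4c79_lc.Complete

namespace Pool.Agent.Lib.MP_4e4c79_lc.Complete

attribute [local instance] Classical.propDecidable

noncomputable section

namespace Dat

variable (D : Dat)

lemma st_inj {n i n' i' : ℕ} (h : D.st n i = D.st n' i') : n = n' ∧ i = i' := by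
  constructor
  · rw [← D.kd_st n i, h, D.kd_st]
  · have h1 : (i : ℕ∞) = i' := by rw [← D.sz_st n i, h, D.sz_st]
    exact_mod_cast h1

lemma M_empty (x : D.X) : D.M ∅ x = 0 := by
  apply D.X_ext
  · rw [M_fst]
    apply lp.ext
    funext a
    rw [mask_apply, if_neg (Set.notMem_empty a)]
    rfl
  · rw [M_snd]
    rfl

lemma pp_pp_ne {n i n' i' : ℕ} (h : (n, i) ≠ (n', i')) (x : D.X) : D.pp n i (D.pp n' i' x) = 0 := by
  rw [pp_eq, pp_eq, M_M]
  have h1 : ({D.st n i} ∩ {D.st n' i'} : Set D.A) = ∅ := by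
    rw [Set.singleton_inter_eq_empty, Set.mem_singleton_iff]
    intro hc
    obtain ⟨h2, h3⟩ := D.st_inj hc
    exact h (by rw [h2, h3])
  rw [h1, M_empty]

lemma pp_pp_self (n i : ℕ) (x : D.X) : D.pp n i (D.pp n i x) = D.pp n i x := by
  rw [pp_eq, pp_eq, M_M, Set.inter_self]

lemma pp_pyth (n i : ℕ) (x : D.X) : ‖x‖ ^ 2 = ‖x - D.pp n i x‖ ^ 2 + ‖D.pp n i x‖ ^ 2 := by
  rw [pp_eq]
  exact D.M_pyth _ x

lemma TT_FF' (n k : ℕ) (r : ℕ → Bool) (x y : D.X) : D.TT n k (D.FF r x y) = 0 := by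
  rw [← D.TT_TT' (n := 0) (k := 0) (n' := n) (k' := k) (by omega), TT_FF]
  have h := D.TT_smul n k 0 0
  rwa [zero_smul, zero_smul] at h

lemma QQ_ec : D.QQ 0 0 (D.ec 0 1 0 0) = D.ec 0 1 0 0 := by
  unfold QQ
  rw [TT_ec, TT_ec]
  simp

lemma ec_norm (n i s l : ℕ) (hs : s < n + 2) (hl : l < i) : ‖D.ec n i s l‖ = 1 := by
  have h : ‖D.ec n i s l‖ ^ 2 = 1 := by
    rw [X_norm_sq, ec_snd, norm_zero, zero_pow two_ne_zero, add_zero, ← tsum_sq]
    have h1 : ∀ a, ‖(D.ec n i s l).fst a‖ ^ 2 = if a = D.st n i then 1 else 0 := by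
      intro a
      rw [ec_norm_apply _ _ _ _ _ hs hl]
      split_ifs <;> norm_num
    simp_rw [h1]
    exact tsum_ite_eq (D.st n i) (fun _ => (1 : ℝ))
  nlinarith [norm_nonneg (D.ec n i s l)]

end Dat

end

end Pool.Agent.Lib.MP_4e4c79_lc.Complete
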