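import Mathlib
import Pool.Agent.Lib.MP_4e4c79_lc.Facts

/-!
Extension of families of vectors with equal Gram matrices.
-/

namespace Pool.Agent.Lib.MP_4e4c79_lc.Complete

open Finset

noncomputable section

section Ext

variable {H H' : Type} [NormedAddCommGroup H] [InnerProductSpace ℝ H] [NormedAddCommGroup H']
  [InnerProductSpace ℝ H']

lemma exists_orth {J : Type} [Fintype J] (w : J → H') (o : Fin (Fintype.card J + 1) → H')
    (ho : Orthonormal ℝ o) (c : ℝ) : ∃ z : H', (∀ j, inner ℝ z (w j) = 0) ∧ inner ℝ z z = c ^ 2 := by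
  let A : (Fin (Fintype.card J + 1) → ℝ) →ₗ[ℝ] (J → ℝ) :=
    { toFun := fun x j => inner ℝ (∑ l, x l • o l) (w j)
      map_add' := fun x y => by
        funext j
        simp only [Pi.add_apply, add_smul, sum_add_distrib, inner_add_left]
      map_smul' := fun t x => by
        funext j
        simp only [Pi.smul_apply, smul_eq_mul, mul_smul, ← smul_sum, real_inner_smul_left,
          RingHom.id_apply] }
  have hker : LinearMap.ker A ≠ ⊥ := by
    apply LinearMap.ker_ne_bot_of_finrank_lt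
    rw [Module.finrank_fintype_fun_eq_card, Module.finrank_fintype_fun_eq_card, Fintype.card_fin]
    exact Nat.lt_succ_self _
  obtain ⟨x, hx, hx0⟩ := (Submodule.ne_bot_iff _).1 hker
  set u := ∑ l, x l • o l with hu
  have hu0 : u ≠ 0 := by
    intro h
    apply hx0
    funext l
    exact (Fintype.linearIndependent_iff.1 ho.linearIndependent x h) l
  have hun : ‖u‖ ≠ 0 := norm_ne_zero_iff.2 hu0
  refine ⟨(c * ‖u‖⁻¹) • u, fun j => ?_, ?_⟩
  · have h1 : inner ℝ u (w j) = 0 := congrFun (LinearMap.mem_ker.1 hx) j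
    rw [real_inner_smul_left, h1, mul_zero]
  · rw [real_inner_smul_left, real_inner_smul_right, real_inner_self_eq_norm_sq]
    field_simp

lemma ext_one {J : Type} [Fintype J] (v : J → H) (w : J → H')
    (hG : ∀ i j, inner ℝ (v i) (v j) = inner ℝ (w i) (w j)) (x : H)
    (o : Fin (Fintype.card J + 1) → H') (ho : Orthonormal ℝ o) :
    ∃ y : H', (∀ j, inner ℝ y (w j) = inner ℝ x (v j)) ∧ inner ℝ y y = inner ℝ x x := by
  let S : Submodule ℝ H := Submodule.span ℝ (Set.range v)
  have : FiniteDimensional ℝ S := FiniteDimensional.span_of_finite ℝ (Set.finite_range v)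
  set x0 : H := S.starProjection x with hx0
  have hx0S : x0 ∈ S := S.starProjection_apply_mem x
  have hz : x - x0 ∈ Sᗮ := S.sub_starProjection_mem_orthogonal x
  obtain ⟨c, hc⟩ := (Submodule.mem_span_range_iff_exists_fun ℝ).1 hx0S
  obtain ⟨z, hz1, hz2⟩ := exists_orth w o ho ‖x - x0‖
  set y0 := ∑ j, c j • w j with hy0
  have h1 : ∀ j, inner ℝ y0 (w j) = inner ℝ x0 (v j) := by
    intro j
    rw [hy0, ← hc, sum_inner, sum_inner]
    refine sum_congr rfl fun i _ => ?_
    rw [real_inner_smul_left, real_inner_smul_left, hG]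
  have h2 : ∀ j, inner ℝ (x - x0) (v j) = 0 := fun j => by
    rw [real_inner_comm]
    exact hz (v j) (Submodule.subset_span ⟨j, rfl⟩)
  have h3' : inner ℝ x0 (x - x0) = 0 := hz x0 hx0S
  have h3 : inner ℝ (x - x0) x0 = 0 := by
    rw [real_inner_comm]
    exact h3'
  have h4 : inner ℝ z y0 = 0 := by
    rw [hy0, inner_sum]
    refine sum_eq_zero fun j _ => ?_
    rw [real_inner_smul_right, hz1, mul_zero]
  have h4' : inner ℝ y0 z = 0 := by
    rw [real_inner_comm]
    exact h4
  have h5 : inner ℝ y0 y0 = inner ℝ x0 x0 := by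
    have a1 : inner ℝ y0 y0 = ∑ j, c j * inner ℝ y0 (w j) := by
      conv_lhs => rw [hy0, inner_sum]
      refine sum_congr rfl fun j _ => ?_
      rw [real_inner_smul_right]
    have a2 : inner ℝ x0 x0 = ∑ j, c j * inner ℝ x0 (v j) := by
      conv_lhs => rw [← hc, inner_sum]
      rw [hc]
      refine sum_congr rfl fun j _ => ?_
      rw [real_inner_smul_right]
    rw [a1, a2]
    exact sum_congr rfl fun j _ => by rw [h1]
  refine ⟨y0 + z, fun j => ?_, ?_⟩
  · rw [inner_add_left, hz1, add_zero, h1]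
    have h6 := h2 j
    rw [inner_sub_left] at h6
    linarith
  · have h6 : inner ℝ x x = inner ℝ x0 x0 + inner ℝ (x - x0) (x - x0) := by
      have h7 : x = x0 + (x - x0) := by abel
      conv_lhs => rw [h7]
      rw [inner_add_left, inner_add_right, inner_add_right, h3, h3']
      ring
    rw [h6, inner_add_left, inner_add_right, inner_add_right, h4, h4', hz2, h5,
      real_inner_self_eq_norm_sq (x - x0)]
    ring

lemma ext_many {J : Type} [Fintype J] (v : J → H) (w : J → H')
    (hG : ∀ i j, inner ℝ (v i) (v j) = inner ℝ (w i) (w j)) (t : ℕ) (x : Fin t → H)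
    (o : ℕ → H') (ho : ∀ m ≤ Fintype.card J + t, Orthonormal ℝ (fun l : Fin m => o l)) :
    ∃ y : Fin t → H', (∀ s j, inner ℝ (y s) (w j) = inner ℝ (x s) (v j)) ∧
      ∀ s s', inner ℝ (y s) (y s') = inner ℝ (x s) (x s') := by
  induction t with
  | zero => exact ⟨fun _ => 0, fun s => s.elim0, fun s => s.elim0⟩
  | succ t ih =>
    obtain ⟨y, hy1, hy2⟩ := ih (fun s => x s.castSucc) (fun m hm => ho m (by omega))
    have hG' : ∀ i j, inner ℝ ((Sum.elim v fun s : Fin t => x s.castSucc) i)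
        ((Sum.elim v fun s : Fin t => x s.castSucc) j) =
        inner ℝ ((Sum.elim w y) i) ((Sum.elim w y) j) := by
      rintro (i | i) (j | j)
      · exact hG i j
      · change inner ℝ (v i) (x j.castSucc) = inner ℝ (w i) (y j)
        rw [real_inner_comm (x j.castSucc) (v i), real_inner_comm (y j) (w i)]
        exact (hy1 j i).symm
      · exact (hy1 i j).symm
      · exact (hy2 i j).symm
    have hcard : Fintype.card (J ⊕ Fin t) + 1 ≤ Fintype.card J + (t + 1) := by
      rw [Fintype.card_sum, Fintype.card_fin, add_assoc]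
    obtain ⟨z, hz1, hz2⟩ := ext_one _ _ hG' (x (Fin.last t))
      (fun l : Fin (Fintype.card (J ⊕ Fin t) + 1) => o l) (ho _ hcard)
    refine ⟨Fin.snoc y z, fun s j => ?_, fun s s' => ?_⟩
    · refine Fin.lastCases ?_ (fun s => ?_) s
      · rw [Fin.snoc_last]
        exact hz1 (Sum.inl j)
      · rw [Fin.snoc_castSucc]
        exact hy1 s j
    · refine Fin.lastCases ?_ (fun s => ?_) s
      · refine Fin.lastCases ?_ (fun s' => ?_) s'
        · rw [Fin.snoc_last]
          exact hz2
        · rw [Fin.snoc_last, Fin.snoc_castSucc]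
          exact hz1 (Sum.inr s')
      · refine Fin.lastCases ?_ (fun s' => ?_) s'
        · rw [Fin.snoc_last, Fin.snoc_castSucc, real_inner_comm z (y s),
            real_inner_comm (x (Fin.last t)) (x s.castSucc)]
          exact hz1 (Sum.inr s)
        · rw [Fin.snoc_castSucc, Fin.snoc_castSucc]
          exact hy2 s s'

end Ext

lemma orthonormal_hb (s : ℕ∞) (m : ℕ) (hm : (m : ℕ∞) ≤ s) :
    Orthonormal ℝ (fun l : Fin m => hb s l) := by
  rw [orthonormal_iff_ite]
  intro i j
  rw [hb_inner s i j (lt_of_lt_of_le (by exact_mod_cast i.2) hm)]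
  by_cases h : i = j
  · subst h; simp
  · rw [if_neg (fun hc => h (Fin.ext hc)), if_neg h]

/-- Components of a block vector, indexed by natural numbers. -/
def comp {m : ℕ} {s : ℕ∞} (x : BT m s) (c : ℕ) : Hs s := if h : c < m + 2 then x ⟨c, h⟩ else 0

/-- Equality of Gram matrices of families of block vectors. -/
def GramEq {m m' : ℕ} {s s' : ℕ∞} {J : Type} (v : J → BT m s) (w : J → BT m' s') : Prop :=
  ∀ i j (p q : ℕ), inner ℝ (comp (v i) p) (comp (v j) q) = inner ℝ (comp (w i) p) (comp (w j) q)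

/-- Equality of the coordinates of block vectors. -/
def FixEq {m m' : ℕ} {s s' : ℕ∞} (x : BT m s) (y : BT m' s') : Prop :=
  ∀ p l : ℕ, inner ℝ (comp x p) (hb s l) = inner ℝ (comp y p) (hb s' l)

lemma comp_lt {m : ℕ} {s : ℕ∞} (x : BT m s) {c : ℕ} (h : c < m + 2) : comp x c = x ⟨c, h⟩ :=
  dif_pos h

lemma comp_ge {m : ℕ} {s : ℕ∞} (x : BT m s) {c : ℕ} (h : ¬ c < m + 2) : comp x c = 0 :=
  dif_neg h

lemma comp_add {m : ℕ} {s : ℕ∞} (x y : BT m s) (c : ℕ) : comp (x + y) c = comp x c + comp y c := by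
  by_cases h : c < m + 2
  · rw [comp_lt _ h, comp_lt _ h, comp_lt _ h]; rfl
  · rw [comp_ge _ h, comp_ge _ h, comp_ge _ h, add_zero]

lemma comp_smul {m : ℕ} {s : ℕ∞} (t : ℝ) (x : BT m s) (c : ℕ) :
    comp (t • x) c = t • comp x c := by
  by_cases h : c < m + 2
  · rw [comp_lt _ h, comp_lt _ h]; rfl
  · rw [comp_ge _ h, comp_ge _ h, smul_zero]

lemma comp_zero {m : ℕ} {s : ℕ∞} (c : ℕ) : comp (0 : BT m s) c = 0 := by
  by_cases h : c < m + 2
  · rw [comp_lt _ h]; rfl
  · rw [comp_ge _ h]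

lemma comp_sum {m : ℕ} {s : ℕ∞} {J : Type} (T : Finset J) (x : J → BT m s) (c : ℕ) :
    comp (∑ j ∈ T, x j) c = ∑ j ∈ T, comp (x j) c := by
  classical
  induction T using Finset.induction_on with
  | empty => exact comp_zero c
  | insert a T ha ih => rw [sum_insert ha, sum_insert ha, comp_add, ih]

lemma comp_ext {m : ℕ} {s : ℕ∞} {x y : BT m s} (h : ∀ c, comp x c = comp y c) : x = y := by
  funext c
  have := h c
  rwa [comp_lt _ c.2, comp_lt _ c.2] at this

lemma norm_eq_of_comp {m m' : ℕ} {s s' : ℕ∞} (hm : m' = m) (x : BT m s) (y : BT m' s')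
    (h : ∀ p, inner ℝ (comp x p) (comp x p) = inner ℝ (comp y p) (comp y p)) : ‖y‖ = ‖x‖ := by
  subst hm
  have h' : ∀ c, ‖x c‖ = ‖y c‖ := by
    intro c
    have h1 := h c
    rw [comp_lt _ c.2, comp_lt _ c.2, real_inner_self_eq_norm_sq, real_inner_self_eq_norm_sq] at h1
    exact (pow_left_inj₀ (norm_nonneg _) (norm_nonneg _) two_ne_zero).1 h1
  refine le_antisymm ?_ ?_
  · rw [pi_norm_le_iff_of_nonneg (norm_nonneg _)]
    intro c
    rw [← h' c]
    exact norm_le_pi_norm x c
  · rw [pi_norm_le_iff_of_nonneg (norm_nonneg _)]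
    intro c
    rw [h' c]
    exact norm_le_pi_norm y c

lemma FixEq.eq_inner {m m' : ℕ} {s s' : ℕ∞} (hs : s' = s) {x x' : BT m s} {y y' : BT m' s'}
    (h : FixEq x y) (h' : FixEq x' y') (p q : ℕ) :
    inner ℝ (comp x p) (comp x' q) = inner ℝ (comp y p) (comp y' q) := by
  subst hs
  have h1 : comp x p = comp y p := Hs_ext fun l => h p l
  have h2 : comp x' q = comp y' q := Hs_ext fun l => h' q l
  rw [h1, h2]

lemma FixEq.exists {m m' : ℕ} {s s' : ℕ∞} (hm : m' = m) (hs : s' = s) (x : BT m s) :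
    ∃ y : BT m' s', FixEq x y := by
  subst hm hs
  exact ⟨x, fun _ _ => rfl⟩

/-- Extension of Gram-equal families of block vectors. -/
lemma GramEq.extend {m m' : ℕ} {s s' : ℕ∞} (hm : m' = m) {k : ℕ}
    (hs' : (((m + 2) * (k + 1) : ℕ) : ℕ∞) ≤ s') {v : Fin k → BT m s} {w : Fin k → BT m' s'}
    (hG : GramEq v w) (x : BT m s) :
    ∃ y : BT m' s', GramEq (Fin.cons x v : Fin (k + 1) → BT m s)
      (Fin.cons y w : Fin (k + 1) → BT m' s') := by
  subst hm
  have hG' : ∀ i j : Fin k × Fin (m' + 2), inner ℝ (v i.1 i.2) (v j.1 j.2) =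
      inner ℝ (w i.1 i.2) (w j.1 j.2) := by
    intro i j
    have h := hG i.1 j.1 i.2 j.2
    rwa [comp_lt _ i.2.2, comp_lt _ j.2.2, comp_lt _ i.2.2, comp_lt _ j.2.2] at h
  obtain ⟨y, hy1, hy2⟩ := ext_many (fun i : Fin k × Fin (m' + 2) => v i.1 i.2)
    (fun i : Fin k × Fin (m' + 2) => w i.1 i.2) hG' (m' + 2) x (fun l => hb s' l) (by
      intro t ht
      apply orthonormal_hb
      refine le_trans ?_ hs'
      rw [Fintype.card_prod, Fintype.card_fin, Fintype.card_fin] at ht
      have : t ≤ (m' + 2) * (k + 1) := ht.trans_eq (by ring)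
      exact_mod_cast this)
  have e0 : ∀ j (p q : ℕ), inner ℝ (comp x p) (comp (v j) q) =
      inner ℝ (comp y p) (comp (w j) q) := by
    intro j p q
    by_cases hp : p < m' + 2
    · by_cases hq : q < m' + 2
      · rw [comp_lt _ hp, comp_lt _ hp, comp_lt _ hq, comp_lt _ hq]
        exact (hy1 ⟨p, hp⟩ (j, ⟨q, hq⟩)).symm
      · rw [comp_ge _ hq, comp_ge _ hq, inner_zero_right, inner_zero_right]
    · rw [comp_ge _ hp, comp_ge _ hp, inner_zero_left, inner_zero_left]
  refine ⟨y, fun i j p q => ?_⟩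
  refine Fin.cases ?_ (fun i => ?_) i
  · refine Fin.cases ?_ (fun j => ?_) j
    · rw [Fin.cons_zero, Fin.cons_zero]
      by_cases hp : p < m' + 2
      · by_cases hq : q < m' + 2
        · rw [comp_lt _ hp, comp_lt _ hp, comp_lt _ hq, comp_lt _ hq]
          exact (hy2 ⟨p, hp⟩ ⟨q, hq⟩).symm
        · rw [comp_ge _ hq, comp_ge _ hq, inner_zero_right, inner_zero_right]
      · rw [comp_ge _ hp, comp_ge _ hp, inner_zero_left, inner_zero_left]
    · rw [Fin.cons_zero, Fin.cons_zero, Fin.cons_succ, Fin.cons_succ]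
      exact e0 j p q
  · refine Fin.cases ?_ (fun j => ?_) j
    · rw [Fin.cons_zero, Fin.cons_zero, Fin.cons_succ, Fin.cons_succ,
        real_inner_comm (comp x q) (comp (v i) p), real_inner_comm (comp y q) (comp (w i) p)]
      exact e0 i q p
    · rw [Fin.cons_succ, Fin.cons_succ, Fin.cons_succ, Fin.cons_succ]
      exact hG i j p q

end

end Pool.Agent.Lib.MP_4e4c79_lc.Complete
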