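import Mathlib

namespace Pool.Agent.Lib.MP_4e4c79_lc

open TopologicalSpace

/-- An orthonormal family in a separable inner product space is countable. -/
lemma countable_of_orthonormal {H : Type*} [NormedAddCommGroup H] [InnerProductSpace ℝ H]
    [SeparableSpace H] {ι : Type*} (v : ι → H) (hv : Orthonormal ℝ v) : Countable ι := by
  have hinj : Function.Injective v := hv.linearIndependent.injective
  have hdist : ∀ i j, i ≠ j → (1 : ℝ) ≤ dist (v i) (v j) := by
    intro i j hij
    have h0 : inner ℝ (v i) (v j) = 0 := hv.2 hij
    have h1 : ‖v i - v j‖ ^ 2 = 2 := by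
      rw [@norm_sub_sq_real, h0, hv.1 i, hv.1 j]; norm_num
    rw [dist_eq_norm]
    nlinarith [norm_nonneg (v i - v j)]
  have hd : DiscreteTopology (Set.range v) := by
    apply DiscreteTopology.of_forall_le_dist (r := 1) one_pos
    intro x y hxy
    obtain ⟨_, ⟨i, rfl⟩⟩ := x
    obtain ⟨_, ⟨j, rfl⟩⟩ := y
    have : i ≠ j := by
      rintro rfl
      exact hxy rfl
    exact hdist i j this
  have : SecondCountableTopology H := UniformSpace.secondCountable_of_separable H
  have hc : Countable (Set.range v) := separableSpace_iff_countable.1 inferInstance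
  exact (Set.rangeFactorization_injective.2 hinj).countable

/-- Every infinite-dimensional separable real Hilbert space is isometric to `ℓ²(ℕ)`. -/
theorem exists_l2_equiv (H : Type*) [NormedAddCommGroup H] [InnerProductSpace ℝ H]
    [CompleteSpace H] [SeparableSpace H] (hinf : ¬ FiniteDimensional ℝ H) :
    Nonempty (H ≃ₗᵢ[ℝ] lp (fun _ : ℕ => ℝ) 2) := by
  obtain ⟨w, b, hb⟩ := exists_hilbertBasis ℝ H
  have horth : Orthonormal ℝ b := b.orthonormal
  have hc : Countable w := countable_of_orthonormal b horth
  have hi : Infinite w := by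
    by_contra hfin
    have hf : Finite w := not_infinite_iff_finite.1 hfin
    have : Fintype w := Fintype.ofFinite w
    exact hinf (b.toOrthonormalBasis.toBasis.finiteDimensional_of_finite)
  obtain ⟨e⟩ : Nonempty (ℕ ≃ w) := by
    have := nonempty_equiv_of_countable (α := ℕ) (β := w)
    exact this
  have horth' : Orthonormal ℝ (b ∘ e) := horth.comp e e.injective
  have hsp : ⊤ ≤ (Submodule.span ℝ (Set.range (b ∘ e))).topologicalClosure := by
    have : Set.range (b ∘ e) = Set.range b := by
      rw [Set.range_comp, e.range_eq_univ, Set.image_univ]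
    rw [this, b.dense_span]
  exact ⟨(HilbertBasis.mk horth' hsp).repr⟩

end Pool.Agent.Lib.MP_4e4c79_lc
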