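import Mathlib

/-!
Elementary inequalities in `ℓ_p^k` for `1 ≤ p ≤ 2`.
-/

namespace Pool.Agent.Lib.MP_4e4c79_lc

open Finset

/-- `ℓ_2 ≤ ℓ_p` for `p ≤ 2`. -/
lemma sum_sq_le_sum_rpow {ι : Type*} (s : Finset ι) (f : ι → ℝ) (hf : ∀ i, 0 ≤ f i) {p : ℝ}
    (hp : 1 ≤ p) (hp2 : p ≤ 2) :
    ∑ i ∈ s, f i ^ 2 ≤ (∑ i ∈ s, f i ^ p) ^ (2 / p) := by
  have hp0 : 0 < p := by linarith
  set S := ∑ i ∈ s, f i ^ p with hS
  have hS0 : 0 ≤ S := sum_nonneg fun i _ => Real.rpow_nonneg (hf i) p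
  have hle : ∀ i ∈ s, f i ^ p ≤ S := fun i hi =>
    single_le_sum (f := fun i => f i ^ p) (fun j _ => Real.rpow_nonneg (hf j) p) hi
  have hle' : ∀ i ∈ s, f i ≤ S ^ (1 / p) := by
    intro i hi
    have := Real.rpow_le_rpow (Real.rpow_nonneg (hf i) p) (hle i hi) (by positivity : 0 ≤ 1 / p)
    rwa [← Real.rpow_mul (hf i), mul_one_div_cancel hp0.ne', Real.rpow_one] at this
  have hterm : ∀ i ∈ s, f i ^ 2 ≤ f i ^ p * S ^ ((2 - p) / p) := by
    intro i hi
    rcases (hf i).eq_or_lt with h0 | h0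
    · rw [← h0]
      have : (0 : ℝ) ≤ 0 ^ p * S ^ ((2 - p) / p) := by positivity
      simpa using this
    · have h1 : f i ^ 2 = f i ^ p * f i ^ (2 - p) := by
        rw [← Real.rpow_add h0]
        norm_num
      rw [h1]
      apply mul_le_mul_of_nonneg_left _ (Real.rpow_nonneg (hf i) p)
      have := Real.rpow_le_rpow (hf i) (hle' i hi) (by linarith : 0 ≤ 2 - p)
      rwa [← Real.rpow_mul hS0, one_div_mul_eq_div] at this
  calc ∑ i ∈ s, f i ^ 2 ≤ ∑ i ∈ s, f i ^ p * S ^ ((2 - p) / p) := sum_le_sum hterm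
    _ = S * S ^ ((2 - p) / p) := by rw [← sum_mul]
    _ = S ^ (2 / p) := by
        rcases hS0.eq_or_lt with h0 | h0
        · rw [← h0, zero_mul, Real.zero_rpow (by positivity)]
        · have : S * S ^ ((2 - p) / p) = S ^ (1 : ℝ) * S ^ ((2 - p) / p) := by rw [Real.rpow_one]
          rw [this, ← Real.rpow_add h0]
          congr 1
          field_simp
          ring

/-- `ℓ_p ≤ k^{1/p-1/2} ℓ_2` for `p ≤ 2`, in squared form. -/
lemma sum_rpow_le_sum_sq {ι : Type*} (s : Finset ι) (f : ι → ℝ) (hf : ∀ i, 0 ≤ f i) {p : ℝ}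
    (hp : 1 ≤ p) (hp2 : p ≤ 2) :
    (∑ i ∈ s, f i ^ p) ^ (2 / p) ≤ (#s : ℝ) ^ (2 / p - 1) * ∑ i ∈ s, f i ^ 2 := by
  have hp0 : 0 < p := by linarith
  have h := Real.rpow_sum_le_const_mul_sum_rpow_of_nonneg (s := s) (f := fun i => f i ^ p)
    (p := 2 / p) (by rw [le_div_iff₀ hp0]; linarith) (fun i _ => Real.rpow_nonneg (hf i) p)
  refine h.trans_eq ?_
  congr 1
  refine sum_congr rfl fun i _ => ?_
  rw [← Real.rpow_mul (hf i), mul_div_cancel₀ _ hp0.ne']
  norm_num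

/-- The pointwise inequality behind the estimate of the von Neumann-Jordan constant. -/
lemma abs_add_rpow_add_abs_sub_rpow_le (a b : ℝ) {p : ℝ} (hp : 1 ≤ p) (hp2 : p ≤ 2) :
    |a + b| ^ p + |a - b| ^ p ≤ 2 * (|a| ^ p + |b| ^ p) := by
  have hp0 : 0 < p := by linarith
  have hsq : ∀ x : ℝ, |x| ^ p = (x ^ 2) ^ (p / 2) := by
    intro x
    rw [← sq_abs, ← Real.rpow_natCast, ← Real.rpow_mul (abs_nonneg x)]
    congr 1
    push_cast
    ring
  rw [hsq, hsq, hsq, hsq]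
  set s := (a + b) ^ 2
  set t := (a - b) ^ 2
  have hs : 0 ≤ s := sq_nonneg _
  have ht : 0 ≤ t := sq_nonneg _
  have hst : s + t = 2 * (a ^ 2 + b ^ 2) := by simp only [s, t]; ring
  -- concavity
  have h1 : s ^ (p / 2) + t ^ (p / 2) ≤ 2 * ((s + t) / 2) ^ (p / 2) := by
    have hc := Real.concaveOn_rpow (p := p / 2) (by positivity) (by linarith)
    have := hc.2 (show s ∈ Set.Ici (0 : ℝ) from hs) (show t ∈ Set.Ici (0 : ℝ) from ht)
      (show (0 : ℝ) ≤ 1 / 2 by norm_num) (show (0 : ℝ) ≤ 1 / 2 by norm_num) (by norm_num)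
    simp only [smul_eq_mul] at this
    have h3 : 1 / 2 * s + 1 / 2 * t = (s + t) / 2 := by ring
    rw [h3] at this
    linarith
  have h2 : ((s + t) / 2) ^ (p / 2) ≤ (a ^ 2) ^ (p / 2) + (b ^ 2) ^ (p / 2) := by
    have : (s + t) / 2 = a ^ 2 + b ^ 2 := by rw [hst]; ring
    rw [this]
    exact Real.rpow_add_le_add_rpow (sq_nonneg _) (sq_nonneg _) (by positivity) (by linarith)
  linarith

/-- Bound for the von Neumann-Jordan constant of `ℓ_p^k`, in terms of the numbers `‖x‖_p` written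
as `(∑ |x i|^p)^(1/p)`, squared. -/
lemma nj_ineq {ι : Type*} (s : Finset ι) (x y : ι → ℝ) {p : ℝ} (hp : 1 ≤ p) (hp2 : p ≤ 2) :
    (∑ i ∈ s, |x i + y i| ^ p) ^ (2 / p) + (∑ i ∈ s, |x i - y i| ^ p) ^ (2 / p) ≤
      (2 : ℝ) ^ (4 / p - 1) *
        ((∑ i ∈ s, |x i| ^ p) ^ (2 / p) + (∑ i ∈ s, |y i| ^ p) ^ (2 / p)) := by
  have hp0 : 0 < p := by linarith
  set U := (∑ i ∈ s, |x i + y i| ^ p)
  set V := (∑ i ∈ s, |x i - y i| ^ p)
  set A := (∑ i ∈ s, |x i| ^ p)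
  set B := (∑ i ∈ s, |y i| ^ p)
  have hU : 0 ≤ U := sum_nonneg fun i _ => Real.rpow_nonneg (abs_nonneg _) p
  have hV : 0 ≤ V := sum_nonneg fun i _ => Real.rpow_nonneg (abs_nonneg _) p
  have hA : 0 ≤ A := sum_nonneg fun i _ => Real.rpow_nonneg (abs_nonneg _) p
  have hB : 0 ≤ B := sum_nonneg fun i _ => Real.rpow_nonneg (abs_nonneg _) p
  have h1 : U + V ≤ 2 * (A + B) := by
    rw [← sum_add_distrib, ← sum_add_distrib, mul_sum]
    exact sum_le_sum fun i _ => abs_add_rpow_add_abs_sub_rpow_le _ _ hp hp2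
  have hcancel : ∀ z : ℝ, 0 ≤ z → (z ^ (1 / p)) ^ p = z := fun z hz => by
    rw [← Real.rpow_mul hz, one_div_mul_cancel hp0.ne', Real.rpow_one]
  have hcancel2 : ∀ z : ℝ, 0 ≤ z → (z ^ (1 / p)) ^ 2 = z ^ (2 / p) := fun z hz => by
    rw [← Real.rpow_natCast, ← Real.rpow_mul hz]
    congr 1
    push_cast
    ring
  have h2 : U ^ (2 / p) + V ^ (2 / p) ≤ (U + V) ^ (2 / p) := by
    have := sum_sq_le_sum_rpow (univ : Finset (Fin 2)) ![U ^ (1 / p), V ^ (1 / p)]
      (by intro i; fin_cases i <;> simp <;> positivity) hp hp2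
    simp only [Fin.sum_univ_two, Matrix.cons_val_zero, Matrix.cons_val_one] at this
    rwa [hcancel U hU, hcancel V hV, hcancel2 U hU, hcancel2 V hV] at this
  have h3 : (A + B) ^ (2 / p) ≤ (2 : ℝ) ^ (2 / p - 1) * (A ^ (2 / p) + B ^ (2 / p)) := by
    have := sum_rpow_le_sum_sq (univ : Finset (Fin 2)) ![A ^ (1 / p), B ^ (1 / p)]
      (by intro i; fin_cases i <;> simp <;> positivity) hp hp2
    simp only [Fin.sum_univ_two, Matrix.cons_val_zero, Matrix.cons_val_one] at this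
    rw [hcancel A hA, hcancel B hB, hcancel2 A hA, hcancel2 B hB] at this
    simpa using this
  have h4 : (U + V) ^ (2 / p) ≤ (2 * (A + B)) ^ (2 / p) :=
    Real.rpow_le_rpow (by positivity) h1 (by positivity)
  have h5 : (2 * (A + B)) ^ (2 / p) = (2 : ℝ) ^ (2 / p) * (A + B) ^ (2 / p) :=
    Real.mul_rpow (by norm_num) (by positivity)
  calc U ^ (2 / p) + V ^ (2 / p) ≤ (2 : ℝ) ^ (2 / p) * (A + B) ^ (2 / p) := by linarith
    _ ≤ (2 : ℝ) ^ (2 / p) * ((2 : ℝ) ^ (2 / p - 1) * (A ^ (2 / p) + B ^ (2 / p))) := by gcongr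
    _ = (2 : ℝ) ^ (4 / p - 1) * (A ^ (2 / p) + B ^ (2 / p)) := by
        rw [← mul_assoc, ← Real.rpow_add (by norm_num)]
        congr 2
        ring

/-- Choice of signs in an inner product space. -/
lemma exists_signs {H : Type*} [NormedAddCommGroup H] [InnerProductSpace ℝ H] {n : ℕ}
    (v : Fin n → H) :
    ∃ θ : Fin n → ℝ, (∀ i, θ i = 1 ∨ θ i = -1) ∧ ‖∑ i, θ i • v i‖ ^ 2 ≤ ∑ i, ‖v i‖ ^ 2 := by
  induction n with
  | zero => exact ⟨fun _ => 1, fun i => i.elim0, by simp⟩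
  | succ n ih =>
      obtain ⟨θ, hθ, hle⟩ := ih (fun i => v i.castSucc)
      set w := ∑ i : Fin n, θ i • v i.castSucc with hw
      rcases le_total (inner ℝ w (v (Fin.last n))) 0 with h | h
      · refine ⟨Fin.snoc θ 1, fun i => ?_, ?_⟩
        · refine Fin.lastCases ?_ (fun i => ?_) i
          · simp
          · simpa using hθ i
        · rw [Fin.sum_univ_castSucc, Fin.sum_univ_castSucc]
          simp only [Fin.snoc_castSucc, Fin.snoc_last, one_smul]
          rw [← hw, norm_add_sq_real]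
          linarith
      · refine ⟨Fin.snoc θ (-1), fun i => ?_, ?_⟩
        · refine Fin.lastCases ?_ (fun i => ?_) i
          · simp
          · simpa using hθ i
        · rw [Fin.sum_univ_castSucc, Fin.sum_univ_castSucc]
          simp only [Fin.snoc_castSucc, Fin.snoc_last, neg_smul, one_smul]
          rw [← hw, norm_add_sq_real, norm_neg, inner_neg_right]
          linarith

end Pool.Agent.Lib.MP_4e4c79_lc
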