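import Mathlib
import Pool.Agent.Lib.MP_4e4c79_lc.Basic
import Pool.Agent.Lib.MP_4e4c79_lc.Hilb
import Pool.Agent.Lib.MP_4e4c79_lc.LpIneq

/-!
The spaces `ℓ² ⊕₂ ℓ_{p_i}^{k_i}` with `p_i → 2` and `k_i^{1/p_i - 1/2} → ∞`, expanded by an inner
product form and by constants for an orthonormal sequence.
-/

namespace Pool.Agent.Lib.MP_4e4c79_lc.Incomplete

open Pool.Agent.Lib.MP_4e4c79_lc Finset

noncomputable section

/-- The signature: constants `e_0, e_1, …` in the unit ball and one binary relation symbol `b`. -/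
def sig : Signature where
  Fn := ℕ
  fnArity := fun _ => 0
  fnBound := fun _ _ => 1
  fnMod := fun _ _ _ => 1
  fnMod_pos := fun _ _ _ _ => one_pos
  Rel := Unit
  relArity := fun _ => 2
  relBound := fun _ n => (n : ℝ) * n
  relMod := fun _ n ε => ε / (2 * n + 1)
  relMod_pos := fun _ n ε hε => by positivity

/-- Structure obtained from a contraction `j` into a Hilbert space and a sequence of points. -/
def mkStruc (E H : Type) [NormedAddCommGroup E] [NormedSpace ℝ E] [CompleteSpace E]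
    [NormedAddCommGroup H] [InnerProductSpace ℝ H] (j : E →ₗ[ℝ] H)
    (hj : ∀ x, ‖j x‖ ≤ ‖x‖) (e : ℕ → E) (he : ∀ i, ‖e i‖ ≤ 1) : Struc sig where
  carrier := E
  fn := fun i _ => e i
  rel := fun _ x => inner ℝ (j (x (0 : Fin 2))) (j (x (1 : Fin 2)))
  fn_bound := fun f n x _ => he f
  fn_uc := fun f n ε hε x y _ _ _ => by simpa using hε.le
  rel_bound := fun R n x hx => by
    refine (abs_real_inner_le_norm _ _).trans ?_
    have h0 : ‖x (0 : Fin 2)‖ ≤ n := hx (0 : Fin 2)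
    have h1 : ‖x (1 : Fin 2)‖ ≤ n := hx (1 : Fin 2)
    exact mul_le_mul ((hj _).trans h0) ((hj _).trans h1) (norm_nonneg _) (Nat.cast_nonneg n)
  rel_uc := fun R n ε hε x y hx hy hxy => by
    have hx0 : ‖x (0 : Fin 2)‖ ≤ n := hx (0 : Fin 2)
    have hy1 : ‖y (1 : Fin 2)‖ ≤ n := hy (1 : Fin 2)
    have h0 : ‖x (0 : Fin 2) - y (0 : Fin 2)‖ < ε / (2 * n + 1) := hxy (0 : Fin 2)
    have h1 : ‖x (1 : Fin 2) - y (1 : Fin 2)‖ < ε / (2 * n + 1) := hxy (1 : Fin 2)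
    have hn : (0 : ℝ) ≤ n := Nat.cast_nonneg n
    have key : inner ℝ (j (x (0 : Fin 2))) (j (x (1 : Fin 2))) -
        inner ℝ (j (y (0 : Fin 2))) (j (y (1 : Fin 2))) =
        inner ℝ (j (x (0 : Fin 2))) (j (x (1 : Fin 2) - y (1 : Fin 2))) +
        inner ℝ (j (x (0 : Fin 2) - y (0 : Fin 2))) (j (y (1 : Fin 2))) := by
      rw [map_sub, map_sub, inner_sub_right, inner_sub_left]
      ring
    rw [key]
    have a1 : |inner ℝ (j (x (0 : Fin 2))) (j (x (1 : Fin 2) - y (1 : Fin 2)))| ≤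
        n * (ε / (2 * n + 1)) :=
      (abs_real_inner_le_norm _ _).trans
        (mul_le_mul ((hj _).trans hx0) ((hj _).trans h1.le) (norm_nonneg _) hn)
    have a2 : |inner ℝ (j (x (0 : Fin 2) - y (0 : Fin 2))) (j (y (1 : Fin 2)))| ≤
        (ε / (2 * n + 1)) * n :=
      (abs_real_inner_le_norm _ _).trans
        (mul_le_mul ((hj _).trans h0.le) ((hj _).trans hy1) (norm_nonneg _) (by positivity))
    have a3 : n * (ε / (2 * n + 1)) + (ε / (2 * n + 1)) * n ≤ ε := by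
      have : n * (ε / (2 * n + 1)) + (ε / (2 * n + 1)) * n = ε * (2 * n / (2 * n + 1)) := by
        field_simp; ring
      rw [this]
      have h3 : (2 * (n : ℝ) / (2 * n + 1)) ≤ 1 := by
        rw [div_le_one (by positivity)]; linarith
      nlinarith
    exact (abs_add_le _ _).trans ((add_le_add a1 a2).trans a3)

/-- The exponents `p_i`, with `4 / p_i - 1 = 1 + 1/(i+1)`. -/
def pp (i : ℕ) : ℝ := 4 / (2 + 1 / (i + 1 : ℝ))

/-- The dimensions `k_i`. -/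
def kk (i : ℕ) : ℕ := (i + 1) ^ (4 * (i + 1))

lemma pp_pos (i : ℕ) : 0 < pp i := by unfold pp; positivity

lemma one_le_pp (i : ℕ) : 1 ≤ pp i := by
  unfold pp
  rw [le_div_iff₀ (by positivity)]
  have : 1 / (i + 1 : ℝ) ≤ 1 := by
    rw [div_le_one (by positivity)]
    linarith [(Nat.cast_nonneg i : (0 : ℝ) ≤ i)]
  linarith

lemma pp_le_two (i : ℕ) : pp i ≤ 2 := by
  unfold pp
  rw [div_le_iff₀ (by positivity)]
  have : 0 ≤ 1 / (i + 1 : ℝ) := by positivity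
  linarith

lemma four_div_pp (i : ℕ) : 4 / pp i - 1 = 1 + 1 / (i + 1 : ℝ) := by
  unfold pp
  have : (2 + 1 / (i + 1 : ℝ)) ≠ 0 := by positivity
  rw [div_div_eq_mul_div, mul_div_assoc, mul_comm]
  field_simp
  ring

lemma two_div_pp (i : ℕ) : 2 / pp i - 1 = 1 / (2 * (i + 1 : ℝ)) := by
  unfold pp
  have : (2 + 1 / (i + 1 : ℝ)) ≠ 0 := by positivity
  field_simp
  ring

lemma kk_rpow (i : ℕ) : (kk i : ℝ) ^ (2 / pp i - 1) = ((i : ℝ) + 1) ^ 2 := by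
  rw [two_div_pp, kk]
  push_cast
  rw [← Real.rpow_natCast, ← Real.rpow_mul (by positivity), ← Real.rpow_natCast]
  congr 1
  push_cast
  field_simp
  ring

instance fact_pp (i : ℕ) : Fact (1 ≤ ENNReal.ofReal (pp i)) :=
  ⟨by rw [← ENNReal.ofReal_one]; exact ENNReal.ofReal_le_ofReal (one_le_pp i)⟩

/-- `ℓ²`. -/
abbrev l2 : Type := lp (fun _ : ℕ => ℝ) 2

/-- `ℓ_{p_i}^{k_i}`. -/
abbrev X (i : ℕ) : Type := PiLp (ENNReal.ofReal (pp i)) (fun _ : Fin (kk i) => ℝ)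

/-- `ℓ² ⊕₂ ℓ_{p_i}^{k_i}`. -/
abbrev E (i : ℕ) : Type := WithLp 2 (l2 × X i)

/-- `ℓ² ⊕₂ ℓ_2^{k_i}`. -/
abbrev H (i : ℕ) : Type := WithLp 2 (l2 × EuclideanSpace ℝ (Fin (kk i)))

lemma X_norm_sq (i : ℕ) (v : X i) : ‖v‖ ^ 2 = (∑ t, |v t| ^ pp i) ^ (2 / pp i) := by
  have h : (ENNReal.ofReal (pp i)).toReal = pp i := ENNReal.toReal_ofReal (pp_pos i).le
  rw [PiLp.norm_eq_sum (by rw [h]; exact pp_pos i), h, ← Real.rpow_natCast, ← Real.rpow_mul]
  · simp only [Real.norm_eq_abs]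
    congr 1
    push_cast
    ring
  · exact sum_nonneg fun t _ => Real.rpow_nonneg (norm_nonneg _) _

/-- The identity map to the Hilbert space. -/
def jj (i : ℕ) : E i →ₗ[ℝ] H i where
  toFun x := WithLp.toLp 2 (x.fst, WithLp.toLp 2 (fun t => x.snd t))
  map_add' x y := by
    apply (WithLp.equiv 2 _).injective
    ext <;> simp
  map_smul' c x := by
    apply (WithLp.equiv 2 _).injective
    ext <;> simp

lemma jj_norm_sq (i : ℕ) (x : E i) : ‖jj i x‖ ^ 2 = ‖x.fst‖ ^ 2 + ∑ t, |x.snd t| ^ 2 := by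
  rw [WithLp.prod_norm_sq_eq_of_L2]
  simp [jj, EuclideanSpace.norm_sq_eq]

lemma E_norm_sq (i : ℕ) (x : E i) :
    ‖x‖ ^ 2 = ‖x.fst‖ ^ 2 + (∑ t, |x.snd t| ^ pp i) ^ (2 / pp i) := by
  rw [WithLp.prod_norm_sq_eq_of_L2, X_norm_sq]

lemma jj_le (i : ℕ) (x : E i) : ‖jj i x‖ ≤ ‖x‖ := by
  rw [← abs_of_nonneg (norm_nonneg (jj i x)), ← abs_of_nonneg (norm_nonneg x), ← sq_le_sq,
    jj_norm_sq, E_norm_sq]
  have := sum_sq_le_sum_rpow (univ : Finset (Fin (kk i))) (fun t => |x.snd t|)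
    (fun t => abs_nonneg _) (one_le_pp i) (pp_le_two i)
  linarith

lemma E_le (i : ℕ) (x : E i) : ‖x‖ ^ 2 ≤ ((i : ℝ) + 1) ^ 2 * ‖jj i x‖ ^ 2 := by
  rw [jj_norm_sq, E_norm_sq]
  have := sum_rpow_le_sum_sq (univ : Finset (Fin (kk i))) (fun t => |x.snd t|)
    (fun t => abs_nonneg _) (one_le_pp i) (pp_le_two i)
  simp only [card_univ, Fintype.card_fin, kk_rpow] at this
  have h1 : (1 : ℝ) ≤ ((i : ℝ) + 1) ^ 2 := by
    have : (0 : ℝ) ≤ i := Nat.cast_nonneg i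
    nlinarith
  have h2 : ‖x.fst‖ ^ 2 ≤ ((i : ℝ) + 1) ^ 2 * ‖x.fst‖ ^ 2 := by
    have := sq_nonneg ‖x.fst‖
    nlinarith
  rw [mul_add]
  linarith

lemma E_nj (i : ℕ) (x y : E i) :
    ‖x + y‖ ^ 2 + ‖x - y‖ ^ 2 ≤
      (2 : ℝ) ^ (1 + 1 / (i + 1 : ℝ)) * (‖x‖ ^ 2 + ‖y‖ ^ 2) := by
  rw [E_norm_sq, E_norm_sq, E_norm_sq i x, E_norm_sq i y]
  have h1 := nj_ineq (univ : Finset (Fin (kk i))) (fun t => x.snd t) (fun t => y.snd t)
    (one_le_pp i) (pp_le_two i)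
  rw [four_div_pp] at h1
  have h2 := parallelogram_law_with_norm ℝ x.fst y.fst
  have h3 : (2 : ℝ) ≤ (2 : ℝ) ^ (1 + 1 / (i + 1 : ℝ)) := by
    conv_lhs => rw [← Real.rpow_one 2]
    apply Real.rpow_le_rpow_of_exponent_le (by norm_num)
    have : 0 ≤ 1 / (i + 1 : ℝ) := by positivity
    linarith
  have h4 : 0 ≤ ‖x.fst‖ ^ 2 + ‖y.fst‖ ^ 2 := by positivity
  have h5 : 2 * (‖x.fst‖ ^ 2 + ‖y.fst‖ ^ 2) ≤
      (2 : ℝ) ^ (1 + 1 / (i + 1 : ℝ)) * (‖x.fst‖ ^ 2 + ‖y.fst‖ ^ 2) := by gcongr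
  simp only [WithLp.add_fst, WithLp.sub_fst, WithLp.add_snd, WithLp.sub_snd, PiLp.add_apply,
    PiLp.sub_apply]
  have h6 : ‖x.fst + y.fst‖ ^ 2 + ‖x.fst - y.fst‖ ^ 2 = 2 * (‖x.fst‖ ^ 2 + ‖y.fst‖ ^ 2) := by
    nlinarith [h2]
  linarith

/-- The constants: the unit vectors of `ℓ²`. -/
def ee (i n : ℕ) : E i := WithLp.toLp 2 (lp.single 2 n (1 : ℝ), 0)

lemma jj_ee (i m n : ℕ) : inner ℝ (jj i (ee i m)) (jj i (ee i n)) = if m = n then (1 : ℝ) else 0 := by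
  rw [WithLp.prod_inner_apply]
  have : (inner ℝ (lp.single 2 m (1 : ℝ) : l2) (lp.single 2 n (1 : ℝ) : l2) : ℝ) =
      if m = n then 1 else 0 := by
    rw [lp.inner_single_left]
    simp only [lp.single_apply, RCLike.inner_apply]
    by_cases h : m = n
    · subst h; simp
    · simp [h]
  simp [jj, ee, this]
  rfl

lemma ee_le (i n : ℕ) : ‖ee i n‖ ≤ 1 := by
  have : ‖ee i n‖ ^ 2 = 1 := by
    rw [E_norm_sq]
    have hp := pp_pos i
    simp [ee, Real.zero_rpow hp.ne', Real.zero_rpow (div_pos two_pos hp).ne']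
  nlinarith [norm_nonneg (ee i n)]

/-- The structure number `i`. -/
def MM (i : ℕ) : Struc sig := mkStruc (E i) (H i) (jj i) (jj_le i) (ee i) (ee_le i)

/-- The theory: all sentences which hold in all the structures `MM i`. -/
def TT : Theory sig := {φ | ∀ i, value (MM i) φ = 0}

end

end Pool.Agent.Lib.MP_4e4c79_lc.Incomplete
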