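import Mathlib
import Pool.Agent.Lib.MP_4e4c79_lc.Hilb

/-!
Banach spaces with an equivalent inner product.
-/

namespace Pool.Agent.Lib.MP_4e4c79_lc

open TopologicalSpace

/-- Synonym of a vector space, to carry a second norm. -/
def Syn (E : Type) : Type := E

instance (E : Type) [h : AddCommGroup E] : AddCommGroup (Syn E) := h

instance (E : Type) [AddCommGroup E] [h : Module ℝ E] : Module ℝ (Syn E) := h

/-- A Banach space with an equivalent inner product is linearly homeomorphic to a Hilbert space. -/
theorem exists_hilbert_of_form (E : Type) [NormedAddCommGroup E] [NormedSpace ℝ E] [CompleteSpace E]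
    (b : E → E → ℝ) (hsymm : ∀ x y, b x y = b y x)
    (hadd : ∀ x y z, b (x + y) z = b x z + b y z) (hsmul : ∀ (c : ℝ) x y, b (c • x) y = c * b x y)
    (K C : ℝ) (hK : 0 < K) (hC : 0 < C)
    (hup : ∀ x, b x x ≤ K ^ 2 * ‖x‖ ^ 2) (hlow : ∀ x, ‖x‖ ^ 2 ≤ C ^ 2 * b x x) :
    ∃ (H : Type) (_ : NormedAddCommGroup H) (_ : InnerProductSpace ℝ H) (_ : CompleteSpace H),
      Nonempty (E ≃L[ℝ] H) := by
  have hpos : ∀ x, 0 ≤ b x x := by
    intro x
    have h1 := hlow x
    have h2 : 0 ≤ C ^ 2 * b x x := (sq_nonneg _).trans h1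
    exact nonneg_of_mul_nonneg_right h2 (by positivity)
  have hdef : ∀ x : E, b x x = 0 → x = 0 := by
    intro x hx
    have h1 := hlow x
    rw [hx, mul_zero] at h1
    have h3 : ‖x‖ = 0 := by
      have := sq_nonneg ‖x‖
      nlinarith [norm_nonneg x]
    exact norm_eq_zero.1 h3
  let core : InnerProductSpace.Core ℝ (Syn E) :=
    { inner := fun x y => b x y
      conj_inner_symm := fun x y => by simpa using hsymm y x
      re_inner_nonneg := fun x => by simpa using hpos x
      add_left := fun x y z => hadd x y z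
      smul_left := fun x y r => hsmul r x y
      definite := fun x hx => hdef x hx }
  let i1 : NormedAddCommGroup (Syn E) := core.toNormedAddCommGroup
  let i2 : InnerProductSpace ℝ (Syn E) := InnerProductSpace.ofCore core.toCore
  have hnorm : ∀ x : Syn E, ‖x‖ ^ 2 = b x x := by
    intro x
    rw [← real_inner_self_eq_norm_sq x]
    rfl
  let f : E ≃ₗ[ℝ] Syn E :=
    { toFun := fun x => x
      invFun := fun x => x
      left_inv := fun _ => rfl
      right_inv := fun _ => rfl
      map_add' := fun _ _ => rfl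
      map_smul' := fun _ _ => rfl }
  have hf : ∀ x : E, ‖f x‖ ≤ K * ‖x‖ := by
    intro x
    have h1 : ‖f x‖ ^ 2 = b x x := hnorm x
    have h2 := hup x
    rw [← h1, ← mul_pow] at h2
    exact le_of_sq_le_sq h2 (by positivity)
  have hf' : ∀ x : Syn E, ‖f.symm x‖ ≤ C * ‖x‖ := by
    intro x
    have h1 : ‖x‖ ^ 2 = b x x := hnorm x
    have h2 := hlow x
    rw [← h1, ← mul_pow] at h2
    exact le_of_sq_le_sq h2 (by positivity)
  let e : E ≃L[ℝ] Syn E :=
    { f with
      continuous_toFun := (f.toLinearMap.mkContinuous K hf).continuous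
      continuous_invFun := (f.symm.toLinearMap.mkContinuous C hf').continuous }
  refine ⟨Syn E, i1, i2, ?_, ⟨e⟩⟩
  exact (completeSpace_congr (e := e.toEquiv) e.isUniformEmbedding).1 inferInstance

/-- A separable infinite-dimensional Banach space which is linearly homeomorphic to a Hilbert space is
linearly homeomorphic to `ℓ²`. -/
theorem nonempty_equiv_l2 (E : Type) [NormedAddCommGroup E] [NormedSpace ℝ E] [SeparableSpace E]
    (hinf : ¬ FiniteDimensional ℝ E) (H : Type) [NormedAddCommGroup H] [InnerProductSpace ℝ H]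
    [CompleteSpace H] (e : E ≃L[ℝ] H) : Nonempty (E ≃L[ℝ] lp (fun _ : ℕ => ℝ) 2) := by
  have hs : SeparableSpace H := by
    have : DenseRange e := e.surjective.denseRange
    exact this.separableSpace e.continuous
  have hi : ¬ FiniteDimensional ℝ H := fun h => hinf (e.symm.toLinearEquiv.finiteDimensional)
  obtain ⟨g⟩ := exists_l2_equiv H hi
  exact ⟨e.trans g.toContinuousLinearEquiv⟩

/-- `ℓ²` is separable. -/
theorem separable_l2 : SeparableSpace (lp (fun _ : ℕ => ℝ) 2) := by
  let b : HilbertBasis ℕ ℝ (lp (fun _ : ℕ => ℝ) 2) := ⟨LinearIsometryEquiv.refl ℝ _⟩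
  have h : IsSeparable (closure (Submodule.span ℝ (Set.range b) : Set (lp (fun _ : ℕ => ℝ) 2))) :=
    ((Set.countable_range b).isSeparable.span (R := ℝ)).closure
  have h2 : closure (Submodule.span ℝ (Set.range b) : Set (lp (fun _ : ℕ => ℝ) 2)) = Set.univ := by
    have := b.dense_span
    rw [← Submodule.topologicalClosure_coe, this]
    rfl
  rw [h2] at h
  exact isSeparable_univ_iff.1 h

end Pool.Agent.Lib.MP_4e4c79_lc
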