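import Mathlib
import Pool.Agent.Lib.MP_4e4c79_lc.Incomplete
import Pool.Agent.Lib.MP_4e4c79_lc.Renorm

/-!
Every separable model of the theory `TT` is linearly homeomorphic to `ℓ²`.
-/

namespace Pool.Agent.Lib.MP_4e4c79_lc.Incomplete

open Pool.Agent.Lib.MP_4e4c79_lc Finset TopologicalSpace

noncomputable section

/-- The value of the binary relation symbol. -/
def B (M : Struc sig) (x y : M.carrier) : ℝ := M.rel () ![x, y]

/-- The value of a constant. -/
def cc (M : Struc sig) (n : ℕ) : M.carrier := M.fn n ![]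

/-- The term given by a constant. -/
def tc {k : ℕ} (n : ℕ) : Term sig k := Term.fn (L := sig) n ![]

/-- The formula `b(s,t)`. -/
def fb {k : ℕ} (s t : Term sig k) : Formula sig k := Formula.rel (L := sig) () ![s, t]

lemma eval_tc (M : Struc sig) {k : ℕ} (v : Fin k → M.carrier) (n : ℕ) :
    (tc n : Term sig k).eval M v = cc M n := by
  simp only [tc, Term.eval, cc]
  congr 1
  funext i
  exact i.elim0

lemma eval_fb (M : Struc sig) {k : ℕ} (v : Fin k → M.carrier) (s t : Term sig k) :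
    (fb s t).eval M v = B M (s.eval M v) (t.eval M v) := by
  simp only [fb, Formula.eval, B]
  congr 1
  funext i
  refine Fin.cases ?_ (fun i => ?_) i
  · rfl
  · refine Fin.cases ?_ (fun i => i.elim0) i
    rfl

/-- Unary connective. -/
def c1 {L : Signature} {k : ℕ} (g : ℝ → ℝ) (hg : Continuous g) (φ : Formula L k) : Formula L k :=
  Formula.conn 1 ⟨fun x => g (x 0), hg.comp (continuous_apply 0)⟩ ![φ]

/-- Binary connective. -/
def c2 {L : Signature} {k : ℕ} (g : ℝ → ℝ → ℝ) (hg : Continuous fun p : ℝ × ℝ => g p.1 p.2)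
    (φ ψ : Formula L k) : Formula L k :=
  Formula.conn 2 ⟨fun x => g (x 0) (x 1),
    Continuous.comp (g := fun p : ℝ × ℝ => g p.1 p.2) (f := fun x : Fin 2 → ℝ => (x 0, x 1)) hg
      ((continuous_apply 0).prodMk (continuous_apply 1))⟩ ![φ, ψ]

/-- Ternary connective. -/
def c3 {L : Signature} {k : ℕ} (g : ℝ → ℝ → ℝ → ℝ)
    (hg : Continuous fun p : ℝ × ℝ × ℝ => g p.1 p.2.1 p.2.2)
    (φ ψ χ : Formula L k) : Formula L k :=
  Formula.conn 3 ⟨fun x => g (x 0) (x 1) (x 2),
    Continuous.comp (g := fun p : ℝ × ℝ × ℝ => g p.1 p.2.1 p.2.2)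
      (f := fun x : Fin 3 → ℝ => (x 0, x 1, x 2)) hg
      ((continuous_apply 0).prodMk ((continuous_apply 1).prodMk (continuous_apply 2)))⟩
    ![φ, ψ, χ]

/-- Quaternary connective. -/
def c4 {L : Signature} {k : ℕ} (g : ℝ → ℝ → ℝ → ℝ → ℝ)
    (hg : Continuous fun p : ℝ × ℝ × ℝ × ℝ => g p.1 p.2.1 p.2.2.1 p.2.2.2)
    (φ ψ χ ω : Formula L k) : Formula L k :=
  Formula.conn 4 ⟨fun x => g (x 0) (x 1) (x 2) (x 3),
    Continuous.comp (g := fun p : ℝ × ℝ × ℝ × ℝ => g p.1 p.2.1 p.2.2.1 p.2.2.2)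
      (f := fun x : Fin 4 → ℝ => (x 0, x 1, x 2, x 3)) hg
      ((continuous_apply 0).prodMk ((continuous_apply 1).prodMk
        ((continuous_apply 2).prodMk (continuous_apply 3))))⟩
    ![φ, ψ, χ, ω]

@[simp] lemma eval_c1 {L : Signature} (M : Struc L) {k : ℕ} (v : Fin k → M.carrier) (g : ℝ → ℝ)
    (hg : Continuous g) (φ : Formula L k) : (c1 g hg φ).eval M v = g (φ.eval M v) := rfl

@[simp] lemma eval_c2 {L : Signature} (M : Struc L) {k : ℕ} (v : Fin k → M.carrier)
    (g : ℝ → ℝ → ℝ) (hg : Continuous fun p : ℝ × ℝ => g p.1 p.2) (φ ψ : Formula L k) :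
    (c2 g hg φ ψ).eval M v = g (φ.eval M v) (ψ.eval M v) := rfl

@[simp] lemma eval_c3 {L : Signature} (M : Struc L) {k : ℕ} (v : Fin k → M.carrier)
    (g : ℝ → ℝ → ℝ → ℝ) (hg : Continuous fun p : ℝ × ℝ × ℝ => g p.1 p.2.1 p.2.2)
    (φ ψ χ : Formula L k) :
    (c3 g hg φ ψ χ).eval M v = g (φ.eval M v) (ψ.eval M v) (χ.eval M v) := rfl

@[simp] lemma eval_c4 {L : Signature} (M : Struc L) {k : ℕ} (v : Fin k → M.carrier)
    (g : ℝ → ℝ → ℝ → ℝ → ℝ)
    (hg : Continuous fun p : ℝ × ℝ × ℝ × ℝ => g p.1 p.2.1 p.2.2.1 p.2.2.2)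
    (φ ψ χ ω : Formula L k) :
    (c4 g hg φ ψ χ ω).eval M v =
      g (φ.eval M v) (ψ.eval M v) (χ.eval M v) (ω.eval M v) := rfl

/-- Additivity of `b` in the first argument. -/
def axAdd : Formula sig 3 :=
  c3 (fun a b c => |a - b - c|) (by fun_prop)
    (fb (.add (.var 0) (.var 1)) (.var 2)) (fb (.var 0) (.var 2)) (fb (.var 1) (.var 2))

/-- Homogeneity of `b` in the first argument. -/
def axSmul (c : ℝ) : Formula sig 2 :=
  c2 (fun a b => |a - c * b|) (by fun_prop) (fb (.smul c (.var 0)) (.var 1)) (fb (.var 0) (.var 1))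

/-- Symmetry of `b`. -/
def axSymm : Formula sig 2 :=
  c2 (fun a b => |a - b|) (by fun_prop) (fb (.var 0) (.var 1)) (fb (.var 1) (.var 0))

/-- Upper bound of `b`. -/
def axUp : Formula sig 1 :=
  c2 (fun a b => max (a - b ^ 2) 0) (by fun_prop) (fb (.var 0) (.var 0)) (.norm (.var 0))

/-- The constants are orthonormal for `b`. -/
def axConst (m n : ℕ) : Formula sig 0 :=
  c1 (fun a => |a - if m = n then 1 else 0|) (by fun_prop) (fb (tc m) (tc n))

/-- The defect of the inequality `‖x+y‖² + ‖x-y‖² ≤ C (‖x‖² + ‖y‖²)`. -/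
def fNJ (C : ℝ) : Formula sig 2 :=
  c4 (fun a b c d => max (a ^ 2 + b ^ 2 - C * (c ^ 2 + d ^ 2)) 0) (by fun_prop)
    (.norm (.add (.var 0) (.var 1))) (.norm (.add (.var 0) (.smul (-1) (.var 1))))
    (.norm (.var 0)) (.norm (.var 1))

/-- The defect of the inequality `‖x‖² ≤ D b(x,x)`. -/
def fLow (D : ℝ) : Formula sig 1 :=
  c2 (fun a b => max (a ^ 2 - D * b) 0) (by fun_prop) (.norm (.var 0)) (fb (.var 0) (.var 0))

/-- Either the von Neumann-Jordan constant is small, or the form is equivalent to the norm. -/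
def axAlt (j : ℕ) : Formula sig 0 :=
  c2 (fun a b => min a b) (by fun_prop)
    (Formula.allBall 2 1 (fNJ ((2 : ℝ) ^ (1 + 1 / (j + 1 : ℝ)))))
    (Formula.allBall 1 1 (fLow (((j : ℝ) + 1) ^ 2)))

lemma B_MM (i : ℕ) (x y : E i) : B (MM i) x y = inner ℝ (jj i x) (jj i y) := rfl

lemma cc_MM (i n : ℕ) : cc (MM i) n = ee i n := rfl

lemma TT_add (r : ℕ) : Formula.allBall 3 r axAdd ∈ TT := by
  intro i
  rw [Formula.value_allBall_eq_zero _ _ _ fun v _ => by simp only [axAdd, eval_c3]; positivity]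
  intro v _
  simp only [axAdd, eval_c3, eval_fb, Term.eval]
  have key : ∀ x y z : E i, |inner ℝ (jj i (x + y)) (jj i z) - inner ℝ (jj i x) (jj i z) -
      inner ℝ (jj i y) (jj i z)| = 0 := by
    intro x y z
    rw [map_add, inner_add_left]
    simp
  exact key (v 0) (v 1) (v 2)

lemma TT_smul (c : ℝ) (r : ℕ) : Formula.allBall 2 r (axSmul c) ∈ TT := by
  intro i
  rw [Formula.value_allBall_eq_zero _ _ _ fun v _ => by simp only [axSmul, eval_c2]; positivity]
  intro v _
  simp only [axSmul, eval_c2, eval_fb, Term.eval]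
  have key : ∀ x y : E i, |inner ℝ (jj i (c • x)) (jj i y) - c * inner ℝ (jj i x) (jj i y)| = 0 := by
    intro x y
    rw [map_smul, real_inner_smul_left]
    simp
  exact key (v 0) (v 1)

lemma TT_symm (r : ℕ) : Formula.allBall 2 r axSymm ∈ TT := by
  intro i
  rw [Formula.value_allBall_eq_zero _ _ _ fun v _ => by simp only [axSymm, eval_c2]; positivity]
  intro v _
  simp only [axSymm, eval_c2, eval_fb, Term.eval]
  have key : ∀ x y : E i, |inner ℝ (jj i x) (jj i y) - inner ℝ (jj i y) (jj i x)| = 0 := by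
    intro x y
    rw [real_inner_comm]
    simp
  exact key (v 0) (v 1)

lemma TT_up (r : ℕ) : Formula.allBall 1 r axUp ∈ TT := by
  intro i
  rw [Formula.value_allBall_eq_zero _ _ _ fun v _ => by
    simp only [axUp, eval_c2]; exact le_max_right _ _]
  intro v _
  simp only [axUp, eval_c2, eval_fb, Term.eval, Formula.eval]
  have key : ∀ x : E i, max (inner ℝ (jj i x) (jj i x) - ‖x‖ ^ 2) 0 = 0 := by
    intro x
    rw [real_inner_self_eq_norm_sq, max_eq_right]
    have := jj_le i x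
    have h0 := norm_nonneg (jj i x)
    nlinarith
  exact key (v 0)

lemma TT_const (m n : ℕ) : axConst m n ∈ TT := by
  intro i
  simp only [axConst, value, eval_c1, eval_fb, eval_tc]
  rw [cc_MM, cc_MM, B_MM, jj_ee]
  simp

lemma TT_alt (j : ℕ) : axAlt j ∈ TT := by
  intro i
  have h0 : 0 ≤ value (MM i) (Formula.allBall 2 1 (fNJ ((2 : ℝ) ^ (1 + 1 / (j + 1 : ℝ))))) :=
    Formula.value_allBall_nonneg _ _ _ fun v _ => by
      simp only [fNJ, eval_c4]; exact le_max_right _ _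
  have h1 : 0 ≤ value (MM i) (Formula.allBall 1 1 (fLow (((j : ℝ) + 1) ^ 2))) :=
    Formula.value_allBall_nonneg _ _ _ fun v _ => by
      simp only [fLow, eval_c2]; exact le_max_right _ _
  change min (value (MM i) (Formula.allBall 2 1 (fNJ ((2 : ℝ) ^ (1 + 1 / (j + 1 : ℝ))))))
    (value (MM i) (Formula.allBall 1 1 (fLow (((j : ℝ) + 1) ^ 2)))) = 0
  rcases le_total j i with hji | hij
  · have h2 : value (MM i) (Formula.allBall 2 1 (fNJ ((2 : ℝ) ^ (1 + 1 / (j + 1 : ℝ))))) = 0 := by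
      rw [Formula.value_allBall_eq_zero _ _ _ fun v _ => by
        simp only [fNJ, eval_c4]; exact le_max_right _ _]
      intro v _
      simp only [fNJ, eval_c4, Term.eval, Formula.eval]
      have key : ∀ x y : E i, max (‖x + y‖ ^ 2 + ‖x + (-1 : ℝ) • y‖ ^ 2 -
          (2 : ℝ) ^ (1 + 1 / (j + 1 : ℝ)) * (‖x‖ ^ 2 + ‖y‖ ^ 2)) 0 = 0 := by
        intro x y
        rw [max_eq_right]
        have h3 := E_nj i x y
        have h4 : (2 : ℝ) ^ (1 + 1 / (i + 1 : ℝ)) ≤ (2 : ℝ) ^ (1 + 1 / (j + 1 : ℝ)) := by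
          apply Real.rpow_le_rpow_of_exponent_le (by norm_num)
          gcongr
        have h5 : (2 : ℝ) ^ (1 + 1 / (i + 1 : ℝ)) * (‖x‖ ^ 2 + ‖y‖ ^ 2) ≤
            (2 : ℝ) ^ (1 + 1 / (j + 1 : ℝ)) * (‖x‖ ^ 2 + ‖y‖ ^ 2) := by
          gcongr
        rw [neg_one_smul, ← sub_eq_add_neg]
        linarith
      exact key (v 0) (v 1)
    rw [h2]
    exact min_eq_left h1
  · have h2 : value (MM i) (Formula.allBall 1 1 (fLow (((j : ℝ) + 1) ^ 2))) = 0 := by
      rw [Formula.value_allBall_eq_zero _ _ _ fun v _ => by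
        simp only [fLow, eval_c2]; exact le_max_right _ _]
      intro v _
      simp only [fLow, eval_c2, eval_fb, Term.eval, Formula.eval]
      have key : ∀ x : E i, max (‖x‖ ^ 2 - ((j : ℝ) + 1) ^ 2 * inner ℝ (jj i x) (jj i x)) 0 = 0 := by
        intro x
        rw [real_inner_self_eq_norm_sq, max_eq_right]
        have h3 := E_le i x
        have h4 : ((i : ℝ) + 1) ^ 2 * ‖jj i x‖ ^ 2 ≤ ((j : ℝ) + 1) ^ 2 * ‖jj i x‖ ^ 2 := by
          have : (i : ℝ) ≤ j := by exact_mod_cast hij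
          gcongr
        linarith
      exact key (v 0)
    rw [h2]
    exact min_eq_right h0

section Model

variable (M : Struc sig) (hM : IsModel M TT)

include hM

lemma model_add (x y z : M.carrier) : B M (x + y) z = B M x z + B M y z := by
  have h := Formula.eval_eq_zero_of_allBall M axAdd
    (fun v => by simp only [axAdd, eval_c3]; positivity) (fun r => hM _ (TT_add r)) ![x, y, z]
  simp only [axAdd, eval_c3, eval_fb, Term.eval] at h
  have h' : |B M (x + y) z - B M x z - B M y z| = 0 := h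
  rw [abs_eq_zero] at h'
  linarith

lemma model_smul (c : ℝ) (x y : M.carrier) : B M (c • x) y = c * B M x y := by
  have h := Formula.eval_eq_zero_of_allBall M (axSmul c)
    (fun v => by simp only [axSmul, eval_c2]; positivity) (fun r => hM _ (TT_smul c r)) ![x, y]
  simp only [axSmul, eval_c2, eval_fb, Term.eval] at h
  have h' : |B M (c • x) y - c * B M x y| = 0 := h
  rw [abs_eq_zero] at h'
  linarith

lemma model_symm (x y : M.carrier) : B M x y = B M y x := by
  have h := Formula.eval_eq_zero_of_allBall M axSymm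
    (fun v => by simp only [axSymm, eval_c2]; positivity) (fun r => hM _ (TT_symm r)) ![x, y]
  simp only [axSymm, eval_c2, eval_fb, Term.eval] at h
  have h' : |B M x y - B M y x| = 0 := h
  rw [abs_eq_zero] at h'
  linarith

lemma model_up (x : M.carrier) : B M x x ≤ ‖x‖ ^ 2 := by
  have h := Formula.eval_eq_zero_of_allBall M axUp
    (fun v => by simp only [axUp, eval_c2]; exact le_max_right _ _) (fun r => hM _ (TT_up r)) ![x]
  simp only [axUp, eval_c2, eval_fb, Term.eval, Formula.eval] at h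
  have h' : max (B M x x - ‖x‖ ^ 2) 0 = 0 := h
  have := le_max_left (B M x x - ‖x‖ ^ 2) 0
  linarith

lemma model_const (m n : ℕ) : B M (cc M m) (cc M n) = if m = n then 1 else 0 := by
  have h := hM _ (TT_const m n)
  simp only [axConst, value, eval_c1, eval_fb, eval_tc] at h
  rw [abs_eq_zero] at h
  linarith

/-- The form as a bilinear map. -/
lemma model_infinite : ¬ FiniteDimensional ℝ M.carrier := by
  intro hfin
  let β : M.carrier →ₗ[ℝ] M.carrier →ₗ[ℝ] ℝ := LinearMap.mk₂ ℝ (B M) (model_add M hM)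
    (fun c x y => by simpa using model_smul M hM c x y)
    (fun x y z => by
      rw [model_symm M hM x (y + z), model_add M hM, model_symm M hM y, model_symm M hM z])
    (fun c x y => by
      rw [model_symm M hM x (c • y), model_smul M hM, model_symm M hM y]; simp)
  have hli : LinearIndependent ℝ (cc M) := by
    rw [linearIndependent_iff']
    intro s g hg i hi
    have h1 : β (∑ j ∈ s, g j • cc M j) (cc M i) = 0 := by rw [hg]; simp
    rw [map_sum, LinearMap.sum_apply] at h1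
    have h2 : ∀ j ∈ s, β (g j • cc M j) (cc M i) = if j = i then g i else 0 := by
      intro j _
      rw [map_smul, LinearMap.smul_apply]
      change g j • B M (cc M j) (cc M i) = _
      rw [model_const M hM]
      by_cases h : j = i
      · simp [h]
      · simp [h]
    rw [sum_congr rfl h2, sum_ite_eq' s i, if_pos hi] at h1
    exact h1
  have := hli.finite
  exact not_finite ℕ

theorem model_equiv [SeparableSpace M.carrier] : Nonempty (M.carrier ≃L[ℝ] l2) := by
  have hinf := model_infinite M hM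
  by_cases hcase : ∃ j : ℕ, value M (Formula.allBall 1 1 (fLow (((j : ℝ) + 1) ^ 2))) = 0
  · obtain ⟨j, hj⟩ := hcase
    rw [Formula.value_allBall_eq_zero _ _ _ fun v _ => by
        simp only [fLow, eval_c2]; exact le_max_right _ _] at hj
    have hball : ∀ x : M.carrier, ‖x‖ ≤ 1 → ‖x‖ ^ 2 ≤ ((j : ℝ) + 1) ^ 2 * B M x x := by
      intro x hx
      have h := hj ![x] (fun i => by
        refine Fin.cases ?_ (fun i => i.elim0) i
        simpa using hx)
      simp only [fLow, eval_c2, eval_fb, Term.eval, Formula.eval] at h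
      have h' : max (‖x‖ ^ 2 - ((j : ℝ) + 1) ^ 2 * B M x x) 0 = 0 := h
      have := le_max_left (‖x‖ ^ 2 - ((j : ℝ) + 1) ^ 2 * B M x x) 0
      linarith
    have hlow : ∀ x : M.carrier, ‖x‖ ^ 2 ≤ ((j : ℝ) + 1) ^ 2 * B M x x := by
      intro x
      have hpos : 0 < ‖x‖ + 1 := by positivity
      have h1 := hball ((‖x‖ + 1)⁻¹ • x) (by
        rw [norm_smul, norm_inv, Real.norm_of_nonneg hpos.le, inv_mul_le_iff₀ hpos]
        linarith)
      rw [model_smul M hM, model_symm M hM, model_smul M hM, norm_smul, norm_inv,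
        Real.norm_of_nonneg hpos.le, mul_pow] at h1
      have h2 : (‖x‖ + 1) ^ 2 * ((‖x‖ + 1)⁻¹ ^ 2 * ‖x‖ ^ 2) ≤ (‖x‖ + 1) ^ 2 *
          (((j : ℝ) + 1) ^ 2 * ((‖x‖ + 1)⁻¹ * ((‖x‖ + 1)⁻¹ * B M x x))) := by gcongr
      have h3 : (‖x‖ + 1) ^ 2 * ((‖x‖ + 1)⁻¹ ^ 2 * ‖x‖ ^ 2) = ‖x‖ ^ 2 := by
        field_simp
      have h4 : (‖x‖ + 1) ^ 2 *
          (((j : ℝ) + 1) ^ 2 * ((‖x‖ + 1)⁻¹ * ((‖x‖ + 1)⁻¹ * B M x x))) =
          ((j : ℝ) + 1) ^ 2 * B M x x := by
        field_simp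
      rwa [h3, h4] at h2
    obtain ⟨H, _, _, _, ⟨e⟩⟩ := exists_hilbert_of_form M.carrier (B M) (model_symm M hM)
      (model_add M hM) (model_smul M hM) 1 ((j : ℝ) + 1) one_pos (by positivity)
      (fun x => by simpa using model_up M hM x) hlow
    exact nonempty_equiv_l2 _ hinf H e
  · push Not at hcase
    have hNJ : ∀ j : ℕ, ∀ x y : M.carrier, ‖x‖ ≤ 1 → ‖y‖ ≤ 1 → ‖x + y‖ ^ 2 + ‖x - y‖ ^ 2 ≤
        (2 : ℝ) ^ (1 + 1 / (j + 1 : ℝ)) * (‖x‖ ^ 2 + ‖y‖ ^ 2) := by
      intro j x y hx hy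
      have h1 := hM _ (TT_alt j)
      have h2 : value M (Formula.allBall 2 1 (fNJ ((2 : ℝ) ^ (1 + 1 / (j + 1 : ℝ))))) = 0 := by
        have h3 : min (value M (Formula.allBall 2 1 (fNJ ((2 : ℝ) ^ (1 + 1 / (j + 1 : ℝ))))))
          (value M (Formula.allBall 1 1 (fLow (((j : ℝ) + 1) ^ 2)))) = 0 := h1
        rcases min_choice (value M (Formula.allBall 2 1 (fNJ ((2 : ℝ) ^ (1 + 1 / (j + 1 : ℝ))))))
          (value M (Formula.allBall 1 1 (fLow (((j : ℝ) + 1) ^ 2)))) with h | h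
        · rw [← h, h3]
        · exact absurd (h.symm.trans h3) (hcase j)
      rw [Formula.value_allBall_eq_zero _ _ _ fun v _ => by
        simp only [fNJ, eval_c4]; exact le_max_right _ _] at h2
      have h4 := h2 ![x, y] (fun i => by
        refine Fin.cases ?_ (fun i => ?_) i
        · simpa using hx
        · refine Fin.cases ?_ (fun i => i.elim0) i
          simpa using hy)
      simp only [fNJ, eval_c4, Term.eval, Formula.eval] at h4
      have h5 : max (‖x + y‖ ^ 2 + ‖x + (-1 : ℝ) • y‖ ^ 2 -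
        (2 : ℝ) ^ (1 + 1 / (j + 1 : ℝ)) * (‖x‖ ^ 2 + ‖y‖ ^ 2)) 0 = 0 := h4
      have h6 := le_max_left (‖x + y‖ ^ 2 + ‖x + (-1 : ℝ) • y‖ ^ 2 -
        (2 : ℝ) ^ (1 + 1 / (j + 1 : ℝ)) * (‖x‖ ^ 2 + ‖y‖ ^ 2)) 0
      rw [neg_one_smul, ← sub_eq_add_neg] at h5 h6
      linarith
    have hle1 : ∀ x y : M.carrier, ‖x‖ ≤ 1 → ‖y‖ ≤ 1 → ‖x + y‖ ^ 2 + ‖x - y‖ ^ 2 ≤
        2 * (‖x‖ ^ 2 + ‖y‖ ^ 2) := by
      intro x y hx hy
      have hlim : Filter.Tendsto (fun j : ℕ => (2 : ℝ) ^ (1 + 1 / (j + 1 : ℝ)) *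
          (‖x‖ ^ 2 + ‖y‖ ^ 2)) Filter.atTop (nhds ((2 : ℝ) ^ ((1 : ℝ) + 0) *
          (‖x‖ ^ 2 + ‖y‖ ^ 2))) := by
        apply Filter.Tendsto.mul_const
        apply Filter.Tendsto.rpow tendsto_const_nhds _ (Or.inl two_ne_zero)
        exact tendsto_const_nhds.add tendsto_one_div_add_atTop_nhds_zero_nat
      have := ge_of_tendsto' hlim (fun j => hNJ j x y hx hy)
      simpa using this
    have hle : ∀ x y : M.carrier, ‖x + y‖ ^ 2 + ‖x - y‖ ^ 2 ≤ 2 * (‖x‖ ^ 2 + ‖y‖ ^ 2) := by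
      intro x y
      have hpos : 0 < ‖x‖ + ‖y‖ + 1 := by positivity
      set c : ℝ := (‖x‖ + ‖y‖ + 1)⁻¹ with hc
      have hcpos : 0 < c := inv_pos.2 hpos
      have hx : ‖c • x‖ ≤ 1 := by
        rw [norm_smul, Real.norm_of_nonneg hcpos.le, hc, inv_mul_le_iff₀ hpos]
        linarith [norm_nonneg y]
      have hy : ‖c • y‖ ≤ 1 := by
        rw [norm_smul, Real.norm_of_nonneg hcpos.le, hc, inv_mul_le_iff₀ hpos]
        linarith [norm_nonneg x]
      have h1 := hle1 (c • x) (c • y) hx hy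
      rw [← smul_add, ← smul_sub, norm_smul, norm_smul, norm_smul, norm_smul,
        Real.norm_of_nonneg hcpos.le, mul_pow, mul_pow, mul_pow, mul_pow] at h1
      have h2 : 0 < c ^ 2 := by positivity
      nlinarith
    have heq : ∀ x y : M.carrier, ‖x + y‖ * ‖x + y‖ + ‖x - y‖ * ‖x - y‖ =
        2 * (‖x‖ * ‖x‖ + ‖y‖ * ‖y‖) := by
      intro x y
      have h1 := hle x y
      have h2 := hle (x + y) (x - y)
      have h3 : (x + y) + (x - y) = (2 : ℝ) • x := by rw [two_smul]; abel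
      have h4 : (x + y) - (x - y) = (2 : ℝ) • y := by rw [two_smul]; abel
      rw [h3, h4, norm_smul, norm_smul, Real.norm_two] at h2
      nlinarith
    let _ : InnerProductSpace ℝ M.carrier := InnerProductSpace.ofNorm ℝ heq
    exact nonempty_equiv_l2 _ hinf M.carrier (ContinuousLinearEquiv.refl ℝ _)

end Model

end

end Pool.Agent.Lib.MP_4e4c79_lc.Incomplete
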