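import Mathlib
import Pool.Agent.Lib.MP_4e4c79_lc.Facts
import Pool.Agent.Lib.MP_4e4c79_lc.Models

/-!
Transfer of quantifier-free identities and inequalities between structures.
-/

namespace Pool.Agent.Lib.MP_4e4c79_lc

section General

variable {L : Signature}

/-- The sentence saying that the value of `φ` is `c`. -/
lemma value_eq_of_isModel {M N : Struc L} (hN : IsModel N (theoryOf M)) (φ : Formula L 0) :
    value N φ = value M φ := by
  have h : Incomplete.c1 (fun x => |x - value M φ|) (by fun_prop) φ ∈ theoryOf M := by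
    change value M _ = 0
    unfold value
    rw [Incomplete.eval_c1, sub_self, abs_zero]
  have h1 := hN _ h
  unfold value at h1
  rw [Incomplete.eval_c1, abs_eq_zero] at h1
  unfold value
  linarith

theorem isComplete_theoryOf (M : Struc L) : IsComplete (theoryOf M) :=
  ⟨⟨M, fun _ h => h⟩, fun _ _ hM hN φ =>
    (value_eq_of_isModel hM φ).trans (value_eq_of_isModel hN φ).symm⟩

lemma transfer {M N : Struc L} (hN : IsModel N (theoryOf M)) {k : ℕ} (φ : Formula L k)
    (h : ∀ v : Fin k → M.carrier, φ.eval M v = 0) (v : Fin k → N.carrier) : φ.eval N v = 0 := by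
  have h1 : ∀ r : ℕ, value N (Formula.allBall k r (Incomplete.c1 (fun x => |x|) (by fun_prop) φ)) =
      0 := by
    intro r
    apply hN
    change value M _ = 0
    rw [Formula.value_allBall_eq_zero _ _ _ fun v _ => by rw [Incomplete.eval_c1]; positivity]
    intro v _
    rw [Incomplete.eval_c1, h v, abs_zero]
  have h2 := Formula.eval_eq_zero_of_allBall N (Incomplete.c1 (fun x => |x|) (by fun_prop) φ)
    (fun v => by rw [Incomplete.eval_c1]; positivity) h1 v
  rw [Incomplete.eval_c1, abs_eq_zero] at h2
  exact h2

lemma transfer_le {M N : Struc L} (hN : IsModel N (theoryOf M)) {k : ℕ} (φ ψ : Formula L k)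
    (h : ∀ v : Fin k → M.carrier, φ.eval M v ≤ ψ.eval M v) (v : Fin k → N.carrier) :
    φ.eval N v ≤ ψ.eval N v := by
  have h1 := transfer hN (Incomplete.c2 (fun a b => max (a - b) 0) (by fun_prop) φ ψ)
    (fun v => by
      rw [Incomplete.eval_c2, max_eq_right]
      linarith [h v]) v
  rw [Incomplete.eval_c2] at h1
  have := le_max_left (φ.eval N v - ψ.eval N v) 0
  linarith

lemma transfer_eq {M N : Struc L} (hN : IsModel N (theoryOf M)) {k : ℕ} (φ ψ : Formula L k)
    (h : ∀ v : Fin k → M.carrier, φ.eval M v = ψ.eval M v) (v : Fin k → N.carrier) :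
    φ.eval N v = ψ.eval N v :=
  le_antisymm (transfer_le hN φ ψ (fun v => (h v).le) v)
    (transfer_le hN ψ φ (fun v => (h v).ge) v)

/-- Difference of terms. -/
def Term.sub {k : ℕ} (s t : Term L k) : Term L k := .add s (.smul (-1) t)

lemma Term.eval_sub (M : Struc L) {k : ℕ} (v : Fin k → M.carrier) (s t : Term L k) :
    (s.sub t).eval M v = s.eval M v - t.eval M v := by
  simp only [Term.sub, Term.eval]
  rw [neg_one_smul, sub_eq_add_neg]

lemma transfer_term {M N : Struc L} (hN : IsModel N (theoryOf M)) {k : ℕ} (s t : Term L k)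
    (h : ∀ v : Fin k → M.carrier, s.eval M v = t.eval M v) (v : Fin k → N.carrier) :
    s.eval N v = t.eval N v := by
  have h1 := transfer hN (.norm (s.sub t)) (fun v => by
    simp only [Formula.eval]
    rw [Term.eval_sub, h v, sub_self, norm_zero]) v
  simp only [Formula.eval] at h1
  rw [Term.eval_sub, norm_eq_zero, sub_eq_zero] at h1
  exact h1

/-- Finite sums of terms. -/
def Term.sum {k : ℕ} : ℕ → (ℕ → Term L k) → Term L k
  | 0, _ => .zero
  | m + 1, f => .add (Term.sum m f) (f m)

lemma Term.eval_sum (M : Struc L) {k : ℕ} (v : Fin k → M.carrier) (m : ℕ) (f : ℕ → Term L k) :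
    (Term.sum m f).eval M v = ∑ i ∈ Finset.range m, (f i).eval M v := by
  induction m with
  | zero => rfl
  | succ m ih =>
    rw [Finset.sum_range_succ, ← ih]
    rfl

/-- Finite sums of formulas. -/
noncomputable def Formula.sum {k : ℕ} : ℕ → (ℕ → Formula L k) → Formula L k
  | 0, _ => .norm .zero
  | m + 1, f => Incomplete.c2 (fun a b => a + b) (by fun_prop) (Formula.sum m f) (f m)

lemma Formula.eval_sum (M : Struc L) {k : ℕ} (v : Fin k → M.carrier) (m : ℕ)
    (f : ℕ → Formula L k) :
    (Formula.sum m f).eval M v = ∑ i ∈ Finset.range m, (f i).eval M v := by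
  induction m with
  | zero =>
    change ‖(0 : M.carrier)‖ = _
    simp
  | succ m ih =>
    rw [Finset.sum_range_succ, ← ih]
    rfl

/-- Sums of lists of terms. -/
def Term.listSum {k : ℕ} (l : List (Term L k)) : Term L k := l.foldr .add .zero

lemma Term.eval_listSum (M : Struc L) {k : ℕ} (v : Fin k → M.carrier) (l : List (Term L k)) :
    (Term.listSum l).eval M v = (l.map fun t => t.eval M v).sum := by
  induction l with
  | nil => rfl
  | cons t l ih =>
    rw [List.map_cons, List.sum_cons, ← ih]
    rfl

end General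

namespace Complete

open Finset

noncomputable section

variable {k : ℕ}

/-- Constants as terms. -/
def tE (n i s l : ℕ) : Term sig k := Term.fn (L := sig) (.e n i s l) ![]

/-- Projection symbols applied to terms. -/
def tT (n m : ℕ) (t : Term sig k) : Term sig k := Term.fn (L := sig) (.T n m) ![t]

/-- Map symbols applied to terms. -/
def tF (r : ℕ → Bool) (s t : Term sig k) : Term sig k := Term.fn (L := sig) (.f r) ![s, t]

/-- The form applied to terms. -/
def fB (s t : Term sig k) : Formula sig k := Formula.rel (L := sig) () ![s, t]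

variable (N : Struc sig)

/-- Values of constants. -/
def cE (n i s l : ℕ) : N.carrier := N.fn (.e n i s l) ![]

/-- Values of the projections. -/
def cT (n m : ℕ) (x : N.carrier) : N.carrier := N.fn (.T n m) ![x]

/-- Values of the maps. -/
def cF (r : ℕ → Bool) (x y : N.carrier) : N.carrier := N.fn (.f r) ![x, y]

/-- Values of the form. -/
def cB (x y : N.carrier) : ℝ := N.rel () ![x, y]

lemma eval_tE (v : Fin k → N.carrier) (n i s l : ℕ) : (tE n i s l).eval N v = cE N n i s l := by
  simp only [tE, Term.eval, cE]
  congr 1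
  funext i
  exact i.elim0

lemma eval_tT (v : Fin k → N.carrier) (n m : ℕ) (t : Term sig k) :
    (tT n m t).eval N v = cT N n m (t.eval N v) := by
  simp only [tT, Term.eval, cT]
  congr 1
  funext i
  refine Fin.cases ?_ (fun i => i.elim0) i
  rfl

lemma eval_tF (v : Fin k → N.carrier) (r : ℕ → Bool) (s t : Term sig k) :
    (tF r s t).eval N v = cF N r (s.eval N v) (t.eval N v) := by
  simp only [tF, Term.eval, cF]
  congr 1
  funext i
  refine Fin.cases ?_ (fun i => ?_) i
  · rfl
  · refine Fin.cases ?_ (fun i => i.elim0) i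
    rfl

lemma eval_fB (v : Fin k → N.carrier) (s t : Term sig k) :
    (fB s t).eval N v = cB N (s.eval N v) (t.eval N v) := by
  simp only [fB, Formula.eval, cB]
  congr 1
  funext i
  refine Fin.cases ?_ (fun i => ?_) i
  · rfl
  · refine Fin.cases ?_ (fun i => i.elim0) i
    rfl

lemma eval_norm (v : Fin k → N.carrier) (t : Term sig k) :
    (Formula.norm t).eval N v = ‖t.eval N v‖ := rfl

variable (D : Dat)

lemma cE_str (n i s l : ℕ) : cE D.str n i s l = D.ec n i s l := rfl

lemma cT_str (n m : ℕ) (x : D.X) : cT D.str n m x = D.TT n m x := rfl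

lemma cF_str (r : ℕ → Bool) (x y : D.X) : cF D.str r x y = D.FF r x y := rfl

lemma cB_str (x y : D.X) : cB D.str x y = D.B x y := rfl

end

end Complete

end Pool.Agent.Lib.MP_4e4c79_lc
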