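import Mathlib
import Pool.Agent.Lib.MP_4e4c79_lc.Gram
import Pool.Agent.Lib.MP_4e4c79_lc.Transfer

/-!
Back and forth between the structures `D₁.str` and `D₂.str`.
-/

namespace Pool.Agent.Lib.MP_4e4c79_lc.Complete

open Pool.Agent.Lib.MP_4e4c79_lc Finset
attribute [local instance] Classical.propDecidable
set_option linter.unusedSectionVars false

noncomputable section

/-- A matching of the blocks of two families: blocks with `n + 2` components of dimension at least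
`i₀` are matched among themselves, and all other blocks are matched with blocks of the same shape. -/
structure Match (D₁ D₂ : Dat) (n i₀ : ℕ) (R : Finset (ℕ → Bool)) where
  /-- the bijection of the blocks -/
  β : D₁.A ≃ D₂.A
  kd_eq : ∀ a, D₂.kd (β a) = D₁.kd a
  large_iff : ∀ a, D₁.kd a = n → ((i₀ : ℕ∞) ≤ D₂.sz (β a) ↔ (i₀ : ℕ∞) ≤ D₁.sz a)
  sz_eq : ∀ a, ¬ (D₁.kd a = n ∧ (i₀ : ℕ∞) ≤ D₁.sz a) → D₂.sz (β a) = D₁.sz a
  /-- the bijection of the coordinates of the Hilbert space part -/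
  γ : (D₁.A × D₁.A) × List Bool ≃ (D₂.A × D₂.A) × List Bool
  γ_eq : ∀ r ∈ R, ∀ a b, D₁.kd a ≠ D₁.kd b →
    γ ((a, b), str r (D₁.uu (a, b))) = ((β a, β b), str r (D₂.uu (β a, β b)))

namespace Match

variable {D₁ D₂ : Dat} {n i₀ : ℕ} {R : Finset (ℕ → Bool)}

/-- The inverse matching. -/
def symm (M : Match D₁ D₂ n i₀ R) : Match D₂ D₁ n i₀ R where
  β := M.β.symm
  kd_eq := fun b => by
    obtain ⟨a, rfl⟩ := M.β.surjective b
    rw [Equiv.symm_apply_apply, M.kd_eq]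
  large_iff := fun b hb => by
    obtain ⟨a, rfl⟩ := M.β.surjective b
    rw [M.kd_eq] at hb
    rw [Equiv.symm_apply_apply, M.large_iff a hb]
  sz_eq := fun b hb => by
    obtain ⟨a, rfl⟩ := M.β.surjective b
    rw [Equiv.symm_apply_apply]
    symm
    apply M.sz_eq
    rintro ⟨h1, h2⟩
    exact hb ⟨(M.kd_eq a).trans h1, (M.large_iff a h1).2 h2⟩
  γ := M.γ.symm
  γ_eq := fun r hr a' b' hab => by
    obtain ⟨a, rfl⟩ := M.β.surjective a'
    obtain ⟨b, rfl⟩ := M.β.surjective b'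
    rw [M.kd_eq, M.kd_eq] at hab
    rw [Equiv.symm_apply_apply, Equiv.symm_apply_apply, ← M.γ_eq r hr a b hab,
      Equiv.symm_apply_apply]

variable (M : Match D₁ D₂ n i₀ R)

/-- The large blocks. -/
def Large (_ : Match D₁ D₂ n i₀ R) (a : D₁.A) : Prop := D₁.kd a = n ∧ (i₀ : ℕ∞) ≤ D₁.sz a

lemma large_symm (a : D₁.A) : M.symm.Large (M.β a) ↔ M.Large a := by
  unfold Large
  rw [M.kd_eq]
  constructor
  · rintro ⟨h1, h2⟩
    exact ⟨h1, (M.large_iff a h1).1 h2⟩
  · rintro ⟨h1, h2⟩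
    exact ⟨h1, (M.large_iff a h1).2 h2⟩

/-- The relation between tuples. -/
def Rel {k : ℕ} (v : Fin k → D₁.X) (w : Fin k → D₂.X) : Prop :=
  (∀ a b, M.β a = b → M.Large a → GramEq (fun j => (v j).fst a) (fun j => (w j).fst b)) ∧
  (∀ a b, M.β a = b → ¬ M.Large a → ∀ j, FixEq ((v j).fst a) ((w j).fst b)) ∧
  (∀ j z, (w j).snd (M.γ z) = (v j).snd z)

/-- Pairs of vectors which are defined in the same way from related tuples. -/
def Linked {k : ℕ} (v : Fin k → D₁.X) (w : Fin k → D₂.X) (x : D₁.X) (y : D₂.X) : Prop :=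
  (∀ a b, M.β a = b → M.Large a → ∃ c : Fin k → ℝ, x.fst a = ∑ j, c j • (v j).fst a ∧
    y.fst b = ∑ j, c j • (w j).fst b) ∧
  (∀ a b, M.β a = b → ¬ M.Large a → FixEq (x.fst a) (y.fst b)) ∧
  (∀ z, y.snd (M.γ z) = x.snd z)

lemma rel_symm {k : ℕ} {v : Fin k → D₁.X} {w : Fin k → D₂.X} (h : M.symm.Rel w v) :
    M.Rel v w := by
  obtain ⟨h1, h2, h3⟩ := h
  refine ⟨?_, ?_, ?_⟩
  · rintro a b rfl ha i j p q
    exact (h1 (M.β a) a (M.β.symm_apply_apply a) ((M.large_symm a).2 ha) i j p q).symm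
  · rintro a b rfl ha j p l
    exact (h2 (M.β a) a (M.β.symm_apply_apply a) (fun hc => ha ((M.large_symm a).1 hc)) j p l).symm
  · intro j z
    have h := h3 j (M.γ z)
    have h4 : M.symm.γ (M.γ z) = z := M.γ.symm_apply_apply z
    rw [h4] at h
    exact h.symm

lemma rel_symm' {k : ℕ} {v : Fin k → D₁.X} {w : Fin k → D₂.X} (h : M.Rel v w) :
    M.symm.Rel w v := by
  obtain ⟨h1, h2, h3⟩ := h
  refine ⟨?_, ?_, ?_⟩
  · intro b a hab hb i j p q
    have hab' : M.β a = b := by rw [← hab]; exact M.β.apply_symm_apply b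
    subst hab'
    exact (h1 a _ rfl ((M.large_symm a).1 hb) i j p q).symm
  · intro b a hab hb j p l
    have hab' : M.β a = b := by rw [← hab]; exact M.β.apply_symm_apply b
    subst hab'
    exact (h2 a _ rfl (fun hc => hb ((M.large_symm a).2 hc)) j p l).symm
  · intro j z
    have h4 : M.γ (M.symm.γ z) = z := M.γ.apply_symm_apply z
    have h := h3 j (M.symm.γ z)
    rw [h4] at h
    exact h.symm

section FF

variable {ι Λ : Type} {G : ι → Type} [∀ i, NormedAddCommGroup (G i)]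

lemma ff_apply_pos (P : Set (ι × ι)) (g : ι × ι → Λ) (x y : lp G 2) (z : (ι × ι) × Λ)
    (h : z.2 = g z.1) (hP : z.1 ∈ P) : ff P g x y z = ‖x z.1.1‖ * ‖y z.1.2‖ := by
  rw [ff_apply, if_pos h, if_pos hP]

lemma ff_apply_neg (P : Set (ι × ι)) (g : ι × ι → Λ) (x y : lp G 2) (z : (ι × ι) × Λ)
    (h : ¬ (z.2 = g z.1 ∧ z.1 ∈ P)) : ff P g x y z = 0 := by
  rw [ff_apply]
  by_cases h1 : z.2 = g z.1
  · rw [if_pos h1, if_neg (fun hP => h ⟨h1, hP⟩)]
  · rw [if_neg h1]

end FF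

section Linked

variable {k : ℕ} {v : Fin k → D₁.X} {w : Fin k → D₂.X}

lemma inner_sum_comb {m : ℕ} {s : ℕ∞} {J : Type} [Fintype J] (v : J → BT m s) (c d : J → ℝ)
    (p q : ℕ) : inner ℝ (comp (∑ j, c j • v j) p) (comp (∑ j, d j • v j) q) =
      ∑ i, ∑ j, c i * d j * inner ℝ (comp (v i) p) (comp (v j) q) := by
  rw [comp_sum, comp_sum, sum_inner]
  refine sum_congr rfl fun i _ => ?_
  rw [inner_sum]
  refine sum_congr rfl fun j _ => ?_
  rw [comp_smul, comp_smul, real_inner_smul_left, real_inner_smul_right]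
  ring

/-- Linked vectors have the same inner products in the blocks. -/
lemma linked_inner (hR : M.Rel v w) {x x' : D₁.X} {y y' : D₂.X} (h : M.Linked v w x y)
    (h' : M.Linked v w x' y') (a : D₁.A) (p q : ℕ) :
    inner ℝ (comp (x.fst a) p) (comp (x'.fst a) q) =
      inner ℝ (comp (y.fst (M.β a)) p) (comp (y'.fst (M.β a)) q) := by
  by_cases ha : M.Large a
  · obtain ⟨c, hc1, hc2⟩ := h.1 a _ rfl ha
    obtain ⟨d, hd1, hd2⟩ := h'.1 a _ rfl ha
    rw [hc1, hc2, hd1, hd2, inner_sum_comb, inner_sum_comb]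
    refine sum_congr rfl fun i _ => sum_congr rfl fun j _ => ?_
    rw [hR.1 a _ rfl ha i j p q]
  · exact FixEq.eq_inner (M.sz_eq a ha) (h.2.1 a _ rfl ha) (h'.2.1 a _ rfl ha) p q

lemma linked_norm_apply (hR : M.Rel v w) {x : D₁.X} {y : D₂.X} (h : M.Linked v w x y) (a : D₁.A) :
    ‖y.fst (M.β a)‖ = ‖x.fst a‖ :=
  norm_eq_of_comp (M.kd_eq a) _ _ fun p => M.linked_inner hR h h a p p

lemma linked_norm (hR : M.Rel v w) {x : D₁.X} {y : D₂.X} (h : M.Linked v w x y) :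
    ‖x‖ = ‖y‖ := by
  have h1 : ‖x.fst‖ ^ 2 = ‖y.fst‖ ^ 2 := by
    rw [← tsum_sq, ← tsum_sq, ← M.β.tsum_eq]
    congr 1
    funext a
    rw [M.linked_norm_apply hR h]
  have h2 : ‖x.snd‖ ^ 2 = ‖y.snd‖ ^ 2 := by
    rw [← tsum_sq, ← tsum_sq, ← M.γ.tsum_eq]
    congr 1
    funext z
    rw [h.2.2]
  have h3 : ‖x‖ ^ 2 = ‖y‖ ^ 2 := by rw [Dat.X_norm_sq, Dat.X_norm_sq, h1, h2]
  exact (pow_left_inj₀ (norm_nonneg _) (norm_nonneg _) two_ne_zero).1 h3

lemma bf_eq_range (D : Dat) (a : D.A) (x y : BT (D.kd a) (D.sz a)) :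
    D.bf a x y = ((D.kd a : ℝ) + 2)⁻¹ * ∑ c ∈ range (D.kd a + 2), inner ℝ (comp x c) (comp y c) := by
  unfold Dat.bf
  congr 1
  rw [Finset.sum_range]
  exact sum_congr rfl fun c _ => by rw [comp_lt _ c.2, comp_lt _ c.2]

lemma linked_B (hR : M.Rel v w) {x x' : D₁.X} {y y' : D₂.X} (h : M.Linked v w x y)
    (h' : M.Linked v w x' y') : D₁.B x x' = D₂.B y y' := by
  unfold Dat.B
  congr 1
  · unfold diagForm
    rw [← M.β.tsum_eq]
    congr 1
    funext a
    rw [bf_eq_range, bf_eq_range]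
    have hk : ((D₁.kd a : ℝ) + 2)⁻¹ = ((D₂.kd (M.β a) : ℝ) + 2)⁻¹ := by rw [M.kd_eq a]
    rw [hk]
    congr 1
    exact sum_congr (by rw [M.kd_eq a]) fun c _ => M.linked_inner hR h h' a c c
  · rw [lp.inner_eq_tsum, lp.inner_eq_tsum, ← M.γ.tsum_eq]
    congr 1
    funext z
    rw [h.2.2, h'.2.2]

lemma linked_var (hR : M.Rel v w) (j : Fin k) : M.Linked v w (v j) (w j) := by
  refine ⟨?_, fun a b hab ha => hR.2.1 a b hab ha j, hR.2.2 j⟩
  rintro a b rfl _
  refine ⟨fun i => if i = j then 1 else 0, ?_, ?_⟩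
  · simp
  · simp

lemma fixEq_zero {m m' : ℕ} {s s' : ℕ∞} : FixEq (0 : BT m s) (0 : BT m' s') := by
  intro p l
  rw [comp_zero, comp_zero, inner_zero_left, inner_zero_left]

lemma linked_zero : M.Linked v w 0 0 := by
  refine ⟨?_, fun a b _ _ => fixEq_zero, fun z => rfl⟩
  rintro a b rfl _
  refine ⟨fun _ => 0, ?_, ?_⟩
  · simp
  · simp

lemma linked_add {x x' : D₁.X} {y y' : D₂.X} (h : M.Linked v w x y) (h' : M.Linked v w x' y') :
    M.Linked v w (x + x') (y + y') := by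
  refine ⟨?_, ?_, ?_⟩
  · intro a b hab ha
    obtain ⟨c, hc1, hc2⟩ := h.1 a b hab ha
    obtain ⟨d, hd1, hd2⟩ := h'.1 a b hab ha
    refine ⟨fun j => c j + d j, ?_, ?_⟩
    · rw [WithLp.add_fst, lp.coeFn_add, Pi.add_apply, hc1, hd1, ← sum_add_distrib]
      exact sum_congr rfl fun j _ => (add_smul _ _ _).symm
    · rw [WithLp.add_fst, lp.coeFn_add, Pi.add_apply, hc2, hd2, ← sum_add_distrib]
      exact sum_congr rfl fun j _ => (add_smul _ _ _).symm
  · intro a b hab ha p l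
    rw [WithLp.add_fst, lp.coeFn_add, Pi.add_apply, WithLp.add_fst, lp.coeFn_add, Pi.add_apply,
      comp_add, comp_add, inner_add_left, inner_add_left, h.2.1 a b hab ha p l,
      h'.2.1 a b hab ha p l]
  · intro z
    rw [WithLp.add_snd, lp.coeFn_add, Pi.add_apply, WithLp.add_snd, lp.coeFn_add, Pi.add_apply,
      h.2.2, h'.2.2]

lemma linked_smul (t : ℝ) {x : D₁.X} {y : D₂.X} (h : M.Linked v w x y) :
    M.Linked v w (t • x) (t • y) := by
  refine ⟨?_, ?_, ?_⟩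
  · intro a b hab ha
    obtain ⟨c, hc1, hc2⟩ := h.1 a b hab ha
    refine ⟨fun j => t * c j, ?_, ?_⟩
    · rw [WithLp.smul_fst, lp.coeFn_smul, Pi.smul_apply, hc1, smul_sum]
      exact sum_congr rfl fun j _ => smul_smul _ _ _
    · rw [WithLp.smul_fst, lp.coeFn_smul, Pi.smul_apply, hc2, smul_sum]
      exact sum_congr rfl fun j _ => smul_smul _ _ _
  · intro a b hab ha p l
    rw [WithLp.smul_fst, lp.coeFn_smul, Pi.smul_apply, WithLp.smul_fst, lp.coeFn_smul,
      Pi.smul_apply, comp_smul, comp_smul, real_inner_smul_left, real_inner_smul_left,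
      h.2.1 a b hab ha p l]
  · intro z
    rw [WithLp.smul_snd, lp.coeFn_smul, Pi.smul_apply, WithLp.smul_snd, lp.coeFn_smul,
      Pi.smul_apply, h.2.2]

lemma mem_TS_iff (m l : ℕ) (hl : l ≤ i₀) (a : D₁.A) : M.β a ∈ D₂.TS m l ↔ a ∈ D₁.TS m l := by
  simp only [Dat.TS, Set.mem_ofPred_eq, M.kd_eq]
  have hl' : (l : ℕ∞) ≤ (i₀ : ℕ∞) := by exact_mod_cast hl
  by_cases ha : M.Large a
  · have h1 : (l : ℕ∞) ≤ D₁.sz a := hl'.trans ha.2
    have h2 : (l : ℕ∞) ≤ D₂.sz (M.β a) := hl'.trans ((M.large_iff a ha.1).2 ha.2)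
    simp only [h1, h2]
  · rw [M.sz_eq a ha]

lemma linked_T (m l : ℕ) (hl : l ≤ i₀) {x : D₁.X} {y : D₂.X} (h : M.Linked v w x y) :
    M.Linked v w (D₁.TT m l x) (D₂.TT m l y) := by
  rw [Dat.TT_eq, Dat.TT_eq]
  refine ⟨?_, ?_, ?_⟩
  · rintro a b rfl ha
    obtain ⟨c, hc1, hc2⟩ := h.1 a _ rfl ha
    rw [Dat.M_fst, Dat.M_fst, mask_apply, mask_apply]
    by_cases hT : a ∈ D₁.TS m l
    · rw [if_pos hT, if_pos ((M.mem_TS_iff m l hl a).2 hT)]
      exact ⟨c, hc1, hc2⟩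
    · rw [if_neg hT, if_neg (fun hc => hT ((M.mem_TS_iff m l hl a).1 hc))]
      exact ⟨fun _ => 0, by simp, by simp⟩
  · rintro a b rfl ha
    rw [Dat.M_fst, Dat.M_fst, mask_apply, mask_apply]
    by_cases hT : a ∈ D₁.TS m l
    · rw [if_pos hT, if_pos ((M.mem_TS_iff m l hl a).2 hT)]
      exact h.2.1 a _ rfl ha
    · rw [if_neg hT, if_neg (fun hc => hT ((M.mem_TS_iff m l hl a).1 hc))]
      exact fixEq_zero
  · intro z
    rw [Dat.M_snd, Dat.M_snd]
    rfl

lemma st_eq (m i : ℕ) (hi : ¬ (m = n ∧ i₀ ≤ i)) : M.β (D₁.st m i) = D₂.st m i := by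
  have h1 : ¬ M.Large (D₁.st m i) := by
    rintro ⟨h1, h2⟩
    rw [D₁.kd_st] at h1
    rw [D₁.sz_st] at h2
    exact hi ⟨h1, by exact_mod_cast h2⟩
  have h2 := D₂.uniq (M.β (D₁.st m i)) i (by rw [M.sz_eq _ h1, D₁.sz_st])
  rw [h2, M.kd_eq, D₁.kd_st]

lemma linked_ec (m i s l : ℕ) (hi : i < i₀) : M.Linked v w (D₁.ec m i s l) (D₂.ec m i s l) := by
  have hst := M.st_eq m i (fun hc => absurd hc.2 (not_le.2 hi))
  refine ⟨?_, ?_, ?_⟩
  · rintro a b rfl ha
    have h1 : a ≠ D₁.st m i := by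
      rintro rfl
      have := ha.2
      rw [D₁.sz_st] at this
      exact absurd hi (not_lt.2 (by exact_mod_cast this))
    have h2 : M.β a ≠ D₂.st m i := by
      rw [← hst]
      exact fun hc => h1 (M.β.injective hc)
    rw [Dat.ec_fst_ne _ _ _ _ _ h1, Dat.ec_fst_ne _ _ _ _ _ h2]
    exact ⟨fun _ => 0, by simp, by simp⟩
  · rintro a b rfl ha
    by_cases h1 : a = D₁.st m i
    · subst h1
      have key : ∀ b, b = D₂.st m i → FixEq ((D₁.ec m i s l).fst (D₁.st m i))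
          ((D₂.ec m i s l).fst b) := by
        rintro b rfl
        intro p l'
        by_cases hp : p < m + 2
        · have hp1 : p < D₁.kd (D₁.st m i) + 2 := by rw [D₁.kd_st]; exact hp
          have hp2 : p < D₂.kd (D₂.st m i) + 2 := by rw [D₂.kd_st]; exact hp
          rw [comp_lt _ hp1, comp_lt _ hp2, Dat.ec_fst_self, Dat.ec_fst_self]
          change inner ℝ (if p = s then _ else _) _ = inner ℝ (if p = s then _ else _) _
          have h3 : ∀ t t' : ℕ∞, t = t' → (inner ℝ (if p = s then hb t l else 0) (hb t l') : ℝ) =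
              inner ℝ (if p = s then hb t' l else 0) (hb t' l') := by
            rintro t _ rfl
            rfl
          exact h3 _ _ (by rw [D₁.sz_st, D₂.sz_st])
        · have hp1 : ¬ p < D₁.kd (D₁.st m i) + 2 := by rw [D₁.kd_st]; exact hp
          have hp2 : ¬ p < D₂.kd (D₂.st m i) + 2 := by rw [D₂.kd_st]; exact hp
          rw [comp_ge _ hp1, comp_ge _ hp2, inner_zero_left, inner_zero_left]
      exact key _ hst
    · have h2 : M.β a ≠ D₂.st m i := by
        rw [← hst]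
        exact fun hc => h1 (M.β.injective hc)
      rw [Dat.ec_fst_ne _ _ _ _ _ h1, Dat.ec_fst_ne _ _ _ _ _ h2]
      exact fixEq_zero
  · intro z
    rw [Dat.ec_snd, Dat.ec_snd]
    rfl

lemma linked_F (hR : M.Rel v w) (r : ℕ → Bool) (hr : r ∈ R) {x x' : D₁.X} {y y' : D₂.X}
    (h : M.Linked v w x y) (h' : M.Linked v w x' y') :
    M.Linked v w (D₁.FF r x x') (D₂.FF r y y') := by
  have hf1 : (D₁.FF r x x').fst = 0 := rfl
  have hf2 : (D₂.FF r y y').fst = 0 := rfl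
  refine ⟨?_, ?_, ?_⟩
  · rintro a b rfl ha
    rw [hf1, hf2]
    exact ⟨fun _ => 0, by simp, by simp⟩
  · rintro a b rfl ha
    rw [hf1, hf2]
    exact fixEq_zero
  · intro z
    rw [Dat.FF_snd, Dat.FF_snd]
    obtain ⟨⟨a, b⟩, s⟩ := z
    by_cases h1 : s = Complete.str r (D₁.uu (a, b)) ∧ D₁.kd a ≠ D₁.kd b
    · obtain ⟨rfl, hab⟩ := h1
      rw [M.γ_eq r hr a b hab]
      have hP1 : (a, b) ∈ D₁.PP := hab
      have hP2 : (M.β a, M.β b) ∈ D₂.PP := by
        change D₂.kd (M.β a) ≠ D₂.kd (M.β b)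
        rw [M.kd_eq, M.kd_eq]
        exact hab
      rw [ff_apply_pos _ _ _ _ _ rfl hP2, ff_apply_pos _ _ _ _ _ rfl hP1, M.linked_norm_apply hR h,
        M.linked_norm_apply hR h']
    · have e1 : ff D₁.PP (fun p => Complete.str r (D₁.uu p)) x.fst x'.fst ((a, b), s) = 0 :=
        ff_apply_neg _ _ _ _ _ h1
      rw [e1]
      obtain ⟨⟨⟨a', b'⟩, s'⟩, hz⟩ : ∃ z, z = M.γ ((a, b), s) := ⟨_, rfl⟩
      rw [← hz]
      apply ff_apply_neg
      rintro ⟨h3, h4⟩
      obtain ⟨a₁, rfl⟩ := M.β.surjective a'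
      obtain ⟨b₁, rfl⟩ := M.β.surjective b'
      have hab : D₁.kd a₁ ≠ D₁.kd b₁ := by
        have h5 : D₂.kd (M.β a₁) ≠ D₂.kd (M.β b₁) := h4
        rwa [M.kd_eq, M.kd_eq] at h5
      have h5 : s' = Complete.str r (D₂.uu (M.β a₁, M.β b₁)) := h3
      subst h5
      rw [← M.γ_eq r hr a₁ b₁ hab] at hz
      have h6 := M.γ.injective hz
      simp only [Prod.mk.injEq] at h6
      obtain ⟨⟨rfl, rfl⟩, h7⟩ := h6
      exact h1 ⟨h7.symm, hab⟩

end Linked

/-- The extension property. -/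
lemma forth {k : ℕ} {v : Fin k → D₁.X} {w : Fin k → D₂.X} (hR : M.Rel v w)
    (hroom : (n + 2) * (k + 1) ≤ i₀) (x : D₁.X) :
    ∃ y : D₂.X, ‖y‖ = ‖x‖ ∧ M.Rel (Fin.cons x v : Fin (k + 1) → D₁.X)
      (Fin.cons y w : Fin (k + 1) → D₂.X) := by
  have hex : ∀ b : D₂.A, ∃ yb : BT (D₂.kd b) (D₂.sz b),
      (∀ a, M.β a = b → M.Large a →
        GramEq (Fin.cons (x.fst a) (fun j => (v j).fst a) : Fin (k + 1) → BT (D₁.kd a) (D₁.sz a))
          (Fin.cons yb (fun j => (w j).fst b) : Fin (k + 1) → BT (D₂.kd b) (D₂.sz b))) ∧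
      (∀ a, M.β a = b → ¬ M.Large a → FixEq (x.fst a) yb) := by
    intro b
    obtain ⟨a, rfl⟩ := M.β.surjective b
    by_cases ha : M.Large a
    · obtain ⟨yb, hyb⟩ := (hR.1 a _ rfl ha).extend (M.kd_eq a) (by
        rw [ha.1]
        refine le_trans ?_ ((M.large_iff a ha.1).2 ha.2)
        exact_mod_cast hroom) (x.fst a)
      refine ⟨yb, ?_, ?_⟩
      · intro a' haa' _
        obtain rfl := M.β.injective haa'
        exact hyb
      · intro a' haa' ha'
        obtain rfl := M.β.injective haa'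
        exact absurd ha ha'
    · obtain ⟨yb, hyb⟩ := FixEq.exists (M.kd_eq a) (M.sz_eq a ha) (x.fst a)
      refine ⟨yb, ?_, ?_⟩
      · intro a' haa' ha'
        obtain rfl := M.β.injective haa'
        exact absurd ha' ha
      · intro a' haa' _
        obtain rfl := M.β.injective haa'
        exact hyb
  choose yf hy1 hy2 using hex
  have hnorm : ∀ a, ‖yf (M.β a)‖ = ‖x.fst a‖ := by
    intro a
    refine norm_eq_of_comp (M.kd_eq a) _ _ fun p => ?_
    by_cases ha : M.Large a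
    · exact hy1 _ a rfl ha 0 0 p p
    · exact FixEq.eq_inner (M.sz_eq a ha) (hy2 _ a rfl ha) (hy2 _ a rfl ha) p p
  have hs1 : Summable fun b => ‖yf b‖ ^ 2 := by
    rw [← M.β.summable_iff]
    refine (summable_sq x.fst).congr fun a => ?_
    rw [Function.comp_apply, hnorm]
  have hs2 : Summable fun z => ‖x.snd (M.γ.symm z)‖ ^ 2 :=
    (M.γ.symm.summable_iff (f := fun z => ‖x.snd z‖ ^ 2)).2 (summable_sq x.snd)
  let y : D₂.X := WithLp.toLp 2 (mk2 yf hs1, mk2 (fun z => x.snd (M.γ.symm z)) hs2)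
  have hyfst : ∀ b, y.fst b = yf b := fun b => rfl
  have hysnd : ∀ z, y.snd z = x.snd (M.γ.symm z) := fun z => rfl
  have hrel : M.Rel (Fin.cons x v : Fin (k + 1) → D₁.X) (Fin.cons y w : Fin (k + 1) → D₂.X) := by
    refine ⟨?_, ?_, ?_⟩
    · intro a b hab ha
      have h1 := hy1 b a hab ha
      have e1 : (fun j => ((Fin.cons x v : Fin (k + 1) → D₁.X) j).fst a) =
          (Fin.cons (x.fst a) (fun j => (v j).fst a) : Fin (k + 1) → _) := by
        funext j
        refine Fin.cases rfl (fun j => rfl) j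
      have e2 : (fun j => ((Fin.cons y w : Fin (k + 1) → D₂.X) j).fst b) =
          (Fin.cons (yf b) (fun j => (w j).fst b) : Fin (k + 1) → _) := by
        funext j
        refine Fin.cases (hyfst b) (fun j => rfl) j
      rw [e1, e2]
      exact h1
    · intro a b hab ha j
      refine Fin.cases ?_ (fun j => ?_) j
      · rw [Fin.cons_zero, Fin.cons_zero, hyfst]
        exact hy2 b a hab ha
      · rw [Fin.cons_succ, Fin.cons_succ]
        exact hR.2.1 a b hab ha j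
    · intro j z
      refine Fin.cases ?_ (fun j => ?_) j
      · rw [Fin.cons_zero, Fin.cons_zero, hysnd, Equiv.symm_apply_apply]
      · rw [Fin.cons_succ, Fin.cons_succ]
        exact hR.2.2 j z
  refine ⟨y, ?_, hrel⟩
  have h := M.linked_norm hrel (M.linked_var hrel 0)
  rw [Fin.cons_zero, Fin.cons_zero] at h
  exact h.symm

lemma back {k : ℕ} {v : Fin k → D₁.X} {w : Fin k → D₂.X} (hR : M.Rel v w)
    (hroom : (n + 2) * (k + 1) ≤ i₀) (y : D₂.X) :
    ∃ x : D₁.X, ‖x‖ = ‖y‖ ∧ M.Rel (Fin.cons x v : Fin (k + 1) → D₁.X)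
      (Fin.cons y w : Fin (k + 1) → D₂.X) := by
  obtain ⟨x, hx, hr⟩ := M.symm.forth (M.rel_symm' hR) hroom y
  exact ⟨x, hx, M.rel_symm hr⟩

end Match

section Game

variable {D₁ D₂ : Dat} {n : ℕ}

open Filter

lemma term_game {k : ℕ} (t : Term sig k) :
    ∀ᶠ p : ℕ × Finset (ℕ → Bool) in atTop, ∀ M : Match D₁ D₂ n p.1 p.2,
      ∀ (v : Fin k → D₁.X) (w : Fin k → D₂.X), M.Rel v w →
        M.Linked v w (t.eval D₁.str v) (t.eval D₂.str w) := by
  induction t with
  | var i => exact Eventually.of_forall fun p M v w hR => M.linked_var hR i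
  | zero => exact Eventually.of_forall fun p M v w hR => M.linked_zero
  | add s t hs ht =>
    filter_upwards [hs, ht] with p h1 h2 M v w hR
    exact M.linked_add (h1 M v w hR) (h2 M v w hR)
  | smul c t ht =>
    filter_upwards [ht] with p h1 M v w hR
    exact M.linked_smul c (h1 M v w hR)
  | fn f ts hts =>
    cases f with
    | e m i s l =>
      filter_upwards [eventually_ge_atTop ((i + 1, ∅) : ℕ × Finset (ℕ → Bool))] with p hp M v w hR
      exact M.linked_ec m i s l (Nat.lt_of_succ_le hp.1)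
    | T m l =>
      filter_upwards [eventually_ge_atTop ((l, ∅) : ℕ × Finset (ℕ → Bool)),
        hts (0 : Fin 1)] with p hp h1 M v w hR
      exact M.linked_T m l hp.1 (h1 M v w hR)
    | f r =>
      filter_upwards [eventually_ge_atTop ((0, {r}) : ℕ × Finset (ℕ → Bool)),
        hts (0 : Fin 2), hts (1 : Fin 2)] with p hp h1 h2 M v w hR
      exact M.linked_F hR r (hp.2 (mem_singleton_self r)) (h1 M v w hR) (h2 M v w hR)

theorem formula_game {k : ℕ} (φ : Formula sig k) :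
    ∀ᶠ p : ℕ × Finset (ℕ → Bool) in atTop, ∀ M : Match D₁ D₂ n p.1 p.2,
      ∀ (v : Fin k → D₁.X) (w : Fin k → D₂.X), M.Rel v w →
        φ.eval D₁.str v = φ.eval D₂.str w := by
  induction φ with
  | norm t =>
    filter_upwards [term_game (D₁ := D₁) (D₂ := D₂) (n := n) t] with p h1 M v w hR
    exact M.linked_norm hR (h1 M v w hR)
  | rel S ts =>
    filter_upwards [term_game (D₁ := D₁) (D₂ := D₂) (n := n) (ts (0 : Fin 2)),
      term_game (D₁ := D₁) (D₂ := D₂) (n := n) (ts (1 : Fin 2))] with p h1 h2 M v w hR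
    exact M.linked_B hR (h1 M v w hR) (h2 M v w hR)
  | conn m g φ ih =>
    filter_upwards [eventually_all.2 ih] with p h1 M v w hR
    simp only [Formula.eval]
    congr 1
    funext i
    exact h1 i M v w hR
  | @sup k r φ ih =>
    filter_upwards [eventually_ge_atTop (((n + 2) * (k + 1), ∅) : ℕ × Finset (ℕ → Bool)), ih]
      with p hp h1 M v w hR
    refine le_antisymm ?_ ?_
    · refine Formula.eval_sup_le D₁.str φ v r _ fun x hx => ?_
      obtain ⟨y, hy, hr⟩ := M.forth hR hp.1 x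
      exact (h1 M _ _ hr).le.trans (Formula.le_eval_sup D₂.str φ w r y (hy.le.trans hx))
    · refine Formula.eval_sup_le D₂.str φ w r _ fun y hy => ?_
      obtain ⟨x, hx, hr⟩ := M.back hR hp.1 y
      exact (h1 M _ _ hr).ge.trans (Formula.le_eval_sup D₁.str φ v r x (hx.le.trans hy))
  | @inf k r φ ih =>
    filter_upwards [eventually_ge_atTop (((n + 2) * (k + 1), ∅) : ℕ × Finset (ℕ → Bool)), ih]
      with p hp h1 M v w hR
    refine le_antisymm ?_ ?_
    · refine Formula.le_eval_inf D₂.str φ w r _ fun y hy => ?_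
      obtain ⟨x, hx, hr⟩ := M.back hR hp.1 y
      exact (Formula.eval_inf_le D₁.str φ v r x (hx.le.trans hy)).trans (h1 M _ _ hr).le
    · refine Formula.le_eval_inf D₁.str φ v r _ fun x hx => ?_
      obtain ⟨y, hy, hr⟩ := M.forth hR hp.1 x
      exact (Formula.eval_inf_le D₂.str φ w r y (hy.le.trans hx)).trans (h1 M _ _ hr).ge

/-- Two families of blocks with sufficiently many matchings have the same theory. -/
theorem value_eq_of_match (h : ∀ R : Finset (ℕ → Bool), ∃ N, ∀ i₀ ≥ N,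
    Nonempty (Match D₁ D₂ n i₀ R)) (φ : Formula sig 0) : value D₁.str φ = value D₂.str φ := by
  obtain ⟨⟨i₀, R⟩, h1⟩ := Filter.eventually_atTop.1 (formula_game (D₁ := D₁) (D₂ := D₂) (n := n) φ)
  obtain ⟨N, hN⟩ := h R
  obtain ⟨M⟩ := hN (max i₀ N) (le_max_right _ _)
  refine h1 (max i₀ N, R) ⟨le_max_left _ _, le_rfl⟩ M _ _ ⟨?_, ?_, ?_⟩
  · intro a b _ _ i
    exact i.elim0
  · intro a b _ _ i
    exact i.elim0
  · intro i
    exact i.elim0

end Game

end

end Pool.Agent.Lib.MP_4e4c79_lc.Complete
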