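import Mathlib
import Pool.Agent.Lib.MP_4e4c79_lc.Game

/-!
The families of blocks `D0` (only finite-dimensional blocks) and `Dn n` (one additional block with
`n + 2` infinite-dimensional components), and matchings between them.
-/

namespace Pool.Agent.Lib.MP_4e4c79_lc.Complete

open Pool.Agent.Lib.MP_4e4c79_lc Finset TopologicalSpace
attribute [local instance] Classical.propDecidable
set_option linter.unusedSectionVars false

noncomputable section

/-- All finite-dimensional blocks. -/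
def D0 : Dat where
  A := ℕ × ℕ
  cnt := inferInstance
  kd := fun a => a.1
  sz := fun a => (a.2 : ℕ∞)
  st := fun n i => (n, i)
  kd_st := fun _ _ => rfl
  sz_st := fun _ _ => rfl
  uniq := fun a i h => by
    have : a.2 = i := by exact_mod_cast h
    exact Prod.ext rfl this
  fin := fun a b _ => lt_of_le_of_lt (min_le_left _ _) (ENat.natCast_lt_top _)

/-- All finite-dimensional blocks and one infinite-dimensional block with `n + 2` components. -/
def Dn (n : ℕ) : Dat where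
  A := Option (ℕ × ℕ)
  cnt := inferInstance
  kd := fun a => match a with
    | none => n
    | some a => a.1
  sz := fun a => match a with
    | none => ⊤
    | some a => (a.2 : ℕ∞)
  st := fun n i => some (n, i)
  kd_st := fun _ _ => rfl
  sz_st := fun _ _ => rfl
  uniq := fun a i h => by
    match a with
    | none => exact absurd h.symm (ENat.natCast_ne_top i)
    | some a =>
      have h' : (a.2 : ℕ∞) = (i : ℕ∞) := h
      have : a.2 = i := by exact_mod_cast h'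
      exact congrArg some (Prod.ext rfl this)
  fin := fun a b hab => by
    match a, b with
    | none, none => exact absurd rfl hab
    | none, some b => exact lt_of_le_of_lt (min_le_right _ _) (ENat.natCast_lt_top _)
    | some a, _ => exact lt_of_le_of_lt (min_le_left _ _) (ENat.natCast_lt_top _)

/-- The bijection between the blocks of `D0` and `Dn n`. -/
def betaFun (n i₀ : ℕ) (a : ℕ × ℕ) : Option (ℕ × ℕ) :=
  if a.1 = n ∧ i₀ ≤ a.2 then (if a.2 = i₀ then none else some (n, a.2 - 1)) else some a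

/-- Its inverse. -/
def betaInv (n i₀ : ℕ) (b : Option (ℕ × ℕ)) : ℕ × ℕ :=
  match b with
  | none => (n, i₀)
  | some a => if a.1 = n ∧ i₀ ≤ a.2 then (n, a.2 + 1) else a

/-- The bijection between the blocks of `D0` and `Dn n`. -/
def betaEquiv (n i₀ : ℕ) : ℕ × ℕ ≃ Option (ℕ × ℕ) where
  toFun := betaFun n i₀
  invFun := betaInv n i₀
  left_inv := by
    rintro ⟨m, i⟩
    unfold betaFun
    by_cases h : m = n ∧ i₀ ≤ i
    · obtain ⟨rfl, h2⟩ := h
      rw [if_pos ⟨rfl, h2⟩]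
      by_cases h3 : i = i₀
      · subst h3
        rw [if_pos rfl]
        rfl
      · rw [if_neg h3]
        have h4 : i₀ ≤ i - 1 := by omega
        change (if m = m ∧ i₀ ≤ i - 1 then (m, i - 1 + 1) else (m, i - 1)) = (m, i)
        rw [if_pos ⟨rfl, h4⟩]
        congr 1
        omega
    · rw [if_neg h]
      change (if m = n ∧ i₀ ≤ i then (n, i + 1) else (m, i)) = (m, i)
      rw [if_neg h]
  right_inv := by
    intro b
    match b with
    | none =>
      change (if n = n ∧ i₀ ≤ i₀ then (if i₀ = i₀ then none else some (n, i₀ - 1)) else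
        some (n, i₀)) = none
      simp
    | some (m, i) =>
      change betaFun n i₀ (if m = n ∧ i₀ ≤ i then (n, i + 1) else (m, i)) = some (m, i)
      by_cases h : m = n ∧ i₀ ≤ i
      · rw [if_pos h]
        obtain ⟨rfl, h2⟩ := h
        change (if m = m ∧ i₀ ≤ i + 1 then (if i + 1 = i₀ then none else some (m, i + 1 - 1)) else
          some (m, i + 1)) = some (m, i)
        rw [if_pos ⟨rfl, by omega⟩, if_neg (by omega)]
        rfl
      · rw [if_neg h]
        change (if m = n ∧ i₀ ≤ i then (if i = i₀ then none else some (n, i - 1)) else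
          some (m, i)) = some (m, i)
        rw [if_neg h]

lemma beta_kd (n i₀ : ℕ) (a : ℕ × ℕ) : (Dn n).kd (betaFun n i₀ a) = D0.kd a := by
  obtain ⟨m, i⟩ := a
  unfold betaFun
  by_cases h : m = n ∧ i₀ ≤ i
  · rw [if_pos h]
    obtain ⟨rfl, h2⟩ := h
    by_cases h3 : i = i₀
    · rw [if_pos h3]
      rfl
    · rw [if_neg h3]
      rfl
  · rw [if_neg h]
    rfl

lemma beta_large (n i₀ : ℕ) (a : ℕ × ℕ) (ha : D0.kd a = n) :
    (i₀ : ℕ∞) ≤ (Dn n).sz (betaFun n i₀ a) ↔ (i₀ : ℕ∞) ≤ D0.sz a := by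
  obtain ⟨m, i⟩ := a
  have hm : m = n := ha
  subst hm
  change _ ↔ (i₀ : ℕ∞) ≤ (i : ℕ∞)
  unfold betaFun
  by_cases h : i₀ ≤ i
  · rw [if_pos ⟨rfl, h⟩]
    have h' : (i₀ : ℕ∞) ≤ (i : ℕ∞) := by exact_mod_cast h
    refine ⟨fun _ => h', fun _ => ?_⟩
    by_cases h3 : i = i₀
    · rw [if_pos h3]
      exact le_top
    · rw [if_neg h3]
      change (i₀ : ℕ∞) ≤ ((i - 1 : ℕ) : ℕ∞)
      have : i₀ ≤ i - 1 := by omega
      exact_mod_cast this
  · rw [if_neg (fun hc => h hc.2)]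
    rfl

lemma beta_sz (n i₀ : ℕ) (a : ℕ × ℕ) (ha : ¬ (D0.kd a = n ∧ (i₀ : ℕ∞) ≤ D0.sz a)) :
    (Dn n).sz (betaFun n i₀ a) = D0.sz a := by
  obtain ⟨m, i⟩ := a
  have h : ¬ (m = n ∧ i₀ ≤ i) := by
    rintro ⟨h1, h2⟩
    exact ha ⟨h1, by
      change (i₀ : ℕ∞) ≤ (i : ℕ∞)
      exact_mod_cast h2⟩
  unfold betaFun
  rw [if_neg h]
  rfl

lemma uu_cases {D₁ D₂ : Dat} {n i₀ : ℕ} (β : D₁.A ≃ D₂.A) (kd_eq : ∀ a, D₂.kd (β a) = D₁.kd a)
    (large_iff : ∀ a, D₁.kd a = n → ((i₀ : ℕ∞) ≤ D₂.sz (β a) ↔ (i₀ : ℕ∞) ≤ D₁.sz a))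
    (sz_eq : ∀ a, ¬ (D₁.kd a = n ∧ (i₀ : ℕ∞) ≤ D₁.sz a) → D₂.sz (β a) = D₁.sz a)
    (a b : D₁.A) (hab : D₁.kd a ≠ D₁.kd b) :
    D₁.uu (a, b) = D₂.uu (β a, β b) ∨ (i₀ ≤ D₁.uu (a, b) ∧ i₀ ≤ D₂.uu (β a, β b)) := by
  have h1 : ∀ D : Dat, ∀ a b : D.A, D.uu (a, b) = (min (D.sz a) (D.sz b)).toNat + D.kd a + D.kd b :=
    fun _ _ _ => rfl
  have hab2 : D₂.kd (β a) ≠ D₂.kd (β b) := by rw [kd_eq, kd_eq]; exact hab
  have key : min (D₁.sz a) (D₁.sz b) = min (D₂.sz (β a)) (D₂.sz (β b)) ∨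
      ((i₀ : ℕ∞) ≤ min (D₁.sz a) (D₁.sz b) ∧ (i₀ : ℕ∞) ≤ min (D₂.sz (β a)) (D₂.sz (β b))) := by
    by_cases ha : D₁.kd a = n ∧ (i₀ : ℕ∞) ≤ D₁.sz a
    · have hb : D₂.sz (β b) = D₁.sz b := sz_eq b (fun hc => hab (ha.1.trans hc.1.symm))
      have ha2 : (i₀ : ℕ∞) ≤ D₂.sz (β a) := (large_iff a ha.1).2 ha.2
      rw [hb]
      rcases le_total (i₀ : ℕ∞) (D₁.sz b) with h | h
      · exact Or.inr ⟨le_min ha.2 h, le_min ha2 h⟩
      · left
        rw [min_eq_right (h.trans ha.2), min_eq_right (h.trans ha2)]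
    · rw [sz_eq a ha]
      by_cases hb : D₁.kd b = n ∧ (i₀ : ℕ∞) ≤ D₁.sz b
      · have hb2 : (i₀ : ℕ∞) ≤ D₂.sz (β b) := (large_iff b hb.1).2 hb.2
        rcases le_total (i₀ : ℕ∞) (D₁.sz a) with h | h
        · exact Or.inr ⟨le_min h hb.2, le_min h hb2⟩
        · left
          rw [min_eq_left (h.trans hb.2), min_eq_left (h.trans hb2)]
      · rw [sz_eq b hb]
        exact Or.inl rfl
  rw [h1, h1, kd_eq, kd_eq]
  rcases key with h | ⟨h2, h3⟩
  · rw [h]
    exact Or.inl rfl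
  · right
    have h4 := ENat.toNat_le_toNat h2 (D₁.fin a b hab).ne
    have h5 := ENat.toNat_le_toNat h3 (D₂.fin _ _ hab2).ne
    rw [ENat.toNat_natCast] at h4 h5
    omega

/-- Finitely many binary sequences are separated by a finite initial segment. -/
lemma exists_sep (R : Finset (ℕ → Bool)) :
    ∃ N : ℕ, ∀ r ∈ R, ∀ s ∈ R, r ≠ s → ∃ i < N, r i ≠ s i := by
  have h : ∀ p : (ℕ → Bool) × (ℕ → Bool), ∃ N : ℕ, p.1 ≠ p.2 → ∃ i < N, p.1 i ≠ p.2 i := by
    intro p
    by_cases hp : p.1 = p.2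
    · exact ⟨0, fun h => absurd hp h⟩
    · obtain ⟨i, hi⟩ := Function.ne_iff.1 hp
      exact ⟨i + 1, fun _ => ⟨i, Nat.lt_succ_self i, hi⟩⟩
  choose f hf using h
  refine ⟨(R ×ˢ R).sup f, fun r hr s hs hrs => ?_⟩
  obtain ⟨i, hi, hne⟩ := hf (r, s) hrs
  exact ⟨i, lt_of_lt_of_le hi (Finset.le_sup (f := f) (mem_product.2 ⟨hr, hs⟩)), hne⟩

lemma exists_theta (R : Finset (ℕ → Bool)) (i₀ : ℕ)
    (hsep : ∀ r ∈ R, ∀ s ∈ R, r ≠ s → ∃ i < i₀, r i ≠ s i) (u u' : ℕ)
    (h : u = u' ∨ (i₀ ≤ u ∧ i₀ ≤ u')) :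
    ∃ θ : List Bool ≃ List Bool, ∀ r ∈ R, θ (str r u) = str r u' := by
  rcases h with rfl | ⟨h1, h2⟩
  · exact ⟨Equiv.refl _, fun r _ => rfl⟩
  · have hinj : ∀ (t : ℕ), i₀ ≤ t → ∀ r ∈ R, ∀ s ∈ R, str r t = str s t → r = s := by
      intro t ht r hr s hs hrs
      by_contra hne
      obtain ⟨i, hi, hne'⟩ := hsep r hr s hs hne
      exact hne' ((str_eq_iff r s t).1 hrs i (hi.trans_le ht))
    let S : Set (List Bool) := (fun r => str r u) '' R
    have hS : ∀ x : S, ∃ r ∈ R, str r u = x := fun x => by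
      obtain ⟨r, hr, hx⟩ := x.2
      exact ⟨r, hr, hx⟩
    choose g hg1 hg2 using hS
    let f : S ↪ List Bool := ⟨fun x => str (g x) u', fun x y hxy => by
      have h3 := hinj u' h2 _ (hg1 x) _ (hg1 y) hxy
      apply Subtype.ext
      rw [← hg2 x, ← hg2 y, h3]⟩
    have hfin : Set.Finite S := R.finite_toSet.image _
    have hcard : Cardinal.mk S < Cardinal.mk (List Bool) := by
      have : Finite S := hfin
      exact lt_of_lt_of_le (Cardinal.lt_aleph0_of_finite S) (Cardinal.aleph0_le_mk _)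
    obtain ⟨θ, hθ⟩ := Cardinal.extend_function_of_lt f hcard ⟨Equiv.refl _⟩
    refine ⟨θ, fun r hr => ?_⟩
    have hmem : str r u ∈ S := ⟨r, hr, rfl⟩
    have h3 := hθ ⟨str r u, hmem⟩
    have h4 : g ⟨str r u, hmem⟩ = r := hinj u h1 _ (hg1 _) _ hr (hg2 ⟨str r u, hmem⟩)
    have h5 : f ⟨str r u, hmem⟩ = str (g ⟨str r u, hmem⟩) u' := rfl
    rw [h5, h4] at h3
    exact h3

lemma exists_match (n : ℕ) (R : Finset (ℕ → Bool)) :
    ∃ N, ∀ i₀ ≥ N, Nonempty (Match D0 (Dn n) n i₀ R) := by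
  obtain ⟨N, hN⟩ := exists_sep R
  refine ⟨N, fun i₀ hi₀ => ?_⟩
  have hsep : ∀ r ∈ R, ∀ s ∈ R, r ≠ s → ∃ i < i₀, r i ≠ s i := by
    intro r hr s hs hrs
    obtain ⟨i, hi, hne⟩ := hN r hr s hs hrs
    exact ⟨i, hi.trans_le hi₀, hne⟩
  let β : D0.A ≃ (Dn n).A := betaEquiv n i₀
  have h1 : ∀ a, (Dn n).kd (β a) = D0.kd a := beta_kd n i₀
  have h2 : ∀ a, D0.kd a = n → ((i₀ : ℕ∞) ≤ (Dn n).sz (β a) ↔ (i₀ : ℕ∞) ≤ D0.sz a) :=
    beta_large n i₀
  have h3 : ∀ a, ¬ (D0.kd a = n ∧ (i₀ : ℕ∞) ≤ D0.sz a) → (Dn n).sz (β a) = D0.sz a := beta_sz n i₀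
  have hθ : ∀ p : D0.A × D0.A, ∃ θ : List Bool ≃ List Bool, D0.kd p.1 ≠ D0.kd p.2 →
      ∀ r ∈ R, θ (str r (D0.uu p)) = str r ((Dn n).uu (β p.1, β p.2)) := by
    intro p
    by_cases hp : D0.kd p.1 ≠ D0.kd p.2
    · obtain ⟨θ, hθ⟩ := exists_theta R i₀ hsep _ _ (uu_cases β h1 h2 h3 p.1 p.2 hp)
      exact ⟨θ, fun _ => hθ⟩
    · exact ⟨Equiv.refl _, fun h => absurd h hp⟩
  choose θ hθ' using hθ
  exact ⟨{
    β := β
    kd_eq := h1
    large_iff := h2
    sz_eq := h3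
    γ := Equiv.prodShear (Equiv.prodCongr β β) θ
    γ_eq := fun r hr a b hab => by
      have h := hθ' (a, b) hab r hr
      rw [Equiv.prodShear_apply]
      exact Prod.ext rfl h }⟩

/-- The structures `D0.str` and `(Dn n).str` give every sentence the same value. -/
theorem value_Dn (n : ℕ) (φ : Formula sig 0) : value D0.str φ = value (Dn n).str φ :=
  value_eq_of_match (exists_match n) φ

theorem isModel_Dn (n : ℕ) : IsModel (Dn n).str (theoryOf D0.str) := by
  intro φ hφ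
  rw [← value_Dn]
  exact hφ

/-- Countable `ℓ²`-sums of separable spaces are separable. -/
lemma separable_lp {ι : Type} [Countable ι] (G : ι → Type) [∀ i, NormedAddCommGroup (G i)]
    [∀ i, NormedSpace ℝ (G i)] (hG : ∀ i, SeparableSpace (G i)) : SeparableSpace (lp G 2) := by
  have h1 : IsSeparable (⋃ i, Set.range (fun x : G i => (lp.single 2 i x : lp G 2))) := by
    refine IsSeparable.iUnion fun i => ?_
    have := hG i
    exact isSeparable_range (lp.isometry_single i).continuous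
  have h2 := (h1.span (R := ℝ)).closure
  have h3 : closure (Submodule.span ℝ (⋃ i, Set.range (fun x : G i => (lp.single 2 i x : lp G 2))) :
      Set (lp G 2)) = Set.univ := by
    rw [Set.eq_univ_iff_forall]
    intro x
    have hx := lp.hasSum_single (E := G) (p := 2) (by norm_num) x
    refine mem_closure_of_tendsto hx (Filter.Eventually.of_forall fun F => ?_)
    exact Submodule.sum_mem _ fun i _ => Submodule.subset_span (Set.mem_iUnion.2 ⟨i, x i, rfl⟩)
  rw [h3] at h2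
  exact isSeparable_univ_iff.1 h2

lemma separable_X (D : Dat) : SeparableSpace D.X := by
  have := D.cnt
  have h1 : SeparableSpace D.W := separable_lp _ fun a => by
    have : ∀ _ : Fin (D.kd a + 2), SeparableSpace (Hs (D.sz a)) := fun _ =>
      separable_lp _ fun _ => inferInstance
    infer_instance
  have h2 : SeparableSpace D.Y := separable_lp _ fun _ => inferInstance
  have h3 : SeparableSpace (D.W × D.Y) := inferInstance
  exact (WithLp.homeomorphProd 2 D.W D.Y).symm.surjective.denseRange.separableSpace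
    (WithLp.homeomorphProd 2 D.W D.Y).symm.continuous

theorem isSepModel_D0 : IsSepModel D0.str (theoryOf D0.str) := ⟨fun _ h => h, separable_X D0⟩

theorem isSepModel_Dn (n : ℕ) : IsSepModel (Dn n).str (theoryOf D0.str) :=
  ⟨isModel_Dn n, separable_X (Dn n)⟩

end

end Pool.Agent.Lib.MP_4e4c79_lc.Complete
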