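import Mathlib
import Pool.Agent.Lib.MP_4e4c79_lc.Data

/-!
The distortion of every linear homeomorphism between `(Dn n).str` and `D0.str` is at least
`√(n + 2)`.
-/

namespace Pool.Agent.Lib.MP_4e4c79_lc.Complete

open Pool.Agent.Lib.MP_4e4c79_lc Finset TopologicalSpace Filter Topology
attribute [local instance] Classical.propDecidable
set_option linter.unusedSectionVars false

noncomputable section

/-- Bounded sequences in `ℓ²` with coordinates tending to `0` converge weakly to `0`. -/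
lemma weak_zero {ι : Type} (a : L2 ι) (b : ℕ → L2 ι) (C : ℝ) (hC : ∀ l, ‖b l‖ ≤ C)
    (h : ∀ i, Tendsto (fun l => b l i) atTop (𝓝 0)) :
    Tendsto (fun l => (inner ℝ a (b l) : ℝ)) atTop (𝓝 0) := by
  have hC0 : 0 ≤ C := (norm_nonneg _).trans (hC 0)
  rw [Metric.tendsto_atTop]
  intro ε hε
  have ha := lp.hasSum_single (E := fun _ : ι => ℝ) (p := 2) (by norm_num) a
  have hδ : 0 < ε / (2 * (C + 1)) := by positivity
  obtain ⟨F, hF⟩ := ((Metric.tendsto_nhds.1 ha) _ hδ).exists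
  have hfin : Tendsto (fun l => ∑ i ∈ F, a i * b l i) atTop (𝓝 0) := by
    have : Tendsto (fun l => ∑ i ∈ F, a i * b l i) atTop (𝓝 (∑ i ∈ F, a i * 0)) :=
      tendsto_finsetSum _ fun i _ => (h i).const_mul _
    simpa using this
  obtain ⟨N, hN⟩ := Metric.tendsto_atTop.1 hfin (ε / 2) (by positivity)
  refine ⟨N, fun l hl => ?_⟩
  have h1 := hN l hl
  rw [Real.dist_0_eq_abs] at h1 ⊢
  set aF := ∑ i ∈ F, (lp.single 2 i (a i) : L2 ι) with haF
  have h2 : (inner ℝ a (b l) : ℝ) = inner ℝ (a - aF) (b l) + ∑ i ∈ F, a i * b l i := by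
    have h3 : (inner ℝ aF (b l) : ℝ) = ∑ i ∈ F, a i * b l i := by
      rw [haF, sum_inner]
      refine sum_congr rfl fun i _ => ?_
      rw [lp.inner_single_left]
      simp [mul_comm]
    rw [inner_sub_left, h3]
    ring
  have h3 : |(inner ℝ (a - aF) (b l) : ℝ)| ≤ ε / (2 * (C + 1)) * C := by
    refine (abs_real_inner_le_norm _ _).trans ?_
    have h4 : ‖a - aF‖ ≤ ε / (2 * (C + 1)) := by
      rw [← dist_eq_norm, dist_comm]
      exact hF.le
    exact mul_le_mul h4 (hC l) (norm_nonneg _) hδ.le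
  have h4 : ε / (2 * (C + 1)) * C < ε / 2 := by
    rw [div_mul_eq_mul_div, div_lt_div_iff₀ (by positivity) (by positivity)]
    nlinarith
  rw [h2]
  have h5 := abs_add_le (inner ℝ (a - aF) (b l) : ℝ) (∑ i ∈ F, a i * b l i)
  linarith

lemma lower_lp {ι : Type} {G : ι → Type} [∀ i, NormedAddCommGroup (G i)] (u : lp G 2)
    (y : ℕ → lp G 2) (C : ℝ) (hC : ∀ l, ‖y l‖ ≤ C)
    (h : ∀ i, Tendsto (fun l => y l i) atTop (𝓝 0)) (ε : ℝ) (hε : 0 < ε) :
    ∀ᶠ l in atTop, ‖u‖ ^ 2 + ‖y l‖ ^ 2 - ε ≤ ‖u + y l‖ ^ 2 := by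
  have hw := weak_zero (normSeq u) (fun l => normSeq (y l)) C
    (fun l => by rw [normSeq_norm]; exact hC l)
    (fun i => by
      have := (h i).norm
      rw [norm_zero] at this
      exact this)
  have h1 := (Metric.tendsto_nhds.1 hw) (ε / 2) (by positivity)
  filter_upwards [h1] with l hl
  rw [Real.dist_0_eq_abs] at hl
  have h2 : ‖u‖ ^ 2 + ‖y l‖ ^ 2 - 2 * inner ℝ (normSeq u) (normSeq (y l)) ≤ ‖u + y l‖ ^ 2 := by
    have h3 := ((hasSum_sq u).add (hasSum_sq (y l))).sub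
      ((lp.hasSum_inner (𝕜 := ℝ) (normSeq u) (normSeq (y l))).mul_left 2)
    refine hasSum_le (fun i => ?_) h3 (hasSum_sq (u + y l))
    have h4 : |‖u i‖ - ‖y l i‖| ≤ ‖u i + y l i‖ := by
      have := abs_norm_sub_norm_le (u i) (-(y l i))
      rwa [norm_neg, sub_neg_eq_add] at this
    have h5 : (‖u i‖ - ‖y l i‖) ^ 2 ≤ ‖u i + y l i‖ ^ 2 := by
      rw [← sq_abs (‖u i‖ - ‖y l i‖)]
      exact pow_le_pow_left₀ (abs_nonneg _) h4 2
    have h6 : (inner ℝ (normSeq u i) (normSeq (y l) i) : ℝ) = ‖u i‖ * ‖y l i‖ := by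
      simp [mul_comm]
    have h7 : (u + y l) i = u i + y l i := rfl
    rw [h6, h7]
    nlinarith
  have h3 := (abs_le.1 hl.le).2
  linarith

lemma lower_X (D : Dat) (u : D.X) (y : ℕ → D.X) (C : ℝ) (hC : ∀ l, ‖y l‖ ≤ C)
    (h1 : ∀ a, Tendsto (fun l => (y l).fst a) atTop (𝓝 0))
    (h2 : ∀ z, Tendsto (fun l => (y l).snd z) atTop (𝓝 0)) (ε : ℝ) (hε : 0 < ε) :
    ∀ᶠ l in atTop, ‖u‖ ^ 2 + ‖y l‖ ^ 2 - ε ≤ ‖u + y l‖ ^ 2 := by
  have e1 := lower_lp u.fst (fun l => (y l).fst) C (fun l => (D.fst_le _).trans (hC l)) h1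
    (ε / 2) (by positivity)
  have e2 := lower_lp u.snd (fun l => (y l).snd) C (fun l => (D.snd_le _).trans (hC l)) h2
    (ε / 2) (by positivity)
  filter_upwards [e1, e2] with l h3 h4
  rw [D.X_norm_sq u, D.X_norm_sq (y l), D.X_norm_sq (u + y l), WithLp.add_fst, WithLp.add_snd]
  linarith

instance finDim_Hs (i : ℕ) : FiniteDimensional ℝ (Hs (i : ℕ∞)) := by
  refine ⟨⟨(range i).image (hb (i : ℕ∞)), ?_⟩⟩
  rw [eq_top_iff]
  intro x _
  rw [Hs_expand i x]
  refine Submodule.sum_mem _ fun l hl => Submodule.smul_mem _ _ (Submodule.subset_span ?_)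
  exact mem_coe.2 (mem_image_of_mem _ hl)

/-- Functionals tend to `0` along the orthonormal basis. -/
lemma tendsto_functional (φ : Hs ⊤ →L[ℝ] ℝ) : Tendsto (fun l => φ (hb ⊤ l)) atTop (𝓝 0) := by
  obtain ⟨v, hv⟩ := (InnerProductSpace.toDual ℝ (Hs ⊤)).surjective φ
  have h1 : ∀ l : ℕ, φ (hb ⊤ l) = v ⟨l, ENat.natCast_lt_top l⟩ := by
    intro l
    rw [← hv, InnerProductSpace.toDual_apply_apply, inner_hb, dif_pos (ENat.natCast_lt_top l)]
  have h2 : Summable fun l : ℕ => ‖v ⟨l, ENat.natCast_lt_top l⟩‖ ^ 2 := by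
    have hinj : Function.Injective fun l : ℕ =>
        (⟨l, ENat.natCast_lt_top l⟩ : {j : ℕ // (j : ℕ∞) < ⊤}) := by
      intro a b hab
      exact congrArg Subtype.val hab
    exact (summable_sq v).comp_injective hinj
  have h3 := h2.tendsto_atTop_zero
  have h4 : Tendsto (fun l : ℕ => ‖v ⟨l, ENat.natCast_lt_top l⟩‖) atTop (𝓝 0) := by
    have := h3.sqrt
    rw [Real.sqrt_zero] at this
    refine this.congr fun l => ?_
    exact Real.sqrt_sq (norm_nonneg _)
  rw [tendsto_zero_iff_norm_tendsto_zero]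
  refine h4.congr fun l => ?_
  rw [h1]

lemma tendsto_finDim {F : Type} [NormedAddCommGroup F] [NormedSpace ℝ F] [FiniteDimensional ℝ F]
    (A : Hs ⊤ →L[ℝ] F) : Tendsto (fun l => A (hb ⊤ l)) atTop (𝓝 0) := by
  let e := (Module.finBasis ℝ F).equivFunL
  have h1 : Tendsto (fun l => e (A (hb ⊤ l))) atTop (𝓝 0) := by
    rw [tendsto_pi_nhds]
    intro j
    exact tendsto_functional ((ContinuousLinearMap.proj j).comp (e.toContinuousLinearMap.comp A))
  have h2 := (e.symm.continuous.tendsto 0).comp h1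
  rw [map_zero] at h2
  refine h2.congr fun l => ?_
  rw [Function.comp_apply, ContinuousLinearEquiv.symm_apply_apply]

/-- The embedding of a block. -/
def Dat.bl (D : Dat) (a : D.A) : BT (D.kd a) (D.sz a) →ₗᵢ[ℝ] D.X where
  toFun x := WithLp.toLp 2 (lp.single 2 a x, 0)
  map_add' x y := by
    rw [lp.single_add]
    apply D.X_ext
    · rw [WithLp.add_fst, Dat.fst_mk, Dat.fst_mk, Dat.fst_mk]
    · rw [WithLp.add_snd, Dat.snd_mk, Dat.snd_mk, Dat.snd_mk, add_zero]
  map_smul' c x := by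
    rw [RingHom.id_apply, lp.single_smul]
    apply D.X_ext
    · rw [WithLp.smul_fst, Dat.fst_mk, Dat.fst_mk]
    · rw [WithLp.smul_snd, Dat.snd_mk, Dat.snd_mk, smul_zero]
  norm_map' x := by
    change ‖(WithLp.toLp 2 (lp.single 2 a x, 0) : D.X)‖ = ‖x‖
    rw [Dat.toLp_zero_right_norm, lp.norm_single (by norm_num)]

/-- The embedding of a component. -/
def sg (m : ℕ) (t : Fin m) : Hs ⊤ →ₗᵢ[ℝ] (Fin m → Hs ⊤) where
  toLinearMap := LinearMap.single ℝ (fun _ : Fin m => Hs ⊤) t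
  norm_map' x := by
    have h1 : ∀ s, LinearMap.single ℝ (fun _ : Fin m => Hs ⊤) t x s = if s = t then x else 0 := by
      intro s
      rw [LinearMap.single_apply, Pi.single_apply]
    refine le_antisymm ?_ ?_
    · rw [pi_norm_le_iff_of_nonneg (norm_nonneg _)]
      intro s
      rw [h1]
      split_ifs
      · exact le_rfl
      · rw [norm_zero]
        exact norm_nonneg _
    · have h2 := norm_le_pi_norm (LinearMap.single ℝ (fun _ : Fin m => Hs ⊤) t x) t
      rwa [h1, if_pos rfl] at h2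

/-- The infinite-dimensional block. -/
def bn (n : ℕ) : (Fin (n + 2) → Hs ⊤) →ₗᵢ[ℝ] (Dn n).X := (Dn n).bl (none : Option (ℕ × ℕ))

/-- The embedding of a component of the infinite-dimensional block. -/
def emb (n : ℕ) (t : Fin (n + 2)) : Hs ⊤ →ₗᵢ[ℝ] (Dn n).X := (bn n).comp (sg (n + 2) t)

/-- The sum of unit vectors in different components has norm at most one. -/
lemma norm_sum_emb (n : ℕ) (l : Fin (n + 2) → ℕ) : ‖∑ t, emb n t (hb ⊤ (l t))‖ ≤ 1 := by
  have h : ∑ t, emb n t (hb ⊤ (l t)) = bn n (fun t => hb ⊤ (l t)) := by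
    have h1 : ∀ t, emb n t (hb ⊤ (l t)) = bn n (sg (n + 2) t (hb ⊤ (l t))) := fun t => rfl
    simp_rw [h1]
    rw [← map_sum]
    congr 1
    funext s
    rw [Finset.sum_apply]
    have h2 : ∀ t, sg (n + 2) t (hb ⊤ (l t)) s = if s = t then hb ⊤ (l t) else 0 := by
      intro t
      change LinearMap.single ℝ (fun _ : Fin (n + 2) => Hs ⊤) t (hb ⊤ (l t)) s = _
      rw [LinearMap.single_apply, Pi.single_apply]
    simp_rw [h2]
    rw [sum_ite_eq univ s, if_pos (mem_univ s)]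
  rw [h, LinearIsometry.norm_map, pi_norm_le_iff_of_nonneg zero_le_one]
  intro t
  exact Dat.hb_norm_le _ _

theorem distortion_Dn (n : ℕ) (S : (Dn n).X ≃L[ℝ] D0.X) : (n : ℝ) + 2 ≤ distortion S ^ 2 := by
  set A := ‖(S : (Dn n).X →L[ℝ] D0.X)‖ with hA
  set A' := ‖(S.symm : D0.X →L[ℝ] (Dn n).X)‖ with hA'
  have hA0 : 0 ≤ A := norm_nonneg _
  have hA'0 : 0 ≤ A' := norm_nonneg _
  have hb1 : ∀ t l, 1 ≤ A' * ‖S (emb n t (hb ⊤ l))‖ := by
    intro t l
    have h1 := (S.symm : D0.X →L[ℝ] (Dn n).X).le_opNorm (S (emb n t (hb ⊤ l)))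
    have h2 : (S.symm : D0.X →L[ℝ] (Dn n).X) (S (emb n t (hb ⊤ l))) = emb n t (hb ⊤ l) :=
      S.symm_apply_apply _
    rw [h2, LinearIsometry.norm_map, hb_norm _ _ (ENat.natCast_lt_top l)] at h1
    exact h1
  have hA'pos : 0 < A' := by
    rcases hA'0.lt_or_eq with h | h
    · exact h
    · have := hb1 0 0
      rw [← h, zero_mul] at this
      linarith
  have hlow : ∀ t l, (A'⁻¹) ^ 2 ≤ ‖S (emb n t (hb ⊤ l))‖ ^ 2 := by
    intro t l
    refine pow_le_pow_left₀ (inv_nonneg.2 hA'0) ?_ 2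
    rw [inv_le_iff_one_le_mul₀' hA'pos]
    exact hb1 t l
  have hup : ∀ t l, ‖S (emb n t (hb ⊤ l))‖ ≤ A := by
    intro t l
    have h1 := (S : (Dn n).X →L[ℝ] D0.X).le_opNorm (emb n t (hb ⊤ l))
    rw [LinearIsometry.norm_map, hb_norm _ _ (ENat.natCast_lt_top l), mul_one] at h1
    exact h1
  have key : ∀ ε : ℝ, 0 < ε → ∀ T : Finset (Fin (n + 2)), ∃ l : Fin (n + 2) → ℕ,
      (T.card : ℝ) * (A'⁻¹ ^ 2 - ε) ≤ ‖∑ t ∈ T, S (emb n t (hb ⊤ (l t)))‖ ^ 2 := by
    intro ε hε T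
    induction T using Finset.induction_on with
    | empty => exact ⟨fun _ => 0, by simp⟩
    | insert a T ha ih =>
      obtain ⟨l, hl⟩ := ih
      have h1 := lower_X D0 (∑ t ∈ T, S (emb n t (hb ⊤ (l t)))) (fun j => S (emb n a (hb ⊤ j))) A
        (fun j => hup a j)
        (fun c => by
          have hfd : FiniteDimensional ℝ (BT (D0.kd c) (D0.sz c)) := by
            change FiniteDimensional ℝ (Fin (c.1 + 2) → Hs (c.2 : ℕ∞))
            infer_instance
          let ev : D0.X →L[ℝ] BT (D0.kd c) (D0.sz c) :=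
            (lp.evalCLM ℝ (fun a : D0.A => BT (D0.kd a) (D0.sz a)) 2 c).comp
              (WithLp.fstL 2 ℝ D0.W D0.Y)
          exact tendsto_finDim (ev.comp ((S : (Dn n).X →L[ℝ] D0.X).comp
            (emb n a).toContinuousLinearMap)))
        (fun z => by
          let ev : D0.X →L[ℝ] ℝ :=
            (lp.evalCLM ℝ (fun _ : (D0.A × D0.A) × List Bool => ℝ) 2 z).comp
              (WithLp.sndL 2 ℝ D0.W D0.Y)
          exact tendsto_finDim (ev.comp ((S : (Dn n).X →L[ℝ] D0.X).comp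
            (emb n a).toContinuousLinearMap)))
        ε hε
      obtain ⟨j, hj⟩ := h1.exists
      refine ⟨Function.update l a j, ?_⟩
      rw [sum_insert ha, card_insert_of_notMem ha, Function.update_self]
      have h2 : ∑ t ∈ T, S (emb n t (hb ⊤ (Function.update l a j t))) =
          ∑ t ∈ T, S (emb n t (hb ⊤ (l t))) := by
        refine sum_congr rfl fun t ht => ?_
        rw [Function.update_of_ne]
        rintro rfl
        exact ha ht
      rw [h2, add_comm (S _)]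
      refine le_trans ?_ hj
      have h3 := hlow a j
      push_cast
      linarith
  have key2 : ∀ ε : ℝ, 0 < ε → ((n : ℝ) + 2) * (A'⁻¹ ^ 2 - ε) ≤ A ^ 2 := by
    intro ε hε
    obtain ⟨l, hl⟩ := key ε hε univ
    rw [← map_sum, card_univ, Fintype.card_fin] at hl
    have h1 := (S : (Dn n).X →L[ℝ] D0.X).le_opNorm (∑ t, emb n t (hb ⊤ (l t)))
    have h2 : ‖S (∑ t, emb n t (hb ⊤ (l t)))‖ ≤ A := by
      refine h1.trans ?_
      exact (mul_le_mul_of_nonneg_left (norm_sum_emb n l) hA0).trans_eq (mul_one _)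
    have h3 := pow_le_pow_left₀ (norm_nonneg _) h2 2
    push_cast at hl
    linarith
  have key3 : ((n : ℝ) + 2) * A'⁻¹ ^ 2 ≤ A ^ 2 := by
    refine le_of_forall_pos_le_add fun δ hδ => ?_
    have hn : (0 : ℝ) < (n : ℝ) + 2 := by positivity
    have h1 := key2 (δ / ((n : ℝ) + 2)) (by positivity)
    rw [mul_sub, mul_div_cancel₀ _ hn.ne'] at h1
    linarith
  have h1 : (n : ℝ) + 2 = ((n : ℝ) + 2) * A'⁻¹ ^ 2 * A' ^ 2 := by
    field_simp
  change (n : ℝ) + 2 ≤ (A * A') ^ 2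
  rw [h1, mul_pow]
  exact mul_le_mul_of_nonneg_right key3 (by positivity)

/-- The distances between separable models of the theory of `D0.str` are unbounded. -/
theorem exists_far (C : ℝ) : ∃ n, ∀ S : (Dn n).str.carrier ≃L[ℝ] D0.str.carrier,
    C < distortion S := by
  obtain ⟨n, hn⟩ := exists_nat_gt (C ^ 2)
  refine ⟨n, fun S => ?_⟩
  have h : (n : ℝ) + 2 ≤ distortion S ^ 2 := distortion_Dn n S
  have h0 : 0 ≤ distortion S := mul_nonneg (norm_nonneg _) (norm_nonneg _)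
  exact lt_of_pow_lt_pow_left₀ 2 h0 (by linarith)

end

end Pool.Agent.Lib.MP_4e4c79_lc.Complete
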