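import Mathlib
import Pool.Agent.Lib.MP_4e4c79_lc.Models

/-!
The distances of the models `MM i` from `MM 0` are unbounded.
-/

namespace Pool.Agent.Lib.MP_4e4c79_lc.Incomplete

open Pool.Agent.Lib.MP_4e4c79_lc Finset TopologicalSpace

noncomputable section

/-- The unit vectors of the finite-dimensional summand. -/
def uu (i : ℕ) (t : Fin (kk i)) : E i := WithLp.toLp 2 (0, WithLp.toLp _ (Pi.single t (1 : ℝ)))

lemma uu_norm (i : ℕ) (t : Fin (kk i)) : ‖uu i t‖ = 1 := by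
  have hp := pp_pos i
  have h : ‖uu i t‖ ^ 2 = 1 := by
    rw [E_norm_sq]
    have : ∀ s, |((uu i t).snd) s| ^ pp i = if s = t then 1 else 0 := by
      intro s
      by_cases hs : s = t
      · subst hs; simp [uu]
      · simp [uu, hs, Real.zero_rpow hp.ne']
    rw [sum_congr rfl fun s _ => this s]
    simp [uu]
  have h0 := norm_nonneg (uu i t)
  nlinarith

lemma sum_uu_norm (i : ℕ) (θ : Fin (kk i) → ℝ) (hθ : ∀ t, θ t = 1 ∨ θ t = -1) :
    ‖∑ t, θ t • uu i t‖ ^ 2 = (kk i : ℝ) ^ (2 / pp i) := by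
  have hp := pp_pos i
  have h : ∑ t, θ t • uu i t = WithLp.toLp 2 (0, WithLp.toLp _ θ) := by
    apply (WithLp.equiv 2 _).injective
    have h1 : (WithLp.equiv 2 (l2 × X i)) (∑ t, θ t • uu i t) =
        ∑ t, θ t • ((0 : l2), (WithLp.toLp _ (Pi.single t (1 : ℝ)) : X i)) := by
      change (WithLp.linearEquiv 2 ℝ (l2 × X i)) (∑ t, θ t • uu i t) = _
      rw [map_sum]
      rfl
    rw [h1]
    ext s
    · simp [Prod.fst_sum]
    · simp [Prod.snd_sum, Pi.single_apply]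
  rw [h, E_norm_sq]
  have h2 : ∀ t, |θ t| ^ pp i = 1 := by
    intro t
    rcases hθ t with h | h <;> simp [h]
  simp [h2]

lemma distortion_ge (i : ℕ) (S : E i ≃L[ℝ] E 0) : (i : ℝ) + 1 ≤ distortion S := by
  obtain ⟨θ, hθ, hle⟩ := exists_signs (fun t => jj 0 (S (uu i t)))
  set A := ‖(S : E i →L[ℝ] E 0)‖
  set A' := ‖(S.symm : E 0 →L[ℝ] E i)‖
  have hA : 0 ≤ A := norm_nonneg _
  have hA' : 0 ≤ A' := norm_nonneg _
  have h1 : ∀ t, ‖jj 0 (S (uu i t))‖ ^ 2 ≤ A ^ 2 := by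
    intro t
    have h2 : ‖S (uu i t)‖ ≤ A := by
      have := (S : E i →L[ℝ] E 0).le_opNorm (uu i t)
      rw [uu_norm, mul_one] at this
      exact this
    have h3 := jj_le 0 (S (uu i t))
    exact pow_le_pow_left₀ (norm_nonneg _) (h3.trans h2) 2
  have h4 : ∑ t, ‖jj 0 (S (uu i t))‖ ^ 2 ≤ kk i * A ^ 2 := by
    refine (sum_le_sum fun t _ => h1 t).trans_eq ?_
    simp
  have h5 : ∑ t, θ t • jj 0 (S (uu i t)) = jj 0 (S (∑ t, θ t • uu i t)) := by
    rw [map_sum, map_sum]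
    exact sum_congr rfl fun t _ => by rw [map_smul, map_smul]
  rw [h5] at hle
  set x := ∑ t, θ t • uu i t with hx
  have h6 : ‖x‖ ≤ A' * ‖S x‖ := by
    have := (S.symm : E 0 →L[ℝ] E i).le_opNorm (S x)
    simpa using this
  have h7 : ‖S x‖ ^ 2 ≤ ‖jj 0 (S x)‖ ^ 2 := by
    have := E_le 0 (S x)
    simpa using this
  have h8 : ‖x‖ ^ 2 = (kk i : ℝ) ^ (2 / pp i) := sum_uu_norm i θ hθ
  have h9 : (kk i : ℝ) ^ (2 / pp i) ≤ A' ^ 2 * (kk i * A ^ 2) := by
    rw [← h8]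
    calc ‖x‖ ^ 2 ≤ (A' * ‖S x‖) ^ 2 := pow_le_pow_left₀ (norm_nonneg _) h6 2
      _ = A' ^ 2 * ‖S x‖ ^ 2 := by ring
      _ ≤ A' ^ 2 * (kk i * A ^ 2) := by gcongr; exact h7.trans (hle.trans h4)
  have hk : (0 : ℝ) < kk i := by
    have : 0 < kk i := by unfold kk; positivity
    exact_mod_cast this
  have h10 : (kk i : ℝ) ^ (2 / pp i) = kk i * ((i : ℝ) + 1) ^ 2 := by
    have : (2 / pp i) = 1 + (2 / pp i - 1) := by ring
    rw [this, Real.rpow_add hk, Real.rpow_one, kk_rpow]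
  rw [h10] at h9
  have h11 : ((i : ℝ) + 1) ^ 2 ≤ (A * A') ^ 2 := by
    have : kk i * ((i : ℝ) + 1) ^ 2 ≤ kk i * (A * A') ^ 2 := by
      calc (kk i : ℝ) * ((i : ℝ) + 1) ^ 2 ≤ A' ^ 2 * (kk i * A ^ 2) := h9
        _ = kk i * (A * A') ^ 2 := by ring
    exact le_of_mul_le_mul_left this hk
  exact le_of_sq_le_sq h11 (mul_nonneg hA hA')

lemma separable_E (i : ℕ) : SeparableSpace (E i) := by
  have h1 := separable_l2
  have h2 : SeparableSpace (l2 × X i) := inferInstance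
  exact (WithLp.homeomorphProd 2 l2 (X i)).symm.surjective.denseRange.separableSpace
    (WithLp.homeomorphProd 2 l2 (X i)).symm.continuous

lemma isModel_MM (i : ℕ) : IsModel (MM i) TT := fun _ hφ => hφ i

lemma isSepModel_MM (i : ℕ) : IsSepModel (MM i) TT := ⟨isModel_MM i, separable_E i⟩

/-- The theory `TT` is separably categorical up to linear homeomorphism. -/
theorem sepCat_TT : SepCatUpToLinearHomeo TT := by
  rintro M N ⟨hM, hMs⟩ ⟨hN, hNs⟩
  obtain ⟨e⟩ := model_equiv M hM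
  obtain ⟨f⟩ := model_equiv N hN
  exact ⟨e.trans f.symm⟩

/-- There is no uniform bound of the distortions for `TT`. -/
theorem not_uniform_TT : ¬ UniformlySepCat TT := by
  rintro ⟨C, hC⟩
  obtain ⟨i, hi⟩ := exists_nat_gt C
  obtain ⟨S, hS⟩ := hC (MM i) (MM 0) (isSepModel_MM i) (isSepModel_MM 0)
  have h := distortion_ge i S
  have h' : (i : ℝ) + 1 ≤ C := h.trans hS
  linarith

end

end Pool.Agent.Lib.MP_4e4c79_lc.Incomplete
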