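import Mathlib
import Pool.Agent.Lib.MP_4e4c79_lc.Renorm

/-!
Sums of families of orthogonal projections in the sense of `‖x‖² = ‖x - p x‖² + ‖p x‖²`.
-/

namespace Pool.Agent.Lib.MP_4e4c79_lc.Complete

open Finset TopologicalSpace
attribute [local instance] Classical.propDecidable
set_option linter.unusedSectionVars false

noncomputable section

section Proj

variable {E : Type} [NormedAddCommGroup E] [NormedSpace ℝ E] [CompleteSpace E] {ι : Type}
  (p : ι → E →ₗ[ℝ] E) (hpp : ∀ a b x, a ≠ b → p a (p b x) = 0) (hp : ∀ a x, p a (p a x) = p a x)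
  (hpyth : ∀ a x, ‖x‖ ^ 2 = ‖x - p a x‖ ^ 2 + ‖p a x‖ ^ 2)

include hpp hp hpyth

lemma proj_sum_apply (F : Finset ι) (a : ι) (x : E) :
    p a (∑ b ∈ F, p b x) = if a ∈ F then p a x else 0 := by
  rw [map_sum]
  by_cases ha : a ∈ F
  · rw [if_pos ha, sum_eq_single_of_mem a ha, hp]
    intro b _ hb
    exact hpp a b x hb.symm
  · rw [if_neg ha]
    refine sum_eq_zero fun b hb => hpp a b x ?_
    rintro rfl
    exact ha hb

lemma proj_pyth (F : Finset ι) (x : E) :
    ‖x‖ ^ 2 = ‖x - ∑ a ∈ F, p a x‖ ^ 2 + ∑ a ∈ F, ‖p a x‖ ^ 2 := by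
  induction F using Finset.induction_on with
  | empty => simp
  | insert b F hb ih =>
    rw [sum_insert hb, sum_insert hb]
    have h1 := hpyth b (x - ∑ a ∈ F, p a x)
    have h2 : p b (x - ∑ a ∈ F, p a x) = p b x := by
      rw [map_sub, proj_sum_apply p hpp hp hpyth, if_neg hb, sub_zero]
    rw [h2] at h1
    have h3 : x - (p b x + ∑ a ∈ F, p a x) = x - ∑ a ∈ F, p a x - p b x := by abel
    rw [h3, ih, h1]
    ring

lemma proj_sum_norm (F : Finset ι) (x : E) :
    ‖∑ a ∈ F, p a x‖ ^ 2 = ∑ a ∈ F, ‖p a x‖ ^ 2 := by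
  have h := proj_pyth p hpp hp hpyth F (∑ a ∈ F, p a x)
  have h1 : ∑ a ∈ F, p a (∑ b ∈ F, p b x) = ∑ a ∈ F, p a x :=
    sum_congr rfl fun a ha => by rw [proj_sum_apply p hpp hp hpyth, if_pos ha]
  have h2 : ∑ a ∈ F, ‖p a (∑ b ∈ F, p b x)‖ ^ 2 = ∑ a ∈ F, ‖p a x‖ ^ 2 :=
    sum_congr rfl fun a ha => by rw [proj_sum_apply p hpp hp hpyth, if_pos ha]
  rw [h1, h2, sub_self, norm_zero] at h
  rw [h]
  ring

lemma proj_summable_sq (x : E) : Summable fun a => ‖p a x‖ ^ 2 := by
  refine summable_of_sum_le (c := ‖x‖ ^ 2) (fun a => sq_nonneg _) fun F => ?_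
  have := proj_pyth p hpp hp hpyth F x
  nlinarith [sq_nonneg ‖x - ∑ a ∈ F, p a x‖]

lemma proj_summable (x : E) : Summable fun a => p a x := by
  rw [summable_iff_vanishing_norm]
  intro ε hε
  obtain ⟨F, hF⟩ := summable_iff_vanishing_norm.1 (proj_summable_sq p hpp hp hpyth x) (ε ^ 2)
    (by positivity)
  refine ⟨F, fun T hT => ?_⟩
  have h1 := hF T hT
  rw [← proj_sum_norm p hpp hp hpyth, Real.norm_of_nonneg (by positivity)] at h1
  exact lt_of_pow_lt_pow_left₀ 2 hε.le h1

/-- The sum of the projections. -/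
def projSum : E →L[ℝ] E :=
  LinearMap.mkContinuous
    { toFun := fun x => ∑' a, p a x
      map_add' := fun x y => by
        rw [← (proj_summable p hpp hp hpyth x).tsum_add (proj_summable p hpp hp hpyth y)]
        congr 1
        funext a
        rw [map_add]
      map_smul' := fun c x => by
        rw [RingHom.id_apply, ← (proj_summable p hpp hp hpyth x).tsum_const_smul]
        congr 1
        funext a
        rw [map_smul] }
    1 (fun x => by
      rw [one_mul]
      refine le_of_tendsto ((proj_summable p hpp hp hpyth x).hasSum.norm) ?_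
      refine Filter.Eventually.of_forall fun F => ?_
      refine le_of_sq_le_sq ?_ (norm_nonneg x)
      have h1 := proj_pyth p hpp hp hpyth F x
      rw [proj_sum_norm p hpp hp hpyth]
      nlinarith [sq_nonneg ‖x - ∑ a ∈ F, p a x‖])

lemma projSum_apply (x : E) : projSum p hpp hp hpyth x = ∑' a, p a x := rfl

lemma projSum_hasSum (x : E) : HasSum (fun a => p a x) (projSum p hpp hp hpyth x) :=
  (proj_summable p hpp hp hpyth x).hasSum

lemma proj_continuous (a : ι) : Continuous (p a) := by
  refine ((p a).mkContinuous 1 fun x => ?_).continuous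
  rw [one_mul]
  have := hpyth a x
  exact le_of_sq_le_sq (by nlinarith [sq_nonneg ‖x - p a x‖]) (norm_nonneg x)

lemma proj_projSum (a : ι) (x : E) : p a (projSum p hpp hp hpyth x) = p a x := by
  have h := (projSum_hasSum p hpp hp hpyth x).map (p a).toAddMonoidHom
    (proj_continuous p hpp hp hpyth a)
  have h1 : (⇑(p a).toAddMonoidHom ∘ fun b => p b x) = fun b => if b = a then p a x else 0 := by
    funext b
    by_cases hb : b = a
    · subst hb
      rw [if_pos rfl]
      exact hp b x
    · rw [if_neg hb]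
      exact hpp a b x (Ne.symm hb)
  rw [h1] at h
  exact h.unique (hasSum_ite_eq a (p a x))

lemma projSum_projSum (x : E) :
    projSum p hpp hp hpyth (projSum p hpp hp hpyth x) = projSum p hpp hp hpyth x := by
  rw [projSum_apply, projSum_apply]
  congr 1
  funext a
  exact proj_projSum p hpp hp hpyth a x

lemma projSum_eq_zero_iff (x : E) : projSum p hpp hp hpyth x = 0 ↔ ∀ a, p a x = 0 := by
  constructor
  · intro h a
    rw [← proj_projSum p hpp hp hpyth a x, h, map_zero]
  · intro h
    rw [projSum_apply]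
    simp [h]

/-- The space is the sum of a closed subspace and the intersection of the kernels. -/
lemma projSum_equiv (V : Submodule ℝ E) (hVc : IsClosed (V : Set E)) (h1 : ∀ a x, p a x ∈ V)
    (h2 : ∀ v ∈ V, projSum p hpp hp hpyth v = v) :
    Nonempty (E ≃L[ℝ] V × LinearMap.ker (projSum p hpp hp hpyth : E →ₗ[ℝ] E)) := by
  have h3 : ∀ x, projSum p hpp hp hpyth x ∈ V := by
    intro x
    refine hVc.mem_of_tendsto (projSum_hasSum p hpp hp hpyth x) ?_
    exact Filter.Eventually.of_forall fun F => V.sum_mem fun a _ => h1 a x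
  let f₁ : E →L[ℝ] V := (projSum p hpp hp hpyth).codRestrict V h3
  let f₂ : V →L[ℝ] E := V.subtypeL
  have h4 : Function.RightInverse f₂ f₁ := by
    intro v
    apply Subtype.ext
    exact h2 v v.2
  have e := ContinuousLinearEquiv.equivOfRightInverse f₁ f₂ h4
  have h5 : LinearMap.ker (f₁ : E →ₗ[ℝ] V) = LinearMap.ker (projSum p hpp hp hpyth : E →ₗ[ℝ] E) := by
    ext x
    simp only [LinearMap.mem_ker]
    constructor
    · intro h
      exact congrArg Subtype.val h
    · intro h
      exact Subtype.ext h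
  rw [← h5]
  exact ⟨e⟩

end Proj

section Ext

variable {V E F : Type} [AddCommGroup V] [Module ℝ V] [NormedAddCommGroup E] [NormedSpace ℝ E]
  [CompleteSpace E] [NormedAddCommGroup F] [NormedSpace ℝ F] [CompleteSpace F]

/-- The closures of the ranges of two linear maps which induce the same seminorm are isometric. -/
theorem closure_equiv (f : V →ₗ[ℝ] E) (g : V →ₗ[ℝ] F) (h : ∀ v, ‖g v‖ = ‖f v‖) :
    Nonempty ((LinearMap.range f).topologicalClosure ≃ₗᵢ[ℝ]
      (LinearMap.range g).topologicalClosure) := by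
  have hf : ∀ v, f v ∈ (LinearMap.range f).topologicalClosure := fun v =>
    subset_closure (LinearMap.mem_range_self f v)
  have hg : ∀ v, g v ∈ (LinearMap.range g).topologicalClosure := fun v =>
    subset_closure (LinearMap.mem_range_self g v)
  let e₁ := f.codRestrict _ hf
  let e₂ := g.codRestrict _ hg
  have hd : ∀ {G : Type} [NormedAddCommGroup G] [NormedSpace ℝ G] (k : V →ₗ[ℝ] G)
      (hk : ∀ v, k v ∈ (LinearMap.range k).topologicalClosure),
      DenseRange (k.codRestrict _ hk) := by
    intro G _ _ k hk x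
    rw [closure_subtype]
    have h1 : (Subtype.val '' Set.range (k.codRestrict _ hk) : Set G) = LinearMap.range k := by
      ext y
      constructor
      · rintro ⟨_, ⟨v, rfl⟩, rfl⟩
        exact LinearMap.mem_range_self k v
      · rintro ⟨v, rfl⟩
        exact ⟨_, ⟨v, rfl⟩, rfl⟩
    rw [h1]
    exact x.2
  exact ⟨(LinearEquiv.refl ℝ V).extendOfIsometry e₁ e₂ (hd f hf) (hd g hg) (fun x => h x)⟩

end Ext

/-- In a separable space there is no uncountable uniformly separated family. -/
lemma false_of_separated {N : Type} [NormedAddCommGroup N] [SeparableSpace N]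
    (z : (ℕ → Bool) → N) (δ : ℝ) (hδ : 0 < δ) (h : ∀ r s, r ≠ s → δ ≤ ‖z r - z s‖) : False := by
  have hinj : Function.Injective z := by
    intro r s hrs
    by_contra hne
    have h1 := h r s hne
    rw [hrs, sub_self, norm_zero] at h1
    linarith
  have hd : DiscreteTopology (Set.range z) := by
    apply DiscreteTopology.of_forall_le_dist (r := δ) hδ
    intro x y hxy
    obtain ⟨_, ⟨i, rfl⟩⟩ := x
    obtain ⟨_, ⟨j, rfl⟩⟩ := y
    have : i ≠ j := by
      rintro rfl
      exact hxy rfl
    have h2 := h i j this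
    rw [Subtype.dist_eq, dist_eq_norm]
    exact h2
  have : SecondCountableTopology N := UniformSpace.secondCountable_of_separable N
  have hc : Countable (Set.range z) := separableSpace_iff_countable.1 inferInstance
  have hc2 : Countable (ℕ → Bool) := (Set.rangeFactorization_injective.2 hinj).countable
  have : Countable (Set ℕ) := by
    have hi : Function.Injective (fun (s : Set ℕ) (n : ℕ) => @decide (n ∈ s) (Classical.dec _)) := by
      intro s t hst
      ext n
      have := congrFun hst n
      simpa using this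
    exact hi.countable
  obtain ⟨f, hf⟩ := exists_injective_nat (Set ℕ)
  exact Function.cantor_injective f hf

end

end Pool.Agent.Lib.MP_4e4c79_lc.Complete
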