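import Mathlib
import Pool.Agent.Lib.MP_4e4c79_lc.Transfer
import Pool.Agent.Lib.MP_4e4c79_lc.Proj

/-!
Separable models of the theory of a structure `D.str`.
-/

namespace Pool.Agent.Lib.MP_4e4c79_lc.Complete

open Pool.Agent.Lib.MP_4e4c79_lc Finset TopologicalSpace
attribute [local instance] Classical.propDecidable
set_option linter.unusedSectionVars false

noncomputable section

/-- Coordinates projections of blocks, on terms. -/
def tP {k : ℕ} (n i : ℕ) (t : Term sig k) : Term sig k := (tT n i t).sub (tT n (i + 1) t)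

/-- The projections to kinds, on terms. -/
def tQ {k : ℕ} (n i : ℕ) (t : Term sig k) : Term sig k := (tT n i t).sub (tT (n + 1) 0 t)

/-- The square of the norm. -/
def nsq {k : ℕ} (t : Term sig k) : Formula sig k :=
  Incomplete.c1 (fun a => a ^ 2) (by fun_prop) (.norm t)

section Model

variable (N : Struc sig)

/-- Projections to blocks. -/
def cP (n i : ℕ) (x : N.carrier) : N.carrier := cT N n i x - cT N n (i + 1) x

/-- Projections to kinds. -/
def cQ (n i : ℕ) (x : N.carrier) : N.carrier := cT N n i x - cT N (n + 1) 0 x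

lemma eval_tP {k : ℕ} (v : Fin k → N.carrier) (n i : ℕ) (t : Term sig k) :
    (tP n i t).eval N v = cP N n i (t.eval N v) := by
  rw [tP, Term.eval_sub, eval_tT, eval_tT, cP]

lemma eval_tQ {k : ℕ} (v : Fin k → N.carrier) (n i : ℕ) (t : Term sig k) :
    (tQ n i t).eval N v = cQ N n i (t.eval N v) := by
  rw [tQ, Term.eval_sub, eval_tT, eval_tT, cQ]

lemma eval_nsq {k : ℕ} (v : Fin k → N.carrier) (t : Term sig k) :
    (nsq t).eval N v = ‖t.eval N v‖ ^ 2 := rfl

variable {N} {D : Dat} (hN : IsModel N (theoryOf D.str))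

include hN

lemma N_T_add (n m : ℕ) (x y : N.carrier) : cT N n m (x + y) = cT N n m x + cT N n m y := by
  have h := transfer_term hN (tT n m (.add (.var 0) (.var 1)))
    (.add (tT n m (.var 0)) (tT n m (.var 1)))
    (fun v => by simp only [eval_tT, Term.eval]; exact D.TT_add n m _ _) ![x, y]
  simp only [eval_tT, Term.eval] at h
  exact h

lemma N_T_smul (n m : ℕ) (c : ℝ) (x : N.carrier) : cT N n m (c • x) = c • cT N n m x := by
  have h := transfer_term hN (tT n m (.smul c (.var 0))) (.smul c (tT n m (.var 0)))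
    (fun v => by simp only [eval_tT, Term.eval]; exact D.TT_smul n m c _) ![x]
  simp only [eval_tT, Term.eval] at h
  exact h

lemma N_T_T' {n k n' k' : ℕ} (hh : n < n' ∨ (n = n' ∧ k ≤ k')) (x : N.carrier) :
    cT N n' k' (cT N n k x) = cT N n' k' x := by
  have h := transfer_term hN (tT n' k' (tT n k (.var 0))) (tT n' k' (.var 0))
    (fun v => by simp only [eval_tT, Term.eval]; exact D.TT_TT' hh _) ![x]
  simp only [eval_tT, Term.eval] at h
  exact h

lemma N_T_pyth (n k : ℕ) (x : N.carrier) :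
    ‖x‖ ^ 2 = ‖x - cT N n k x‖ ^ 2 + ‖cT N n k x‖ ^ 2 := by
  have h := transfer_eq hN (nsq (.var 0)) (Incomplete.c2 (fun a b => a + b) (by fun_prop)
    (nsq (Term.sub (.var 0) (tT n k (.var 0)))) (nsq (tT n k (.var 0))))
    (fun v => by
      simp only [eval_tT, Term.eval, Incomplete.eval_c2, eval_nsq, Term.eval_sub]
      exact D.TT_pyth n k _) ![x]
  simp only [eval_tT, Term.eval, Incomplete.eval_c2, eval_nsq, Term.eval_sub] at h
  exact h

lemma N_P_pyth (n k : ℕ) (x : N.carrier) :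
    ‖x‖ ^ 2 = ‖x - cP N n k x‖ ^ 2 + ‖cP N n k x‖ ^ 2 := by
  have h := transfer_eq hN (nsq (.var 0)) (Incomplete.c2 (fun a b => a + b) (by fun_prop)
    (nsq (Term.sub (.var 0) (tP n k (.var 0)))) (nsq (tP n k (.var 0))))
    (fun v => by
      simp only [eval_tP, Term.eval, Incomplete.eval_c2, eval_nsq, Term.eval_sub]
      exact D.pp_pyth n k _) ![x]
  simp only [eval_tP, Term.eval, Incomplete.eval_c2, eval_nsq, Term.eval_sub] at h
  exact h

lemma N_P_P_ne {n i n' i' : ℕ} (hh : (n, i) ≠ (n', i')) (x : N.carrier) :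
    cP N n i (cP N n' i' x) = 0 := by
  have h := transfer_term hN (tP n i (tP n' i' (.var 0))) .zero
    (fun v => by simp only [eval_tP, Term.eval]; exact D.pp_pp_ne hh _) ![x]
  simp only [eval_tP, Term.eval] at h
  exact h

lemma N_P_P_self (n i : ℕ) (x : N.carrier) : cP N n i (cP N n i x) = cP N n i x := by
  have h := transfer_term hN (tP n i (tP n i (.var 0))) (tP n i (.var 0))
    (fun v => by simp only [eval_tP, Term.eval]; exact D.pp_pp_self n i _) ![x]
  simp only [eval_tP, Term.eval] at h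
  exact h

lemma N_T_FF (n m : ℕ) (r : ℕ → Bool) (x y : N.carrier) : cT N n m (cF N r x y) = 0 := by
  have h := transfer_term hN (tT n m (tF r (.var 0) (.var 1))) .zero
    (fun v => by simp only [eval_tT, eval_tF, Term.eval]; exact D.TT_FF' n m r _ _) ![x, y]
  simp only [eval_tT, eval_tF, Term.eval] at h
  exact h

lemma N_P_ec (n' i' n i s l : ℕ) :
    cP N n' i' (cE N n i s l) = if n = n' ∧ i = i' then cE N n i s l else 0 := by
  have h := transfer_term hN (k := 0) (tP n' i' (tE n i s l))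
    (if n = n' ∧ i = i' then tE n i s l else .zero)
    (fun v => by
      rw [eval_tP, eval_tE]
      split_ifs with hc
      · rw [eval_tE]
        have := D.pp_ec n' i' n i s l
        rw [if_pos hc] at this
        exact this
      · have := D.pp_ec n' i' n i s l
        rw [if_neg hc] at this
        exact this) ![]
  rw [eval_tP, eval_tE] at h
  rw [h]
  split_ifs with hc
  · rw [eval_tE]
  · rfl

lemma N_Q_ec : cQ N 0 0 (cE N 0 1 0 0) = cE N 0 1 0 0 := by
  have h := transfer_term hN (k := 0) (tQ 0 0 (tE 0 1 0 0)) (tE 0 1 0 0)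
    (fun v => by rw [eval_tQ, eval_tE]; exact D.QQ_ec) ![]
  rw [eval_tQ, eval_tE] at h
  exact h

lemma N_ec_norm : ‖cE N 0 1 0 0‖ = 1 := by
  have h := transfer_eq hN (k := 0) (.norm (tE 0 1 0 0))
    (Incomplete.c1 (fun _ => (1 : ℝ)) (by fun_prop) (.norm .zero))
    (fun v => by
      rw [Incomplete.eval_c1, eval_norm, eval_tE]
      exact D.ec_norm 0 1 0 0 (by norm_num) (by norm_num)) ![]
  rw [Incomplete.eval_c1, eval_norm, eval_tE] at h
  exact h

lemma N_B_add (x y z : N.carrier) : cB N (x + y) z = cB N x z + cB N y z := by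
  have h := transfer_eq hN (fB (.add (.var 0) (.var 1)) (.var 2))
    (Incomplete.c2 (fun a b => a + b) (by fun_prop) (fB (.var 0) (.var 2)) (fB (.var 1) (.var 2)))
    (fun v => by
      simp only [eval_fB, Term.eval, Incomplete.eval_c2]
      exact D.B_add _ _ _) ![x, y, z]
  simp only [eval_fB, Term.eval, Incomplete.eval_c2] at h
  exact h

lemma N_B_smul (c : ℝ) (x y : N.carrier) : cB N (c • x) y = c * cB N x y := by
  have h := transfer_eq hN (fB (.smul c (.var 0)) (.var 1))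
    (Incomplete.c1 (fun a => c * a) (by fun_prop) (fB (.var 0) (.var 1)))
    (fun v => by
      simp only [eval_fB, Term.eval, Incomplete.eval_c1]
      exact D.B_smul _ _ _) ![x, y]
  simp only [eval_fB, Term.eval, Incomplete.eval_c1] at h
  exact h

lemma N_B_symm (x y : N.carrier) : cB N x y = cB N y x := by
  have h := transfer_eq hN (fB (.var 0) (.var 1)) (fB (.var 1) (.var 0))
    (fun v => by
      simp only [eval_fB, Term.eval]
      exact D.B_symm _ _) ![x, y]
  simp only [eval_fB, Term.eval] at h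
  exact h

lemma N_B_self_le (x : N.carrier) : cB N x x ≤ ‖x‖ ^ 2 := by
  have h := transfer_le hN (fB (.var 0) (.var 0)) (nsq (.var 0))
    (fun v => by
      simp only [eval_fB, Term.eval, eval_nsq]
      exact D.B_self_le _) ![x]
  simp only [eval_fB, Term.eval, eval_nsq] at h
  exact h

lemma N_B_self_ge (n : ℕ) (x : N.carrier) :
    ‖x - cT N 0 0 x‖ ^ 2 + ((n : ℝ) + 2)⁻¹ * ‖cQ N n 0 x‖ ^ 2 ≤ cB N x x := by
  have h := transfer_le hN (Incomplete.c2 (fun a b => a + ((n : ℝ) + 2)⁻¹ * b) (by fun_prop)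
    (nsq (Term.sub (.var 0) (tT 0 0 (.var 0)))) (nsq (tQ n 0 (.var 0)))) (fB (.var 0) (.var 0))
    (fun v => by
      simp only [eval_fB, eval_tT, eval_tQ, Term.eval, Incomplete.eval_c2, eval_nsq, Term.eval_sub]
      exact D.B_self_ge n _) ![x]
  simp only [eval_fB, eval_tT, eval_tQ, Term.eval, Incomplete.eval_c2, eval_nsq,
    Term.eval_sub] at h
  exact h

lemma N_sep_T (k : ℕ) (hk : 0 < k) (r s : ℕ → Bool) (hrs : ∃ i < k, r i ≠ s i) (x y : N.carrier) :
    2 * (‖cT N k 0 x‖ ^ 2 * ‖cQ N 0 0 y‖ ^ 2) ≤ ‖cF N r x y - cF N s x y‖ ^ 2 := by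
  have h := transfer_le hN (Incomplete.c2 (fun a b => 2 * (a * b)) (by fun_prop)
    (nsq (tT k 0 (.var 0))) (nsq (tQ 0 0 (.var 1))))
    (nsq (Term.sub (tF r (.var 0) (.var 1)) (tF s (.var 0) (.var 1))))
    (fun v => by
      simp only [eval_tF, eval_tT, eval_tQ, Term.eval, Incomplete.eval_c2, eval_nsq, Term.eval_sub]
      exact D.FF_sep_T k hk r s hrs _ _) ![x, y]
  simp only [eval_tF, eval_tT, eval_tQ, Term.eval, Incomplete.eval_c2, eval_nsq,
    Term.eval_sub] at h
  exact h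

lemma N_sep_Q (n m k : ℕ) (hnm : n ≠ m) (r s : ℕ → Bool) (hrs : ∃ i < k, r i ≠ s i)
    (x y : N.carrier) :
    2 * (‖cQ N n k x‖ ^ 2 * ‖cQ N m k y‖ ^ 2) ≤ ‖cF N r x y - cF N s x y‖ ^ 2 := by
  have h := transfer_le hN (Incomplete.c2 (fun a b => 2 * (a * b)) (by fun_prop)
    (nsq (tQ n k (.var 0))) (nsq (tQ m k (.var 1))))
    (nsq (Term.sub (tF r (.var 0) (.var 1)) (tF s (.var 0) (.var 1))))
    (fun v => by
      simp only [eval_tF, eval_tQ, Term.eval, Incomplete.eval_c2, eval_nsq, Term.eval_sub]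
      exact D.FF_sep_Q n m k hnm r s hrs _ _) ![x, y]
  simp only [eval_tF, eval_tQ, Term.eval, Incomplete.eval_c2, eval_nsq, Term.eval_sub] at h
  exact h

/-- The vectors `f_0(e_{1,j+1}, e_{0,1})`. -/
lemma N_B_FF (r : ℕ → Bool) (i j : ℕ) :
    cB N (cF N r (cE N 1 (i + 1) 0 0) (cE N 0 1 0 0)) (cF N r (cE N 1 (j + 1) 0 0) (cE N 0 1 0 0)) =
      if i = j then 1 else 0 := by
  have h := transfer_eq hN (k := 0)
    (fB (tF r (tE 1 (i + 1) 0 0) (tE 0 1 0 0)) (tF r (tE 1 (j + 1) 0 0) (tE 0 1 0 0)))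
    (Incomplete.c1 (fun _ => if i = j then (1 : ℝ) else 0) (by fun_prop) (.norm .zero))
    (fun v => by
      simp only [eval_fB, eval_tF, eval_tE, Incomplete.eval_c1]
      exact D.B_FF_ec r i j) ![]
  simp only [eval_fB, eval_tF, eval_tE, Incomplete.eval_c1] at h
  exact h

/-- Block projections in terms of the form. -/
lemma N_P_expand (n i : ℕ) (x : N.carrier) :
    cP N n i x = ∑ s ∈ range (n + 2), ∑ l ∈ range i,
      (((n : ℝ) + 2) * cB N x (cE N n i s l)) • cE N n i s l := by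
  have key : ∀ ξ : ℕ → ℕ → ℝ, ‖cP N n i x - ∑ s ∈ range (n + 2), ∑ l ∈ range i,
      ξ s l • cE N n i s l‖ ≤
      ∑ s ∈ range (n + 2), ∑ l ∈ range i, |((n : ℝ) + 2) * cB N x (cE N n i s l) - ξ s l| := by
    intro ξ
    have h := transfer_le hN
      (.norm ((tP n i (.var 0)).sub (Term.sum (n + 2) fun s => Term.sum i fun l =>
        .smul (ξ s l) (tE n i s l))))
      (Formula.sum (n + 2) fun s => Formula.sum i fun l =>
        Incomplete.c1 (fun a => |((n : ℝ) + 2) * a - ξ s l|) (by fun_prop)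
          (fB (.var 0) (tE n i s l)))
      (fun v => by
        simp only [eval_norm, Term.eval_sub, Term.eval_sum, Formula.eval_sum, eval_tP, eval_tE,
          Term.eval, Incomplete.eval_c1, eval_fB]
        have h1 : ∀ z : D.X, ‖D.pp n i z - ∑ s ∈ range (n + 2), ∑ l ∈ range i,
            ξ s l • D.ec n i s l‖ ≤
            ∑ s ∈ range (n + 2), ∑ l ∈ range i,
              |((n : ℝ) + 2) * D.B z (D.ec n i s l) - ξ s l| := by
          intro z
          rw [D.pp_expand, ← sum_sub_distrib]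
          refine (norm_sum_le _ _).trans (sum_le_sum fun s _ => ?_)
          rw [← sum_sub_distrib]
          refine (norm_sum_le _ _).trans (sum_le_sum fun l _ => ?_)
          rw [← sub_smul, norm_smul, Real.norm_eq_abs]
          exact mul_le_of_le_one_right (abs_nonneg _) (D.ec_norm_le n i s l)
        exact h1 _) ![x]
    simp only [eval_norm, Term.eval_sub, Term.eval_sum, Formula.eval_sum, eval_tP, eval_tE,
          Term.eval, Incomplete.eval_c1, eval_fB] at h
    exact h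
  have h2 := key fun s l => ((n : ℝ) + 2) * cB N x (cE N n i s l)
  simp only [sub_self, abs_zero, sum_const_zero] at h2
  exact sub_eq_zero.1 (norm_le_zero_iff.1 h2)

/-- Linear combinations of the constants. -/
lemma N_lin_norm (c : (ℕ × ℕ × ℕ × ℕ) →₀ ℝ) :
    ‖Finsupp.linearCombination ℝ (fun j : ℕ × ℕ × ℕ × ℕ => D.ec j.1 j.2.1 j.2.2.1 j.2.2.2) c‖ =
    ‖Finsupp.linearCombination ℝ (fun j : ℕ × ℕ × ℕ × ℕ => cE N j.1 j.2.1 j.2.2.1 j.2.2.2) c‖ := by
  let t : Term sig 0 := Term.listSum (c.support.toList.map fun j =>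
    .smul (c j) (tE j.1 j.2.1 j.2.2.1 j.2.2.2))
  have h := value_eq_of_isModel hN (.norm t)
  have h1 : ∀ M : Struc sig, value M (.norm t) =
      ‖Finsupp.linearCombination ℝ (fun j : ℕ × ℕ × ℕ × ℕ =>
        cE M j.1 j.2.1 j.2.2.1 j.2.2.2) c‖ := by
    intro M
    change ‖t.eval M Fin.elim0‖ = _
    congr 1
    rw [Term.eval_listSum, List.map_map, Finsupp.linearCombination_apply, Finsupp.sum,
      ← Finset.sum_map_toList]
    congr 1
    refine List.map_congr_left fun j _ => ?_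
    simp only [Function.comp_apply, Term.eval, eval_tE]
  rw [h1, h1] at h
  exact h.symm

/-- The projections as linear maps. -/
def NT (n m : ℕ) : N.carrier →ₗ[ℝ] N.carrier where
  toFun := cT N n m
  map_add' := N_T_add hN n m
  map_smul' := N_T_smul hN n m

/-- The block projections as linear maps. -/
def NP (a : ℕ × ℕ) : N.carrier →ₗ[ℝ] N.carrier := NT hN a.1 a.2 - NT hN a.1 (a.2 + 1)

omit hN in
lemma NP_apply (hN : IsModel N (theoryOf D.str)) (a : ℕ × ℕ) (x : N.carrier) :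
    NP hN a x = cP N a.1 a.2 x := rfl

lemma NP_ne (a b : ℕ × ℕ) (x : N.carrier) (hab : a ≠ b) : NP hN a (NP hN b x) = 0 := by
  rw [NP_apply, NP_apply]
  exact N_P_P_ne hN hab x

lemma NP_self (a : ℕ × ℕ) (x : N.carrier) : NP hN a (NP hN a x) = NP hN a x := by
  rw [NP_apply, NP_apply]
  exact N_P_P_self hN _ _ x

lemma NP_pyth (a : ℕ × ℕ) (x : N.carrier) : ‖x‖ ^ 2 = ‖x - NP hN a x‖ ^ 2 + ‖NP hN a x‖ ^ 2 := by
  rw [NP_apply]
  exact N_P_pyth hN _ _ x

/-- The sum of the block projections. -/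
def PiN : N.carrier →L[ℝ] N.carrier := projSum (NP hN) (NP_ne hN) (NP_self hN) (NP_pyth hN)

omit hN in
/-- The span of the constants. -/
def LN (N : Struc sig) : ((ℕ × ℕ × ℕ × ℕ) →₀ ℝ) →ₗ[ℝ] N.carrier :=
  Finsupp.linearCombination ℝ (fun j : ℕ × ℕ × ℕ × ℕ => cE N j.1 j.2.1 j.2.2.1 j.2.2.2)

omit hN in
lemma cE_mem (n i s l : ℕ) : cE N n i s l ∈ LinearMap.range (LN N) := by
  refine ⟨Finsupp.single (n, i, s, l) 1, ?_⟩
  rw [LN, Finsupp.linearCombination_single, one_smul]

lemma PiN_cE (n i s l : ℕ) : PiN hN (cE N n i s l) = cE N n i s l := by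
  have h := projSum_hasSum (NP hN) (NP_ne hN) (NP_self hN) (NP_pyth hN) (cE N n i s l)
  have h1 : (fun a => NP hN a (cE N n i s l)) = fun a => if a = (n, i) then cE N n i s l else 0 := by
    funext a
    rw [NP_apply, N_P_ec hN]
    by_cases ha : a = (n, i)
    · subst ha
      rw [if_pos ⟨rfl, rfl⟩, if_pos rfl]
    · rw [if_neg ha, if_neg]
      rintro ⟨h2, h3⟩
      exact ha (Prod.ext h2.symm h3.symm)
  rw [h1] at h
  exact h.unique (hasSum_ite_eq (n, i) (cE N n i s l))

lemma PiN_eq_of_mem (v : N.carrier) (hv : v ∈ (LinearMap.range (LN N)).topologicalClosure) :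
    PiN hN v = v := by
  have hcl : IsClosed {v : N.carrier | PiN hN v = v} :=
    isClosed_eq (PiN hN).continuous continuous_id
  have hsub : (LinearMap.range (LN N) : Set N.carrier) ⊆ {v : N.carrier | PiN hN v = v} := by
    rintro _ ⟨c, rfl⟩
    change PiN hN (LN N c) = LN N c
    rw [LN, Finsupp.linearCombination_apply, Finsupp.sum, map_sum]
    refine sum_congr rfl fun j _ => ?_
    rw [map_smul, PiN_cE]
  exact closure_minimal hsub hcl hv

/-- The intersection of the kernels. -/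
abbrev KN : Submodule ℝ N.carrier := LinearMap.ker (PiN hN : N.carrier →ₗ[ℝ] N.carrier)

lemma mem_KN (x : N.carrier) : x ∈ KN hN ↔ ∀ n i, cP N n i x = 0 := by
  rw [LinearMap.mem_ker]
  change PiN hN x = 0 ↔ _
  rw [PiN, projSum_eq_zero_iff]
  exact ⟨fun h n i => h (n, i), fun h a => h a.1 a.2⟩

theorem N_equiv_prod : Nonempty (N.carrier ≃L[ℝ]
    (LinearMap.range (LN N)).topologicalClosure × KN hN) := by
  refine projSum_equiv (NP hN) (NP_ne hN) (NP_self hN) (NP_pyth hN) _
    (Submodule.isClosed_topologicalClosure _) ?_ (PiN_eq_of_mem hN)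
  intro a x
  rw [NP_apply, N_P_expand hN]
  refine Submodule.sum_mem _ fun s _ => Submodule.sum_mem _ fun l _ => Submodule.smul_mem _ _ ?_
  exact subset_closure (cE_mem _ _ _ _)

theorem N_closure_equiv : Nonempty ((LinearMap.range (LN N)).topologicalClosure ≃ₗᵢ[ℝ]
    (LinearMap.range (LN D.str)).topologicalClosure) :=
  closure_equiv (LN N) (LN D.str) fun c => N_lin_norm hN c

/-- In the kernel the tails of the kinds do not shrink. -/
lemma KN_T (x : N.carrier) (hx : x ∈ KN hN) (n k : ℕ) : cT N n k x = cT N n 0 x := by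
  induction k with
  | zero => rfl
  | succ k ih =>
    have h := (mem_KN hN x).1 hx n k
    unfold cP at h
    rw [← ih]
    exact (sub_eq_zero.1 h).symm

lemma KN_Q (x : N.carrier) (hx : x ∈ KN hN) (n k : ℕ) : cQ N n k x = cQ N n 0 x := by
  unfold cQ
  rw [KN_T hN x hx]

lemma N_T_norm_anti (k m : ℕ) (hkm : k ≤ m) (x : N.carrier) : ‖cT N m 0 x‖ ≤ ‖cT N k 0 x‖ := by
  have h := N_T_pyth hN m 0 (cT N k 0 x)
  rw [N_T_T' hN (by omega)] at h
  exact le_of_sq_le_sq (by nlinarith [sq_nonneg ‖cT N k 0 x - cT N m 0 x‖]) (norm_nonneg _)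

lemma N_T_telescope (k : ℕ) (x : N.carrier) :
    cT N 0 0 x = ∑ m ∈ range k, cQ N m 0 x + cT N k 0 x := by
  induction k with
  | zero => simp
  | succ k ih =>
    rw [ih, sum_range_succ]
    unfold cQ
    abel

variable [SeparableSpace N.carrier]

lemma exists_T_lt (x : N.carrier) (ε : ℝ) (hε : 0 < ε) : ∃ k, ‖cT N k 0 x‖ < ε := by
  by_contra hcon
  push Not at hcon
  refine false_of_separated (fun r => cF N r x (cE N 0 1 0 0)) ε hε fun r s hrs => ?_
  obtain ⟨i, hi⟩ := Function.ne_iff.1 hrs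
  have h := N_sep_T hN (i + 1) (Nat.succ_pos i) r s ⟨i, Nat.lt_succ_self i, hi⟩ x (cE N 0 1 0 0)
  rw [N_Q_ec hN, N_ec_norm hN, one_pow, mul_one] at h
  have h1 := hcon (i + 1)
  refine le_of_sq_le_sq ?_ (norm_nonneg _)
  have h2 : ε ^ 2 ≤ ‖cT N (i + 1) 0 x‖ ^ 2 := pow_le_pow_left₀ hε.le h1 2
  nlinarith [sq_nonneg ‖cT N (i + 1) 0 x‖]

lemma KN_two_kinds (x y : N.carrier) (hx : x ∈ KN hN) (hy : y ∈ KN hN) (n m : ℕ) (hnm : n ≠ m) :
    cQ N n 0 x = 0 ∨ cQ N m 0 y = 0 := by
  by_contra hcon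
  push Not at hcon
  have h1 : 0 < ‖cQ N n 0 x‖ := norm_pos_iff.2 hcon.1
  have h2 : 0 < ‖cQ N m 0 y‖ := norm_pos_iff.2 hcon.2
  refine false_of_separated (fun r => cF N r x y) (‖cQ N n 0 x‖ * ‖cQ N m 0 y‖) (by positivity)
    fun r s hrs => ?_
  obtain ⟨i, hi⟩ := Function.ne_iff.1 hrs
  have h := N_sep_Q hN n m (i + 1) hnm r s ⟨i, Nat.lt_succ_self i, hi⟩ x y
  rw [KN_Q hN x hx, KN_Q hN y hy] at h
  refine le_of_sq_le_sq ?_ (norm_nonneg _)
  rw [mul_pow]
  have : 0 < ‖cQ N n 0 x‖ ^ 2 * ‖cQ N m 0 y‖ ^ 2 := by positivity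
  linarith

/-- At most one kind has a nonzero limit part. -/
lemma exists_kind : ∃ n, ∀ x ∈ KN hN, ∀ m, m ≠ n → cQ N m 0 x = 0 := by
  by_cases h : ∃ n, ∃ x ∈ KN hN, cQ N n 0 x ≠ 0
  · obtain ⟨n, x, hx, hne⟩ := h
    refine ⟨n, fun y hy m hm => ?_⟩
    exact (KN_two_kinds hN x y hx hy n m hm.symm).resolve_left hne
  · push Not at h
    exact ⟨0, fun x hx m _ => h m x hx⟩

lemma KN_low : ∃ n : ℕ, ∀ x ∈ KN hN, ‖x‖ ^ 2 ≤ ((n : ℝ) + 2) * cB N x x := by
  obtain ⟨n, hn⟩ := exists_kind hN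
  refine ⟨n, fun x hx => ?_⟩
  have h1 : cT N 0 0 x = cQ N n 0 x := by
    rw [← sub_eq_zero, ← norm_le_zero_iff]
    refine le_of_forall_pos_lt_add fun ε hε => ?_
    obtain ⟨k, hk⟩ := exists_T_lt hN x ε hε
    have h2 := N_T_telescope hN (max k (n + 1)) x
    have h3 : ∑ m ∈ range (max k (n + 1)), cQ N m 0 x = cQ N n 0 x := by
      refine sum_eq_single_of_mem n ?_ fun m _ hm => hn x hx m hm
      rw [mem_range]
      exact lt_of_lt_of_le (Nat.lt_succ_self n) (le_max_right _ _)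
    rw [h3] at h2
    rw [h2, add_sub_cancel_left, zero_add]
    exact (N_T_norm_anti hN k _ (le_max_left _ _) x).trans_lt hk
  have h2 := N_T_pyth hN 0 0 x
  have h3 := N_B_self_ge hN n x
  rw [h1] at h2 h3
  have hpos : (0 : ℝ) < (n : ℝ) + 2 := by positivity
  have h4 : ((n : ℝ) + 2) * (‖x - cQ N n 0 x‖ ^ 2 + ((n : ℝ) + 2)⁻¹ * ‖cQ N n 0 x‖ ^ 2) ≤
      ((n : ℝ) + 2) * cB N x x := mul_le_mul_of_nonneg_left h3 hpos.le
  have h5 : ((n : ℝ) + 2) * (‖x - cQ N n 0 x‖ ^ 2 + ((n : ℝ) + 2)⁻¹ * ‖cQ N n 0 x‖ ^ 2) =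
      ((n : ℝ) + 2) * ‖x - cQ N n 0 x‖ ^ 2 + ‖cQ N n 0 x‖ ^ 2 := by
    field_simp
  rw [h5] at h4
  have h6 : (0 : ℝ) ≤ (n : ℝ) := Nat.cast_nonneg n
  nlinarith [sq_nonneg ‖x - cQ N n 0 x‖]

/-- The vectors spanning an infinite-dimensional subspace of the kernel. -/
def zz (j : ℕ) : KN hN := ⟨cF N (fun _ => false) (cE N 1 (j + 1) 0 0) (cE N 0 1 0 0), by
  rw [mem_KN]
  intro n i
  unfold cP
  rw [N_T_FF hN, N_T_FF hN, sub_zero]⟩

lemma KN_infinite : ¬ FiniteDimensional ℝ (KN hN) := by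
  intro hfin
  let β : N.carrier →ₗ[ℝ] N.carrier →ₗ[ℝ] ℝ := LinearMap.mk₂ ℝ (cB N) (N_B_add hN)
    (fun c x y => by simpa using N_B_smul hN c x y)
    (fun x y z => by
      rw [N_B_symm hN x (y + z), N_B_add hN, N_B_symm hN y, N_B_symm hN z])
    (fun c x y => by
      rw [N_B_symm hN x (c • y), N_B_smul hN, N_B_symm hN y]; simp)
  have hli : LinearIndependent ℝ (zz hN) := by
    rw [linearIndependent_iff']
    intro s g hg i hi
    have h0 : ∑ j ∈ s, g j • ((zz hN j : KN hN) : N.carrier) = 0 := by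
      have := congrArg (Subtype.val : KN hN → N.carrier) hg
      simpa using this
    have h1 : β (∑ j ∈ s, g j • ((zz hN j : KN hN) : N.carrier)) (zz hN i) = 0 := by
      rw [h0]; simp
    rw [map_sum, LinearMap.sum_apply] at h1
    have h2 : ∀ j ∈ s, β (g j • ((zz hN j : KN hN) : N.carrier)) (zz hN i) =
        if j = i then g i else 0 := by
      intro j _
      rw [map_smul, LinearMap.smul_apply]
      change g j • cB N (cF N _ (cE N 1 (j + 1) 0 0) (cE N 0 1 0 0))
        (cF N _ (cE N 1 (i + 1) 0 0) (cE N 0 1 0 0)) = _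
      rw [N_B_FF hN]
      by_cases h : j = i
      · simp [h]
      · simp [h]
    rw [sum_congr rfl h2, sum_ite_eq' s i, if_pos hi] at h1
    exact h1
  have := hli.finite
  exact not_finite ℕ

theorem KN_equiv : Nonempty (KN hN ≃L[ℝ] lp (fun _ : ℕ => ℝ) 2) := by
  obtain ⟨n, hn⟩ := KN_low hN
  have hcomp : CompleteSpace (KN hN) := by
    have : IsClosed (KN hN : Set N.carrier) := by
      have h := isClosed_eq (PiN hN).continuous (continuous_const (y := (0 : N.carrier)))
      exact h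
    exact this.completeSpace_coe
  have hsec : SecondCountableTopology N.carrier := UniformSpace.secondCountable_of_separable _
  have hsep : SeparableSpace (KN hN) := by infer_instance
  obtain ⟨H, _, _, _, ⟨e⟩⟩ := exists_hilbert_of_form (KN hN) (fun x y => cB N x y)
    (fun x y => N_B_symm hN _ _) (fun x y z => N_B_add hN _ _ _) (fun c x y => N_B_smul hN _ _ _)
    1 (√((n : ℝ) + 2)) one_pos (by positivity)
    (fun x => by
      have := N_B_self_le hN (x : N.carrier)
      simpa using this)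
    (fun x => by
      rw [Real.sq_sqrt (by positivity)]
      exact hn x x.2)
  exact nonempty_equiv_l2 _ (KN_infinite hN) H e

/-- Every separable model of the theory of `D.str` is linearly homeomorphic to a fixed space. -/
theorem N_equiv : Nonempty (N.carrier ≃L[ℝ]
    (LinearMap.range (LN D.str)).topologicalClosure × lp (fun _ : ℕ => ℝ) 2) := by
  obtain ⟨e⟩ := N_equiv_prod hN
  obtain ⟨f⟩ := N_closure_equiv hN
  obtain ⟨g⟩ := KN_equiv hN
  exact ⟨e.trans (f.toContinuousLinearEquiv.prodCongr g)⟩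

end Model

theorem sepCat_theoryOf (D : Dat) : SepCatUpToLinearHomeo (theoryOf D.str) := by
  rintro M N ⟨hM, hMs⟩ ⟨hN, hNs⟩
  obtain ⟨e⟩ := N_equiv hM
  obtain ⟨f⟩ := N_equiv hN
  exact ⟨e.trans f.symm⟩

end

end Pool.Agent.Lib.MP_4e4c79_lc.Complete
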